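import Pool.Agent.Helper45.TOP.Kr

/-!
# Project TOP: Kronecker representations

`Rep w g e y d N f b`: the integer `N` is the value at the Kronecker point (`2^(w str_j)`) and the
real `f` the value at `y` of one integer polynomial in five variables, of degree `≤ d j` in the
variable `j`, with sum of the absolute values of the coefficients `≤ b`.
-/

set_option autoImplicit false

namespace Pool.Agent.Helper45.TOP
open MvPolynomial

/-- radices -/
def rad (g e : ℕ) : Fin 5 → ℕ := ![g, g, e, e, e]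

/-- strides -/
def str (g e : ℕ) : Fin 5 → ℕ := ![1, g, g * g, g * g * e, g * g * e * e]

def npos (g e : ℕ) : ℕ := g * g * e * e * e

def Rep (w g e : ℕ) (y : Fin 5 → ℝ) (d : Fin 5 → ℕ) (N : ℤ) (f : ℝ) (b : ℕ) : Prop :=
  ∃ G H : MvPolynomial (Fin 5) ℕ,
    N = ((eval (fun j => 2 ^ (w * str g e j)) G : ℕ) : ℤ) -
      ((eval (fun j => 2 ^ (w * str g e j)) H : ℕ) : ℤ) ∧
    f = eval₂ (Nat.castRingHom ℝ) y G - eval₂ (Nat.castRingHom ℝ) y H ∧
    eval (fun _ => 1) G + eval (fun _ => 1) H ≤ b ∧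
    (∀ j, degreeOf j G ≤ d j) ∧ (∀ j, degreeOf j H ≤ d j)

section
variable {w g e : ℕ} {y : Fin 5 → ℝ} {d d' : Fin 5 → ℕ} {N N' : ℤ} {f f' : ℝ} {b b' : ℕ}

theorem Rep.mono (h : Rep w g e y d N f b) (hd : ∀ j, d j ≤ d' j) (hb : b ≤ b') :
    Rep w g e y d' N f b' := by
  obtain ⟨G, H, h1, h2, h3, h4, h5⟩ := h
  exact ⟨G, H, h1, h2, h3.trans hb, fun j => (h4 j).trans (hd j), fun j => (h5 j).trans (hd j)⟩

theorem Rep.const (n : ℤ) : Rep w g e y (fun _ => 0) n n n.natAbs := by
  refine ⟨C n.toNat, C (-n).toNat, ?_, ?_, ?_, ?_, ?_⟩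
  · simp only [eval_C]
    omega
  · have e1 : n = (n.toNat : ℤ) - ((-n).toNat : ℤ) := by omega
    have e2 := congrArg (Int.cast : ℤ → ℝ) e1
    rw [Int.cast_sub, Int.cast_natCast, Int.cast_natCast] at e2
    rw [eval₂_C, eval₂_C]
    exact e2
  · simp only [eval_C]
    omega
  · intro j
    rw [degreeOf_C]
  · intro j
    rw [degreeOf_C]

theorem Rep.var (j : Fin 5) :
    Rep w g e y (fun i => if i = j then 1 else 0) (2 ^ (w * str g e j)) (y j) 1 := by
  refine ⟨X j, 0, ?_, ?_, ?_, ?_, ?_⟩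
  · simp
  · simp
  · simp
  · intro i
    rw [degreeOf_X]
  · intro i
    simp

theorem Rep.add (h : Rep w g e y d N f b) (h' : Rep w g e y d N' f' b') :
    Rep w g e y d (N + N') (f + f') (b + b') := by
  obtain ⟨G, H, h1, h2, h3, h4, h5⟩ := h
  obtain ⟨G', H', h1', h2', h3', h4', h5'⟩ := h'
  refine ⟨G + G', H + H', ?_, ?_, ?_, ?_, ?_⟩
  · rw [h1, h1', eval_add, eval_add]
    push_cast
    ring
  · rw [h2, h2', eval₂_add, eval₂_add]
    ring
  · rw [eval_add, eval_add]
    omega
  · intro j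
    exact (degreeOf_add_le j G G').trans (max_le (h4 j) (h4' j))
  · intro j
    exact (degreeOf_add_le j H H').trans (max_le (h5 j) (h5' j))

theorem Rep.mul (h : Rep w g e y d N f b) (h' : Rep w g e y d' N' f' b') :
    Rep w g e y (fun j => d j + d' j) (N * N') (f * f') (b * b') := by
  obtain ⟨G, H, h1, h2, h3, h4, h5⟩ := h
  obtain ⟨G', H', h1', h2', h3', h4', h5'⟩ := h'
  refine ⟨G * G' + H * H', G * H' + H * G', ?_, ?_, ?_, ?_, ?_⟩
  · rw [h1, h1']
    simp only [eval_add, eval_mul]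
    push_cast
    ring
  · rw [h2, h2']
    simp only [eval₂_add, eval₂_mul]
    ring
  · simp only [eval_add, eval_mul]
    calc _ = (eval (fun _ => 1) G + eval (fun _ => 1) H) *
          (eval (fun _ => 1) G' + eval (fun _ => 1) H') := by ring
      _ ≤ b * b' := Nat.mul_le_mul h3 h3'
  · intro j
    refine (degreeOf_add_le j _ _).trans (max_le ?_ ?_)
    · exact (degreeOf_mul_le j _ _).trans (Nat.add_le_add (h4 j) (h4' j))
    · exact (degreeOf_mul_le j _ _).trans (Nat.add_le_add (h5 j) (h5' j))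
  · intro j
    refine (degreeOf_add_le j _ _).trans (max_le ?_ ?_)
    · exact (degreeOf_mul_le j _ _).trans (Nat.add_le_add (h4 j) (h5' j))
    · exact (degreeOf_mul_le j _ _).trans (Nat.add_le_add (h5 j) (h4' j))

theorem Rep.smul (n : ℤ) (h : Rep w g e y d N f b) : Rep w g e y d (n * N) (n * f) (n.natAbs * b) := by
  refine ((Rep.const n).mul h).mono (fun j => ?_) le_rfl
  simp

theorem Rep.neg (h : Rep w g e y d N f b) : Rep w g e y d (-N) (-f) b := by
  obtain ⟨G, H, h1, h2, h3, h4, h5⟩ := h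
  exact ⟨H, G, by rw [h1]; ring, by rw [h2]; ring, by omega, h5, h4⟩

theorem Rep.sub (h : Rep w g e y d N f b) (h' : Rep w g e y d N' f' b') :
    Rep w g e y d (N - N') (f - f') (b + b') := by
  have := h.add h'.neg
  rwa [← sub_eq_add_neg, ← sub_eq_add_neg] at this

theorem Rep.zero : Rep w g e y d 0 0 0 := by
  have := Rep.const (w := w) (g := g) (e := e) (y := y) 0
  refine Rep.mono (d := fun _ => 0) (b := 0) ?_ (fun j => Nat.zero_le _) le_rfl
  simpa using this

end

/-! ### positions -/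

theorem dg {low s a r hi : ℕ} (h1 : low < s) (h2 : a < r) : (low + s * (a + r * hi)) / s % r = a := by
  rw [Nat.add_mul_div_left _ _ (by omega), Nat.div_eq_of_lt h1, zero_add, Nat.add_mul_mod_self_left,
    Nat.mod_eq_of_lt h2]

theorem lowlt {low s a r : ℕ} (h1 : low < s) (h2 : a < r) : low + s * a < s * r := by
  have := Nat.mul_le_mul_left s (show a + 1 ≤ r from h2)
  rw [Nat.mul_add] at this
  omega

noncomputable def dec (g e i : ℕ) : Fin 5 →₀ ℕ :=
  Finsupp.equivFunOnFinite.symm (fun j => i / str g e j % rad g e j)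

theorem dec_apply (g e i : ℕ) (j : Fin 5) : dec g e i j = i / str g e j % rad g e j := rfl

def posn (g e : ℕ) (α : Fin 5 → ℕ) : ℕ :=
  α 0 + g * α 1 + g * g * α 2 + g * g * e * α 3 + g * g * e * e * α 4

theorem posn_dec {g e i : ℕ} (hi : i < npos g e) : posn g e (dec g e i) = i := by
  have h1 : i % (g * g) = i % g + g * (i / g % g) := Nat.mod_mul
  have h2 : i % (g * g * e) = i % (g * g) + g * g * (i / (g * g) % e) := Nat.mod_mul
  have h3 : i % (g * g * e * e) = i % (g * g * e) + g * g * e * (i / (g * g * e) % e) :=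
    Nat.mod_mul
  have h4 : i % (g * g * e * e * e) = i % (g * g * e * e) +
    g * g * e * e * (i / (g * g * e * e) % e) := Nat.mod_mul
  have h5 : i % (g * g * e * e * e) = i := Nat.mod_eq_of_lt hi
  simp only [posn, dec_apply, str, rad, Matrix.cons_val, Nat.div_one]
  omega

theorem dec_posn {g e : ℕ} {α : Fin 5 →₀ ℕ} (h : ∀ j, α j < rad g e j) :
    posn g e α < npos g e ∧ dec g e (posn g e α) = α := by
  have h0 : α 0 < g := h 0
  have h1 : α 1 < g := h 1
  have h2 : α 2 < e := h 2
  have h3 : α 3 < e := h 3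
  have h4 : α 4 < e := h 4
  have l1 : α 0 < g := h0
  have l2 : α 0 + g * α 1 < g * g := lowlt l1 h1
  have l3 : α 0 + g * α 1 + g * g * α 2 < g * g * e := lowlt l2 h2
  have l4 : α 0 + g * α 1 + g * g * α 2 + g * g * e * α 3 < g * g * e * e := lowlt l3 h3
  have l5 : α 0 + g * α 1 + g * g * α 2 + g * g * e * α 3 + g * g * e * e * α 4 <
    g * g * e * e * e := lowlt l4 h4
  refine ⟨l5, ?_⟩
  ext j
  rw [dec_apply]
  fin_cases j
  · show posn g e α / 1 % g = α 0
    have : posn g e α = 0 + 1 * (α 0 + g * (α 1 + g * α 2 + g * e * α 3 + g * e * e * α 4)) := by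
      unfold posn; ring
    rw [this]
    exact dg Nat.one_pos h0
  · show posn g e α / g % g = α 1
    have : posn g e α = α 0 + g * (α 1 + g * (α 2 + e * α 3 + e * e * α 4)) := by
      unfold posn; ring
    rw [this]
    exact dg l1 h1
  · show posn g e α / (g * g) % e = α 2
    have : posn g e α = (α 0 + g * α 1) + g * g * (α 2 + e * (α 3 + e * α 4)) := by
      unfold posn; ring
    rw [this]
    exact dg l2 h2
  · show posn g e α / (g * g * e) % e = α 3
    have : posn g e α = (α 0 + g * α 1 + g * g * α 2) + g * g * e * (α 3 + e * α 4) := by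
      unfold posn; ring
    rw [this]
    exact dg l3 h3
  · show posn g e α / (g * g * e * e) % e = α 4
    have : posn g e α = (α 0 + g * α 1 + g * g * α 2 + g * g * e * α 3) +
      g * g * e * e * (α 4 + e * 0) := by
      unfold posn; ring
    rw [this]
    exact dg l4 h4

theorem sum_flat {R : Type} [CommSemiring R] (φ : ℕ →+* R) (x : Fin 5 → R) {g e : ℕ}
    {G : MvPolynomial (Fin 5) ℕ} (hG : ∀ j, degreeOf j G < rad g e j) :
    eval₂ φ x G = ∑ i ∈ Finset.range (npos g e), φ (coeff (dec g e i) G) * ∏ j, x j ^ (dec g e i j) := by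
  rw [eval₂_eq']
  have h1 : ∑ i ∈ Finset.range (npos g e), φ (coeff (dec g e i) G) * ∏ j, x j ^ (dec g e i j) =
      ∑ α ∈ (Finset.range (npos g e)).image (dec g e), φ (coeff α G) * ∏ j, x j ^ (α j) := by
    rw [Finset.sum_image]
    intro i hi i' hi' h
    have e1 := posn_dec (Finset.mem_range.1 hi)
    have e2 := posn_dec (Finset.mem_range.1 hi')
    rw [← e1, ← e2]
    rw [h]
  rw [h1]
  refine Finset.sum_subset (fun α hα => ?_) (fun α _ hα => ?_)
  · have h2 : ∀ j, α j < rad g e j := fun j => lt_of_le_of_lt (monomial_le_degreeOf j hα) (hG j)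
    obtain ⟨h3, h4⟩ := dec_posn h2
    exact Finset.mem_image.2 ⟨posn g e α, Finset.mem_range.2 h3, h4⟩
  · rw [notMem_support_iff.1 hα]
    simp

/-- the constants of the reading -/
def Hc (v g e : ℕ) : ℕ := 2 ^ v * pk (v + 1) (npos g e) (fun _ => 1)

/-- **reading of a representation** -/
theorem Rep.read {v g e : ℕ} {y : Fin 5 → ℝ} {d : Fin 5 → ℕ} {N : ℤ} {f : ℝ} {b : ℕ}
    (h : Rep (v + 1) g e y d N f b) (hd : ∀ j, d j < rad g e j) (hb : b < 2 ^ v)
    (hy : ∀ j, |y j| ≤ 1) :
    (rdc v (apN v (Hc v g e) N) : ℝ) - rds v (apN v (Hc v g e) N) N ≤ f ∧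
    |f| ≤ rds v (apN v (Hc v g e) N) N := by
  obtain ⟨G, H, h1, h2, h3, h4, h5⟩ := h
  have hG : ∀ j, degreeOf j G < rad g e j := fun j => lt_of_le_of_lt (h4 j) (hd j)
  have hH : ∀ j, degreeOf j H < rad g e j := fun j => lt_of_le_of_lt (h5 j) (hd j)
  have he : 0 < e := by
    have := hd 2
    exact lt_of_le_of_lt (Nat.zero_le _) this
  have hg : 0 < g := by
    have := hd 0
    exact lt_of_le_of_lt (Nat.zero_le _) this
  have hn : 0 < npos g e := by unfold npos; positivity
  -- the flat coefficients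
  set a : ℕ → ℕ := fun i => if i < npos g e then coeff (dec g e i) G else 0 with ha
  set c : ℕ → ℕ := fun i => if i < npos g e then coeff (dec g e i) H else 0 with hc
  have hK : ∀ i < npos g e, ∏ j : Fin 5, ((2 : ℕ) ^ ((v + 1) * str g e j)) ^ (dec g e i j) =
      2 ^ ((v + 1) * i) := by
    intro i hi
    have e1 : ∀ j : Fin 5, ((2 : ℕ) ^ ((v + 1) * str g e j)) ^ (dec g e i j) =
        2 ^ ((v + 1) * (str g e j * dec g e i j)) := fun j => by
      rw [← pow_mul, Nat.mul_assoc]
    rw [Finset.prod_congr rfl fun j _ => e1 j, Finset.prod_pow_eq_pow_sum, ← Finset.mul_sum]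
    congr 2
    have e2 := posn_dec hi
    rw [Fin.sum_univ_five]
    simp only [posn] at e2
    simp only [str, Matrix.cons_val]
    rw [one_mul]
    exact e2
  have ev : ∀ P : MvPolynomial (Fin 5) ℕ, (∀ j, degreeOf j P < rad g e j) →
      eval (fun j => 2 ^ ((v + 1) * str g e j)) P =
        pk (v + 1) (npos g e) (fun i => if i < npos g e then coeff (dec g e i) P else 0) := by
    intro P hP
    rw [pk_eq_sum]
    have := sum_flat (RingHom.id ℕ) (fun j => 2 ^ ((v + 1) * str g e j)) hP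
    rw [show eval (fun j => 2 ^ ((v + 1) * str g e j)) P =
      eval₂ (RingHom.id ℕ) (fun j => 2 ^ ((v + 1) * str g e j)) P from rfl, this]
    refine Finset.sum_congr rfl fun i hi => ?_
    rw [hK i (Finset.mem_range.1 hi), if_pos (Finset.mem_range.1 hi)]
    rfl
  have ev1 : ∀ P : MvPolynomial (Fin 5) ℕ, (∀ j, degreeOf j P < rad g e j) →
      eval (fun _ => 1) P = ∑ i ∈ Finset.range (npos g e),
        (if i < npos g e then coeff (dec g e i) P else 0) := by
    intro P hP
    have := sum_flat (RingHom.id ℕ) (fun _ => 1) hP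
    rw [show eval (fun _ => 1) P = eval₂ (RingHom.id ℕ) (fun _ => 1) P from rfl, this]
    refine Finset.sum_congr rfl fun i hi => ?_
    rw [if_pos (Finset.mem_range.1 hi)]
    simp
  set μ : ℕ → ℝ := fun i => ∏ j, y j ^ (dec g e i j) with hμ
  have evr : ∀ P : MvPolynomial (Fin 5) ℕ, (∀ j, degreeOf j P < rad g e j) →
      eval₂ (Nat.castRingHom ℝ) y P = ∑ i ∈ Finset.range (npos g e),
        ((if i < npos g e then coeff (dec g e i) P else 0 : ℕ) : ℝ) * μ i := by
    intro P hP
    rw [sum_flat (Nat.castRingHom ℝ) y hP]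
    refine Finset.sum_congr rfl fun i hi => ?_
    rw [if_pos (Finset.mem_range.1 hi)]
    rfl
  refine read_sound (a := a) (b := c) hn ?_ (B := b) ?_ hb ?_ ?_ (μ := μ) ?_ ?_ ?_
  · rw [h1, ev G hG, ev H hH]
  · rw [Finset.sum_add_distrib, ← ev1 G hG, ← ev1 H hH]
    exact h3
  · intro i hi
    simp only [ha]
    rw [if_neg (by omega)]
  · intro i hi
    simp only [hc]
    rw [if_neg (by omega)]
  · intro i
    simp only [hμ]
    rw [Finset.abs_prod]
    refine Finset.prod_le_one (fun j _ => abs_nonneg _) fun j _ => ?_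
    rw [abs_pow]
    exact pow_le_one₀ (abs_nonneg _) (hy j)
  · simp only [hμ]
    refine Finset.prod_eq_one fun j _ => ?_
    rw [dec_apply, Nat.zero_div, Nat.zero_mod, pow_zero]
  · rw [h2, evr G hG, evr H hH, ← Finset.sum_sub_distrib]
    refine Finset.sum_congr rfl fun i _ => ?_
    simp only [ha, hc]
    ring

end Pool.Agent.Helper45.TOP
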