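import Pool.Agent.Helper45.TOP.Leaf
import Pool.Agent.Helper6.TOP.Cov

/-!
# Project TOP: the domain constraints in the local coordinates of a cell

A constraint is `sa (|p|² + 1/4) + da p·u + sb·p + db·u/2 + sc ≤ 0`; for
`A |q|² + B·q + C ≤ 0` with `q = p ± u/2`, `|u| = 1`, it is `(A, ±A, B, ±B, C)`.
`conH` is the polynomial `scale · D · constraint` in the local coordinates
`a 2^(qa+1) = 2i+1 + x₀`, `b 2^(qb+1) = 2j+1 + x₁`, `p_k 2^(m_k) = X_k + 3 x_(k+2)`.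
-/

set_option autoImplicit false

namespace Pool.Agent.Helper45.TOP
open Helper43.FBox Pool.Agent.Helper6.TOP

/-- a constraint -/
structure Cv where
  sa : ℤ
  da : ℤ
  sb0 : ℤ
  sb1 : ℤ
  sb2 : ℤ
  db0 : ℤ
  db1 : ℤ
  db2 : ℤ
  sc : ℤ

noncomputable def Cv.val (v : Cv) (u0 u1 u2 x y z : ℝ) : ℝ :=
  v.sa * (x ^ 2 + y ^ 2 + z ^ 2 + 1 / 4) + v.da * (x * u0 + y * u1 + z * u2) +
    (v.sb0 * x + v.sb1 * y + v.sb2 * z) + (v.db0 * u0 + v.db1 * u1 + v.db2 * u2) / 2 + v.sc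

/-- `A |q|² + B·q + C` at `q = p ± u/2` -/
def Cv.mk2 (s : Bool) (A B0 B1 B2 C : ℤ) : Cv :=
  ⟨A, cond s A (-A), B0, B1, B2, cond s B0 (-B0), cond s B1 (-B1), cond s B2 (-B2), C⟩

theorem Cv.mk2_true (A B0 B1 B2 C : ℤ) {u0 u1 u2 : ℝ} (hu : u0 ^ 2 + u1 ^ 2 + u2 ^ 2 = 1)
    (x y z : ℝ) : (Cv.mk2 true A B0 B1 B2 C).val u0 u1 u2 x y z =
      A * ((x + u0 / 2) ^ 2 + (y + u1 / 2) ^ 2 + (z + u2 / 2) ^ 2) +
        (B0 * (x + u0 / 2) + B1 * (y + u1 / 2) + B2 * (z + u2 / 2)) + C := by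
  simp only [Cv.mk2, Cv.val, cond]
  linear_combination (-(A : ℝ) / 4) * hu

theorem Cv.mk2_false (A B0 B1 B2 C : ℤ) {u0 u1 u2 : ℝ} (hu : u0 ^ 2 + u1 ^ 2 + u2 ^ 2 = 1)
    (x y z : ℝ) : (Cv.mk2 false A B0 B1 B2 C).val u0 u1 u2 x y z =
      A * ((x - u0 / 2) ^ 2 + (y - u1 / 2) ^ 2 + (z - u2 / 2) ^ 2) +
        (B0 * (x - u0 / 2) + B1 * (y - u1 / 2) + B2 * (z - u2 / 2)) + C := by
  simp only [Cv.mk2, Cv.val, cond]
  push_cast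
  linear_combination (-(A : ℝ) / 4) * hu

/-- `v + n w` -/
def Cv.addm (n : ℕ) (w v : Cv) : Cv :=
  ⟨Int.add (Int.mul (Int.ofNat n) w.sa) v.sa, Int.add (Int.mul (Int.ofNat n) w.da) v.da,
    Int.add (Int.mul (Int.ofNat n) w.sb0) v.sb0, Int.add (Int.mul (Int.ofNat n) w.sb1) v.sb1,
    Int.add (Int.mul (Int.ofNat n) w.sb2) v.sb2, Int.add (Int.mul (Int.ofNat n) w.db0) v.db0,
    Int.add (Int.mul (Int.ofNat n) w.db1) v.db1, Int.add (Int.mul (Int.ofNat n) w.db2) v.db2,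
    Int.add (Int.mul (Int.ofNat n) w.sc) v.sc⟩

theorem cast_addm (n : ℕ) (a b : ℤ) :
    ((Int.add (Int.mul (Int.ofNat n) a) b : ℤ) : ℝ) = n * a + b := by
  have : Int.add (Int.mul (Int.ofNat n) a) b = (n : ℤ) * a + b := rfl
  rw [this]
  push_cast
  rfl

theorem Cv.val_addm (n : ℕ) (w v : Cv) (u0 u1 u2 x y z : ℝ) :
    (Cv.addm n w v).val u0 u1 u2 x y z =
      n * w.val u0 u1 u2 x y z + v.val u0 u1 u2 x y z := by
  simp only [Cv.addm, Cv.val, cast_addm]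
  ring

def Cv.zero : Cv := ⟨0, 0, 0, 0, 0, 0, 0, 0, 0⟩

def nthC : List Cv → ℕ → Cv
  | [], _ => Cv.zero
  | p :: _, 0 => p
  | _ :: l, i + 1 => nthC l i

theorem nthC_nonpos {Cs : List Cv} {u0 u1 u2 x y z : ℝ}
    (h : ∀ C ∈ Cs, C.val u0 u1 u2 x y z ≤ 0) : ∀ j : ℕ, (nthC Cs j).val u0 u1 u2 x y z ≤ 0 := by
  induction Cs with
  | nil =>
    intro j
    simp [nthC, Cv.zero, Cv.val]
  | cons C l ih =>
    intro j
    cases j with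
    | zero => exact h C (by simp)
    | succ j => exact ih (fun D hD => h D (by simp [hD])) j

/-- `∑ n C_j` -/
def comb (Cs : List Cv) : List (ℕ × ℕ) → Cv
  | [] => Cv.zero
  | e :: l => Cv.addm e.2 (nthC Cs e.1) (comb Cs l)

theorem comb_nonpos {Cs : List Cv} {u0 u1 u2 x y z : ℝ}
    (h : ∀ C ∈ Cs, C.val u0 u1 u2 x y z ≤ 0) :
    ∀ ls : List (ℕ × ℕ), (comb Cs ls).val u0 u1 u2 x y z ≤ 0
  | [] => by simp [comb, Cv.zero, Cv.val]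
  | e :: l => by
    have h1 := nthC_nonpos h e.1
    have h2 := comb_nonpos h l
    have h3 : (0 : ℝ) ≤ e.2 := Nat.cast_nonneg _
    rw [comb, Cv.val_addm]
    nlinarith

/-- `c + ∑ b_k s_k + ∑ a_k s_k²` -/
def dq (c b0 a0 b1 a1 b2 a2 : ℤ) : H :=
  H.h (H.h (H.h (H.c c) (H.h (H.c b2) (H.c a2))) (H.h (H.c b1) (H.c a1))) (H.h (H.c b0) (H.c a0))

theorem ev_dq (c b0 a0 b1 a1 b2 a2 : ℤ) (x : ℕ → ℝ) : evH (dq c b0 a0 b1 a1 b2 a2) x =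
    c + (b0 * x 0 + a0 * x 0 ^ 2) + (b1 * x 1 + a1 * x 1 ^ 2) + (b2 * x 2 + a2 * x 2 ^ 2) := by
  simp only [dq, evH]
  ring

/-- coefficients of `Q` (diagonal quadratic) and `L0`, `L1`, `L2` (affine) in the local `p` -/
structure Q13 where
  q0 : ℤ
  b0 : ℤ
  a0 : ℤ
  b1 : ℤ
  a1 : ℤ
  b2 : ℤ
  a2 : ℤ
  c0 : ℤ
  d0 : ℤ
  c1 : ℤ
  d1 : ℤ
  c2 : ℤ
  d2 : ℤ

noncomputable def Q13.Q (w : Q13) (s : ℕ → ℝ) : ℝ :=
  w.q0 + (w.b0 * s 0 + w.a0 * s 0 ^ 2) + (w.b1 * s 1 + w.a1 * s 1 ^ 2) +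
    (w.b2 * s 2 + w.a2 * s 2 ^ 2)
noncomputable def Q13.L0 (w : Q13) (s : ℕ → ℝ) : ℝ := w.c0 + w.d0 * s 0
noncomputable def Q13.L1 (w : Q13) (s : ℕ → ℝ) : ℝ := w.c1 + w.d1 * s 1
noncomputable def Q13.L2 (w : Q13) (s : ℕ → ℝ) : ℝ := w.c2 + w.d2 * s 2

/-- the coefficients, scale `4 · 4^(m0+m1+m2)` -/
def pre (v : Cv) (B : PB) : Q13 :=
  let r0 : ℤ := 2 ^ (B.m1 + B.m2)
  let r1 : ℤ := 2 ^ (B.m0 + B.m2)
  let r2 : ℤ := 2 ^ (B.m0 + B.m1)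
  let m : ℤ := 2 ^ (B.m0 + B.m1 + B.m2)
  let x0 := B.X0 * r0
  let x1 := B.X1 * r1
  let x2 := B.X2 * r2
  ⟨4 * v.sa * (x0 * x0 + x1 * x1 + x2 * x2) + 4 * m * (v.sb0 * x0 + v.sb1 * x1 + v.sb2 * x2)
    + m * m * (v.sa + 4 * v.sc),
    24 * v.sa * (x0 * r0) + 12 * m * (v.sb0 * r0), 36 * v.sa * (r0 * r0),
    24 * v.sa * (x1 * r1) + 12 * m * (v.sb1 * r1), 36 * v.sa * (r1 * r1),
    24 * v.sa * (x2 * r2) + 12 * m * (v.sb2 * r2), 36 * v.sa * (r2 * r2),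
    4 * m * (v.da * x0) + 2 * (m * m) * v.db0, 12 * m * (v.da * r0),
    4 * m * (v.da * x1) + 2 * (m * m) * v.db1, 12 * m * (v.da * r1),
    4 * m * (v.da * x2) + 2 * (m * m) * v.db2, 12 * m * (v.da * r2)⟩

theorem pre_Q (v : Cv) (B : PB) {x y z : ℝ} {s : ℕ → ℝ} (hx : x * 2 ^ B.m0 = B.X0 + 3 * s 0)
    (hy : y * 2 ^ B.m1 = B.X1 + 3 * s 1) (hz : z * 2 ^ B.m2 = B.X2 + 3 * s 2) :
    (pre v B).Q s = 4 * (2 ^ (B.m0 + B.m1 + B.m2)) ^ 2 *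
      (v.sa * (x ^ 2 + y ^ 2 + z ^ 2 + 1 / 4) + (v.sb0 * x + v.sb1 * y + v.sb2 * z) + v.sc) := by
  have h0 : (B.X0 : ℝ) = x * 2 ^ B.m0 - 3 * s 0 := by linarith
  have h1 : (B.X1 : ℝ) = y * 2 ^ B.m1 - 3 * s 1 := by linarith
  have h2 : (B.X2 : ℝ) = z * 2 ^ B.m2 - 3 * s 2 := by linarith
  simp only [pre, Q13.Q]
  push_cast
  rw [h0, h1, h2]
  simp only [pow_add]
  ring

theorem pre_L (v : Cv) (B : PB) {x y z : ℝ} {s : ℕ → ℝ} (hx : x * 2 ^ B.m0 = B.X0 + 3 * s 0)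
    (hy : y * 2 ^ B.m1 = B.X1 + 3 * s 1) (hz : z * 2 ^ B.m2 = B.X2 + 3 * s 2) :
    (pre v B).L0 s = 4 * (2 ^ (B.m0 + B.m1 + B.m2)) ^ 2 * (v.da * x + v.db0 / 2) ∧
    (pre v B).L1 s = 4 * (2 ^ (B.m0 + B.m1 + B.m2)) ^ 2 * (v.da * y + v.db1 / 2) ∧
    (pre v B).L2 s = 4 * (2 ^ (B.m0 + B.m1 + B.m2)) ^ 2 * (v.da * z + v.db2 / 2) := by
  have h0 : (B.X0 : ℝ) = x * 2 ^ B.m0 - 3 * s 0 := by linarith
  have h1 : (B.X1 : ℝ) = y * 2 ^ B.m1 - 3 * s 1 := by linarith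
  have h2 : (B.X2 : ℝ) = z * 2 ^ B.m2 - 3 * s 2 := by linarith
  simp only [pre, Q13.L0, Q13.L1, Q13.L2]
  push_cast
  rw [h0, h1, h2]
  simp only [pow_add]
  refine ⟨?_, ?_, ?_⟩ <;> ring

/-- `k1 (Q + L0) + k2 (Q - L0) + k3 L1 + k4 L2` -/
def ff (w : Q13) (k1 k2 k3 k4 : ℤ) : H :=
  dq ((k1 + k2) * w.q0 + (k1 - k2) * w.c0 + k3 * w.c1 + k4 * w.c2)
    ((k1 + k2) * w.b0 + (k1 - k2) * w.d0) ((k1 + k2) * w.a0)
    ((k1 + k2) * w.b1 + k3 * w.d1) ((k1 + k2) * w.a1)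
    ((k1 + k2) * w.b2 + k4 * w.d2) ((k1 + k2) * w.a2)

theorem ev_ff (w : Q13) (k1 k2 k3 k4 : ℤ) (s : ℕ → ℝ) : evH (ff w k1 k2 k3 k4) s =
    k1 * (w.Q s + w.L0 s) + k2 * (w.Q s - w.L0 s) + k3 * w.L1 s + k4 * w.L2 s := by
  simp only [ff, ev_dq, Q13.Q, Q13.L0, Q13.L1, Q13.L2]
  push_cast
  ring

/-- the local polynomial; `A = 2^(qa+1)`, `E = 2^(qb+1)`, `α = 2i+1`, `β = 2j+1` -/
def conW (w : Q13) (A E α β : ℤ) : H :=
  H.h (H.h (ff w (A * A * (E * E)) (α * α * (E * E) + β * β * (A * A)) (2 * α * A * (E * E))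
      (2 * β * E * (A * A)))
    (H.h (ff w 0 (2 * β * (A * A)) 0 (2 * E * (A * A)))
      (H.h (ff w 0 (A * A) 0 0) (H.c 0))))
    (H.h (H.h (ff w 0 (2 * α * (E * E)) (2 * A * (E * E)) 0) (H.c 0))
      (H.h (H.h (ff w 0 (E * E) 0 0) (H.c 0)) (H.c 0)))

theorem ev_conW (w : Q13) (A E α β : ℤ) {a b : ℝ} {t : ℕ → ℝ} (ha : a * A = α + t 0)
    (hb : b * E = β + t 1) : evH (conW w A E α β) t =
      A ^ 2 * E ^ 2 * ((1 + a ^ 2 + b ^ 2) * w.Q (fun i => t (i + 2)) +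
        (1 - a ^ 2 - b ^ 2) * w.L0 (fun i => t (i + 2)) + 2 * a * w.L1 (fun i => t (i + 2)) +
        2 * b * w.L2 (fun i => t (i + 2))) := by
  have h0 : (α : ℝ) = a * A - t 0 := by linarith
  have h1 : (β : ℝ) = b * E - t 1 := by linarith
  simp only [conW, evH, ev_ff]
  generalize w.Q (fun i => t (i + 2)) = Q
  push_cast
  simp only [show ∀ i, (fun i => t (i + 1 + 1)) i = t (i + 2) from fun i => rfl]
  have e1 : (fun i => t (i + 1 + 1)) = fun i => t (i + 2) := rfl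
  rw [h0, h1]
  ring

/-- the local coordinates -/
structure Loc (c : UC) (B : PB) (a b x y z : ℝ) (t : ℕ → ℝ) : Prop where
  ha : a * 2 ^ (c.qa + 1) = 2 * c.i + 1 + t 0
  hb : b * 2 ^ (c.qb + 1) = 2 * c.j + 1 + t 1
  hx : x * 2 ^ B.m0 = B.X0 + 3 * t 2
  hy : y * 2 ^ B.m1 = B.X1 + 3 * t 3
  hz : z * 2 ^ B.m2 = B.X2 + 3 * t 4
  le : ∀ i, |t i| ≤ 1

/-- the local coordinates as a sequence -/
noncomputable def locT (c : UC) (B : PB) (a b x y z : ℝ) : ℕ → ℝ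
  | 0 => a * 2 ^ (c.qa + 1) - (2 * c.i + 1)
  | 1 => b * 2 ^ (c.qb + 1) - (2 * c.j + 1)
  | 2 => (x * 2 ^ B.m0 - B.X0) / 3
  | 3 => (y * 2 ^ B.m1 - B.X1) / 3
  | 4 => (z * 2 ^ B.m2 - B.X2) / 3
  | _ + 5 => 0

theorem exists_loc {c : UC} {B : PB} {a b x y z : ℝ} (h : c.mem a b) (h' : B.mem x y z) :
    ∃ t, Loc c B a b x y z t := by
  obtain ⟨h1, h2, h3, h4⟩ := h
  obtain ⟨⟨h5, h6⟩, ⟨h7, h8⟩, ⟨h9, h10⟩⟩ := h'
  refine ⟨locT c B a b x y z, ?_, ?_, ?_, ?_, ?_, ?_⟩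
  · simp only [locT]; ring
  · simp only [locT]; ring
  · simp only [locT]; ring
  · simp only [locT]; ring
  · simp only [locT]; ring
  · intro i
    match i with
    | 0 =>
      show |a * 2 ^ (c.qa + 1) - (2 * c.i + 1)| ≤ 1
      rw [pow_succ, abs_le]
      constructor <;> linarith
    | 1 =>
      show |b * 2 ^ (c.qb + 1) - (2 * c.j + 1)| ≤ 1
      rw [pow_succ, abs_le]
      constructor <;> linarith
    | 2 =>
      show |(x * 2 ^ B.m0 - B.X0) / 3| ≤ 1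
      rw [abs_le]
      constructor <;> linarith
    | 3 =>
      show |(y * 2 ^ B.m1 - B.X1) / 3| ≤ 1
      rw [abs_le]
      constructor <;> linarith
    | 4 =>
      show |(z * 2 ^ B.m2 - B.X2) / 3| ≤ 1
      rw [abs_le]
      constructor <;> linarith
    | _ + 5 => simp [locT]

/-- the constraint polynomial of a cell and a box -/
def conH (v : Cv) (c : UC) (B : PB) : H :=
  conW (pre v B) (2 ^ (c.qa + 1)) (2 ^ (c.qb + 1)) (2 * c.i + 1) (2 * c.j + 1)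

/-- the scale -/
noncomputable def scl (c : UC) (B : PB) : ℝ :=
  (2 ^ (c.qa + 1)) ^ 2 * (2 ^ (c.qb + 1)) ^ 2 * (4 * (2 ^ (B.m0 + B.m1 + B.m2)) ^ 2)

theorem scl_pos (c : UC) (B : PB) : 0 < scl c B := by unfold scl; positivity

theorem ev_conH (v : Cv) {c : UC} {B : PB} {a b x y z : ℝ} {t : ℕ → ℝ}
    (h : Loc c B a b x y z t) : evH (conH v c B) t =
      scl c B * (chD a b * v.val (ch0 a b) (ch1 a b) (ch2 a b) x y z) := by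
  have hD := (chD_pos a b).ne'
  have e0 : chD a b * ch0 a b = 1 - a ^ 2 - b ^ 2 := by unfold ch0; field_simp
  have e1 : chD a b * ch1 a b = 2 * a := by unfold ch1; field_simp
  have e2 : chD a b * ch2 a b = 2 * b := by unfold ch2; field_simp
  have hQ := pre_Q v B (s := fun i => t (i + 2)) h.hx h.hy h.hz
  obtain ⟨hL0, hL1, hL2⟩ := pre_L v B (s := fun i => t (i + 2)) h.hx h.hy h.hz
  unfold conH
  rw [ev_conW (a := a) (b := b) (pre v B) _ _ _ _ (by push_cast; exact h.ha)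
    (by push_cast; exact h.hb), hQ, hL0, hL1, hL2]
  unfold scl Cv.val
  push_cast
  have eD : 1 + a ^ 2 + b ^ 2 = chD a b := rfl
  rw [eD, ← e0, ← e1, ← e2]
  ring

/-- **leaf with domain constraints**: `κ P + D ∑ λ g` -/
def leafOK (Cs : List Cv) (c : UC) (B : PB) (P : H) (err κ : ℕ) (ls : List (ℕ × ℕ))
    (sq : List (ℕ × ℤ × List ℤ)) : Bool :=
  rowOK P err [conH (comb Cs ls) c B] κ [(0, 1)] sq

theorem leafOK_row {Cs : List Cv} {c : UC} {B : PB} {P : H} {err κ : ℕ} {ls : List (ℕ × ℕ)}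
    {sq : List (ℕ × ℤ × List ℤ)} (h : leafOK Cs c B P err κ ls sq = true) {a b x y z : ℝ}
    {t : ℕ → ℝ} (ht : Loc c B a b x y z t) : (κ : ℝ) * err + 1 ≤ κ * evH P t +
      scl c B * (chD a b * (comb Cs ls).val (ch0 a b) (ch1 a b) (ch2 a b) x y z) := by
  have := row_sound h ht.le
  simpa [lamv, nthH, ev_conH _ ht] using this

/-- **soundness of the leaf** -/
theorem leafOK_sound {Cs : List Cv} {c : UC} {B : PB} {P : H} {err κ : ℕ} {ls : List (ℕ × ℕ)}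
    {sq : List (ℕ × ℤ × List ℤ)} (h : leafOK Cs c B P err κ ls sq = true) {a b x y z : ℝ}
    {t : ℕ → ℝ} (ht : Loc c B a b x y z t)
    (hC : ∀ C ∈ Cs, C.val (ch0 a b) (ch1 a b) (ch2 a b) x y z ≤ 0) : (err : ℝ) < evH P t := by
  have h1 := leafOK_row h ht
  have h2 := comb_nonpos hC ls
  have h3 := mul_nonneg (scl_pos c B).le (mul_nonneg (chD_pos a b).le (neg_nonneg.2 h2))
  have h4 : (0 : ℝ) ≤ κ := Nat.cast_nonneg _
  by_contra hc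
  have h5 := mul_nonneg h4 (neg_nonneg.2 (sub_nonpos.2 (not_lt.1 hc)))
  nlinarith

end Pool.Agent.Helper45.TOP
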