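import Mathlib

/-!
# Project TOP: Kronecker substitution, reading of the digits

`pk w n a = ∑_{i<n} a i 2^(w i)`.  For an integer `N = ∑ q_i 2^(w i)` with `∑ |q_i| < 2^(w-1)`,
`apN` computes `∑ q_i⁺ 2^(w i)`; `rdc` = twice the positive part of `q_0`, `rds = ∑ |q_i|`.
-/

set_option autoImplicit false

namespace Pool.Agent.Helper45.TOP

def pk (w : ℕ) : ℕ → (ℕ → ℕ) → ℕ
  | 0, _ => 0
  | n + 1, a => a 0 + 2 ^ w * pk w n (fun i => a (i + 1))

theorem pk_congr {w : ℕ} : ∀ {n : ℕ} {a b : ℕ → ℕ}, (∀ i, a i = b i) → pk w n a = pk w n b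
  | 0, _, _, _ => rfl
  | n + 1, a, b, h => by
    rw [pk, pk, h 0, pk_congr (n := n) fun i => h (i + 1)]

theorem pk_add (w : ℕ) : ∀ (n : ℕ) (a b : ℕ → ℕ),
    pk w n (fun i => a i + b i) = pk w n a + pk w n b
  | 0, _, _ => rfl
  | n + 1, a, b => by
    rw [pk, pk, pk, pk_add w n]
    ring

theorem pk_mul (w c : ℕ) : ∀ (n : ℕ) (a : ℕ → ℕ), pk w n (fun i => c * a i) = c * pk w n a
  | 0, _ => rfl
  | n + 1, a => by
    rw [pk, pk, pk_mul w c n]
    ring

theorem pk_eq_sum (w : ℕ) : ∀ (n : ℕ) (a : ℕ → ℕ),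
    pk w n a = ∑ i ∈ Finset.range n, a i * 2 ^ (w * i)
  | 0, _ => rfl
  | n + 1, a => by
    rw [pk, pk_eq_sum w n, Finset.sum_range_succ', Finset.mul_sum, Nat.mul_zero, pow_zero, mul_one,
      add_comm]
    congr 1
    refine Finset.sum_congr rfl fun i _ => ?_
    rw [Nat.mul_add, pow_add, Nat.mul_one]
    ring

theorem pk_land {w : ℕ} : ∀ {n : ℕ} {a b : ℕ → ℕ}, (∀ i, a i < 2 ^ w) → (∀ i, b i < 2 ^ w) →
    pk w n a &&& pk w n b = pk w n (fun i => a i &&& b i)
  | 0, _, _, _, _ => by simp [pk]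
  | n + 1, a, b, ha, hb => by
    have ih := pk_land (n := n) (fun i => ha (i + 1)) (fun i => hb (i + 1))
    rw [pk, pk, pk, ← ih]
    apply Nat.eq_of_testBit_eq
    intro k
    have h0 : a 0 &&& b 0 < 2 ^ w := lt_of_le_of_lt Nat.and_le_left (ha 0)
    rw [Nat.testBit_and, add_comm (a 0), add_comm (b 0), add_comm (a 0 &&& b 0),
      Nat.testBit_two_pow_mul_add _ (ha 0), Nat.testBit_two_pow_mul_add _ (hb 0),
      Nat.testBit_two_pow_mul_add _ h0]
    split
    · rw [Nat.testBit_and]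
    · rw [Nat.testBit_and]

theorem pk_mod {w n : ℕ} {a : ℕ → ℕ} (hn : 0 < n) (ha : a 0 < 2 ^ w) :
    pk w n a % 2 ^ w = a 0 := by
  obtain ⟨m, rfl⟩ : ∃ m, n = m + 1 := ⟨n - 1, by omega⟩
  rw [pk, Nat.add_mul_mod_self_left, Nat.mod_eq_of_lt ha]

theorem pk_modEq {w : ℕ} : ∀ (n : ℕ) (a : ℕ → ℕ),
    pk w n a ≡ ∑ i ∈ Finset.range n, a i [MOD 2 ^ w - 1]
  | 0, _ => rfl
  | n + 1, a => by
    have ih := pk_modEq (w := w) n (fun i => a (i + 1))
    rw [pk, Finset.sum_range_succ', add_comm]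
    refine Nat.ModEq.add ?_ rfl
    have h1 : 2 ^ w ≡ 1 [MOD 2 ^ w - 1] := by
      have : 1 ≤ 2 ^ w := Nat.one_le_two_pow
      exact ((Nat.modEq_iff_dvd' this).2 dvd_rfl).symm
    calc 2 ^ w * pk w n (fun i => a (i + 1)) ≡ 1 * pk w n (fun i => a (i + 1)) [MOD 2 ^ w - 1] :=
          h1.mul_right _
      _ = pk w n (fun i => a (i + 1)) := one_mul _
      _ ≡ _ [MOD 2 ^ w - 1] := ih

theorem pk_sum {w n : ℕ} {a : ℕ → ℕ} (h : ∑ i ∈ Finset.range n, a i < 2 ^ w - 1) :
    pk w n a % (2 ^ w - 1) = ∑ i ∈ Finset.range n, a i := by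
  have := pk_modEq (w := w) n a
  rw [Nat.ModEq, Nat.mod_eq_of_lt h] at this
  exact this

/-- positive digits; `H = 2^v (1 + X + .. + X^(n-1))`, `X = 2^(v+1)` -/
def apN (v H : ℕ) (N : ℤ) : ℕ :=
  (fun D => (fun E => Nat.land D (Nat.sub E (Nat.shiftRight E v))) (Nat.land D H))
    (Int.toNat (Int.add N (Int.ofNat H)))

theorem dig_aux (v x : ℕ) (hx : x < 2 ^ (v + 1)) :
    x &&& 2 ^ v = if 2 ^ v ≤ x then 2 ^ v else 0 := by
  rw [Nat.and_two_pow]
  split
  · rename_i h
    have h1 : x = 2 ^ v + (x - 2 ^ v) := by omega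
    have h2 : (x - 2 ^ v).testBit v = false := Nat.testBit_lt_two_pow (by rw [pow_succ] at hx; omega)
    have h3 : x.testBit v = true := by
      rw [h1, Nat.testBit_two_pow_add_eq, h2]
      rfl
    rw [h3]
    simp
  · rename_i h
    have h3 : x.testBit v = false := Nat.testBit_lt_two_pow (by omega)
    rw [h3]
    simp

theorem apN_eq {v n : ℕ} {a b : ℕ → ℕ} (ha : ∀ i, a i < 2 ^ v) (hb : ∀ i, b i < 2 ^ v) {N : ℤ}
    (hN : N = (pk (v + 1) n a : ℤ) - pk (v + 1) n b) :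
    apN v (2 ^ v * pk (v + 1) n (fun _ => 1)) N = pk (v + 1) n (fun i => a i - b i) := by
  have hD : Int.toNat (Int.add N (Int.ofNat (2 ^ v * pk (v + 1) n (fun _ => 1)))) =
      pk (v + 1) n (fun i => a i + 2 ^ v - b i) := by
    have h1 : pk (v + 1) n (fun i => a i + 2 ^ v - b i) + pk (v + 1) n b =
        pk (v + 1) n a + 2 ^ v * pk (v + 1) n (fun _ => 1) := by
      rw [← pk_mul, ← pk_add, ← pk_add]
      refine pk_congr fun i => ?_
      have := hb i
      omega
    have h2 : Int.add N (Int.ofNat (2 ^ v * pk (v + 1) n (fun _ => 1))) =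
        ((pk (v + 1) n (fun i => a i + 2 ^ v - b i) : ℕ) : ℤ) := by
      show N + ((2 ^ v * pk (v + 1) n (fun _ => 1) : ℕ) : ℤ) = _
      have h3 : ((pk (v + 1) n (fun i => a i + 2 ^ v - b i) : ℕ) : ℤ) + (pk (v + 1) n b : ℕ) =
        (pk (v + 1) n a : ℕ) + ((2 ^ v * pk (v + 1) n (fun _ => 1) : ℕ) : ℤ) := by exact_mod_cast h1
      rw [hN]
      linarith
    rw [h2, Int.toNat_natCast]
  have h2v : (2 : ℕ) ^ (v + 1) = 2 ^ v + 2 ^ v := by rw [pow_succ]; ring
  have hd : ∀ i, a i + 2 ^ v - b i < 2 ^ (v + 1) := fun i => by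
    have := ha i
    omega
  have hE : Nat.land (pk (v + 1) n (fun i => a i + 2 ^ v - b i))
      (2 ^ v * pk (v + 1) n (fun _ => 1)) =
      pk (v + 1) n (fun i => if b i ≤ a i then 2 ^ v else 0) := by
    rw [← pk_mul]
    show (_ : ℕ) &&& _ = _
    rw [pk_land hd (fun i => by rw [h2v]; have : 0 < 2 ^ v := by positivity
                                omega)]
    refine pk_congr fun i => ?_
    rw [mul_one, dig_aux v _ (hd i)]
    have := hb i
    split_ifs <;> first | rfl | omega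
  have hF : Nat.sub (pk (v + 1) n (fun i => if b i ≤ a i then 2 ^ v else 0))
      (Nat.shiftRight (pk (v + 1) n (fun i => if b i ≤ a i then 2 ^ v else 0)) v) =
      pk (v + 1) n (fun i => if b i ≤ a i then 2 ^ v - 1 else 0) := by
    have e1 : pk (v + 1) n (fun i => if b i ≤ a i then 2 ^ v else 0) =
        2 ^ v * pk (v + 1) n (fun i => if b i ≤ a i then 1 else 0) := by
      rw [← pk_mul]
      refine pk_congr fun i => ?_
      split_ifs <;> simp
    have e2 : Nat.shiftRight (pk (v + 1) n (fun i => if b i ≤ a i then 2 ^ v else 0)) v =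
        pk (v + 1) n (fun i => if b i ≤ a i then 1 else 0) := by
      rw [e1]
      show (2 ^ v * _) >>> v = _
      rw [Nat.shiftRight_eq_div_pow, Nat.mul_div_cancel_left _ (by positivity)]
    rw [e2]
    have e3 : pk (v + 1) n (fun i => if b i ≤ a i then 2 ^ v - 1 else 0) +
        pk (v + 1) n (fun i => if b i ≤ a i then 1 else 0) =
        pk (v + 1) n (fun i => if b i ≤ a i then 2 ^ v else 0) := by
      rw [← pk_add]
      refine pk_congr fun i => ?_
      have : 0 < 2 ^ v := by positivity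
      split_ifs <;> omega
    show (_ : ℕ) - _ = _
    omega
  show Nat.land (Int.toNat (Int.add N (Int.ofNat (2 ^ v * pk (v + 1) n (fun _ => 1))))) _ = _
  rw [hD]
  show Nat.land _ (Nat.sub (Nat.land _ (2 ^ v * pk (v + 1) n (fun _ => 1)))
    (Nat.shiftRight (Nat.land _ (2 ^ v * pk (v + 1) n (fun _ => 1))) v)) = _
  rw [hE, hF]
  show (_ : ℕ) &&& _ = _
  rw [pk_land hd (fun i => by have : 0 < 2 ^ v := by positivity
                              split_ifs <;> omega)]
  refine pk_congr fun i => ?_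
  have h1 := ha i
  have h2 := hb i
  split
  · rename_i h
    rw [Nat.and_two_pow_sub_one_eq_mod]
    have e1 : a i + 2 ^ v - b i = (a i - b i) + 2 ^ v := by omega
    rw [e1, Nat.add_mod_right, Nat.mod_eq_of_lt (by omega)]
  · rename_i h
    rw [Nat.and_zero]
    omega

/-- the negative digits -/
def amN (A : ℕ) (N : ℤ) : ℕ := Int.toNat (Int.sub (Int.ofNat A) N)

theorem amN_eq {v n : ℕ} {a b : ℕ → ℕ} {N : ℤ}
    (hN : N = (pk (v + 1) n a : ℤ) - pk (v + 1) n b) :
    amN (pk (v + 1) n (fun i => a i - b i)) N = pk (v + 1) n (fun i => b i - a i) := by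
  have h1 : pk (v + 1) n (fun i => a i - b i) + pk (v + 1) n b =
      pk (v + 1) n a + pk (v + 1) n (fun i => b i - a i) := by
    rw [← pk_add, ← pk_add]
    refine pk_congr fun i => ?_
    omega
  have h2 : Int.sub (Int.ofNat (pk (v + 1) n (fun i => a i - b i))) N =
      ((pk (v + 1) n (fun i => b i - a i) : ℕ) : ℤ) := by
    show ((pk (v + 1) n (fun i => a i - b i) : ℕ) : ℤ) - N = _
    have h3 : ((pk (v + 1) n (fun i => a i - b i) : ℕ) : ℤ) + (pk (v + 1) n b : ℕ) =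
      (pk (v + 1) n a : ℕ) + ((pk (v + 1) n (fun i => b i - a i) : ℕ) : ℤ) := by exact_mod_cast h1
    rw [hN]
    linarith
  unfold amN
  rw [h2, Int.toNat_natCast]

/-- twice the constant coefficient (positive part), from the positive digits -/
def rdc (v A : ℕ) : ℕ := Nat.mul 2 (Nat.mod A (Nat.pow 2 (Nat.succ v)))

/-- sum of the absolute values of the digits -/
def rds (v A : ℕ) (N : ℤ) : ℕ := Nat.mod (Nat.add A (amN A N)) (Nat.sub (Nat.pow 2 (Nat.succ v)) 1)

/-- **reading** -/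
theorem read_sound {v n : ℕ} (hn : 0 < n) {a b : ℕ → ℕ} {N : ℤ}
    (hN : N = (pk (v + 1) n a : ℤ) - pk (v + 1) n b) {B : ℕ}
    (hB : ∑ i ∈ Finset.range n, (a i + b i) ≤ B) (hBv : B < 2 ^ v) (ha0 : ∀ i, n ≤ i → a i = 0)
    (hb0 : ∀ i, n ≤ i → b i = 0) {μ : ℕ → ℝ} (hμ : ∀ i, |μ i| ≤ 1) (hμ0 : μ 0 = 1) {f : ℝ}
    (hf : f = ∑ i ∈ Finset.range n, ((a i : ℝ) - b i) * μ i) :
    (rdc v (apN v (2 ^ v * pk (v + 1) n (fun _ => 1)) N) : ℝ) -
      rds v (apN v (2 ^ v * pk (v + 1) n (fun _ => 1)) N) N ≤ f ∧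
    |f| ≤ rds v (apN v (2 ^ v * pk (v + 1) n (fun _ => 1)) N) N := by
  have hle : ∀ i, a i + b i ≤ B := fun i => by
    by_cases hi : i < n
    · exact (Finset.single_le_sum (f := fun i => a i + b i) (fun _ _ => Nat.zero_le _)
        (Finset.mem_range.2 hi)).trans hB
    · rw [ha0 i (by omega), hb0 i (by omega)]
      exact Nat.zero_le _
  have ha : ∀ i, a i < 2 ^ v := fun i => by have := hle i; omega
  have hb : ∀ i, b i < 2 ^ v := fun i => by have := hle i; omega
  rw [apN_eq ha hb hN]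
  have h2v : (2 : ℕ) ^ (v + 1) = 2 ^ v + 2 ^ v := by rw [pow_succ]; ring
  have hsum : ∑ i ∈ Finset.range n, ((a i - b i) + (b i - a i)) ≤ B :=
    (Finset.sum_le_sum fun i _ => by omega).trans hB
  have e1 : rdc v (pk (v + 1) n (fun i => a i - b i)) = 2 * (a 0 - b 0) := by
    show 2 * (pk (v + 1) n (fun i => a i - b i) % 2 ^ (v + 1)) = _
    rw [pk_mod hn (by have := ha 0; omega)]
  have e2 : rds v (pk (v + 1) n (fun i => a i - b i)) N =
      ∑ i ∈ Finset.range n, ((a i - b i) + (b i - a i)) := by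
    show (pk (v + 1) n (fun i => a i - b i) + amN (pk (v + 1) n (fun i => a i - b i)) N) %
      (2 ^ (v + 1) - 1) = _
    rw [amN_eq hN, ← pk_add, pk_sum]
    omega
  rw [e1, e2]
  have hab : ∀ i, |(a i : ℝ) - b i| = ((a i - b i + (b i - a i) : ℕ) : ℝ) := fun i => by
    rcases le_total (a i) (b i) with h | h
    · rw [abs_of_nonpos (by have : (a i : ℝ) ≤ b i := by exact_mod_cast h
                            linarith), Nat.sub_eq_zero_of_le h, zero_add, Nat.cast_sub h]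
      ring
    · rw [abs_of_nonneg (by have : (b i : ℝ) ≤ a i := by exact_mod_cast h
                            linarith), Nat.sub_eq_zero_of_le h, add_zero, Nat.cast_sub h]
  constructor
  · obtain ⟨m, rfl⟩ : ∃ m, n = m + 1 := ⟨n - 1, by omega⟩
    rw [hf, Finset.sum_range_succ', Finset.sum_range_succ', hμ0, mul_one]
    have h1 : -(∑ i ∈ Finset.range m, ((a (i + 1) - b (i + 1) + (b (i + 1) - a (i + 1)) : ℕ) : ℝ)) ≤
        ∑ i ∈ Finset.range m, ((a (i + 1) : ℝ) - b (i + 1)) * μ (i + 1) := by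
      rw [← Finset.sum_neg_distrib]
      refine Finset.sum_le_sum fun i _ => ?_
      rw [← hab (i + 1)]
      have h3 := hμ (i + 1)
      have h4 : |((a (i + 1) : ℝ) - b (i + 1)) * μ (i + 1)| ≤ |(a (i + 1) : ℝ) - b (i + 1)| := by
        rw [abs_mul]
        exact mul_le_of_le_one_right (abs_nonneg _) h3
      exact neg_le_of_abs_le h4 |>.trans le_rfl |> fun h => by linarith [neg_le_of_abs_le h4]
    have h2 : (2 * (a 0 - b 0) : ℕ) - ((a 0 - b 0 + (b 0 - a 0) : ℕ) : ℝ) ≤ (a 0 : ℝ) - b 0 := by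
      rcases le_total (a 0) (b 0) with h | h
      · rw [Nat.sub_eq_zero_of_le h]
        push_cast [Nat.cast_sub h]
        linarith
      · rw [Nat.sub_eq_zero_of_le h]
        push_cast [Nat.cast_sub h]
        linarith
    push_cast at h1 h2 ⊢
    linarith
  · rw [hf]
    refine (Finset.abs_sum_le_sum_abs _ _).trans ?_
    push_cast
    refine Finset.sum_le_sum fun i _ => ?_
    have := hab i
    push_cast at this
    rw [abs_mul, this]
    rw [← this]
    exact mul_le_of_le_one_right (abs_nonneg _) (hμ i)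

end Pool.Agent.Helper45.TOP
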