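import Mathlib

/-!
# Project TOP: integer operations that are fast in the kernel
-/

set_option autoImplicit false

namespace Pool.Agent.Helper45.TOP

/-- `m - n` -/
noncomputable def sN (m n : ℕ) : ℤ :=
  Nat.rec (motive := fun _ => ℤ) (Int.ofNat (Nat.sub m n)) (fun k _ => Int.negSucc k) (Nat.sub n m)

theorem sN_eq (m n : ℕ) : sN m n = (m : ℤ) - n := by
  unfold sN
  rcases h : Nat.sub n m with _ | k
  · have h1 : n - m = 0 := h
    show ((m - n : ℕ) : ℤ) = _
    omega
  · have h1 : n - m = k + 1 := h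
    show Int.negSucc k = _
    omega

/-- sum -/
noncomputable def aZ (a b : ℤ) : ℤ :=
  Int.rec (motive := fun _ => ℤ)
    (fun m => Int.rec (motive := fun _ => ℤ) (fun n => Int.ofNat (Nat.add m n))
      (fun n => sN m (Nat.succ n)) b)
    (fun m => Int.rec (motive := fun _ => ℤ) (fun n => sN n (Nat.succ m))
      (fun n => Int.negSucc (Nat.succ (Nat.add m n))) b) a

theorem aZ_eq (a b : ℤ) : aZ a b = Int.add a b := by
  show _ = a + b
  cases a with
  | ofNat m =>
    cases b with
    | ofNat n => rfl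
    | negSucc n =>
      show sN m (n + 1) = (m : ℤ) + Int.negSucc n
      rw [sN_eq]; omega
  | negSucc m =>
    cases b with
    | ofNat n =>
      show sN n (m + 1) = Int.negSucc m + (n : ℤ)
      rw [sN_eq]; omega
    | negSucc n =>
      show Int.negSucc (m + n + 1) = _
      omega

/-- negative -/
noncomputable def nN (m : ℕ) : ℤ :=
  Nat.rec (motive := fun _ => ℤ) (Int.ofNat 0) (fun k _ => Int.negSucc k) m

theorem nN_eq (m : ℕ) : nN m = -(m : ℤ) := by
  cases m with
  | zero => rfl
  | succ k =>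
    show Int.negSucc k = _
    omega

/-- product -/
noncomputable def mZ (a b : ℤ) : ℤ :=
  Int.rec (motive := fun _ => ℤ)
    (fun m => Int.rec (motive := fun _ => ℤ) (fun n => Int.ofNat (Nat.mul m n))
      (fun n => nN (Nat.mul m (Nat.succ n))) b)
    (fun m => Int.rec (motive := fun _ => ℤ) (fun n => nN (Nat.mul (Nat.succ m) n))
      (fun n => Int.ofNat (Nat.mul (Nat.succ m) (Nat.succ n))) b) a

theorem mZ_eq (a b : ℤ) : mZ a b = Int.mul a b := by
  show _ = a * b
  cases a with
  | ofNat m =>
    cases b with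
    | ofNat n => rfl
    | negSucc n =>
      show nN (m * (n + 1)) = (m : ℤ) * Int.negSucc n
      rw [nN_eq, Int.negSucc_eq]; push_cast; ring
  | negSucc m =>
    cases b with
    | ofNat n =>
      show nN ((m + 1) * n) = Int.negSucc m * (n : ℤ)
      rw [nN_eq, Int.negSucc_eq]; push_cast; ring
    | negSucc n =>
      show (((m + 1) * (n + 1) : ℕ) : ℤ) = _
      rw [Int.negSucc_eq, Int.negSucc_eq]; push_cast; ring

/-- difference -/
noncomputable def dZ (a b : ℤ) : ℤ :=
  Int.rec (motive := fun _ => ℤ)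
    (fun m => Int.rec (motive := fun _ => ℤ) (fun n => sN m n)
      (fun n => Int.ofNat (Nat.add m (Nat.succ n))) b)
    (fun m => Int.rec (motive := fun _ => ℤ) (fun n => Int.negSucc (Nat.add m n))
      (fun n => sN (Nat.succ n) (Nat.succ m)) b) a

theorem dZ_eq (a b : ℤ) : dZ a b = Int.sub a b := by
  show _ = a - b
  cases a with
  | ofNat m =>
    cases b with
    | ofNat n => exact sN_eq m n
    | negSucc n =>
      show ((m + (n + 1) : ℕ) : ℤ) = (m : ℤ) - Int.negSucc n
      omega
  | negSucc m =>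
    cases b with
    | ofNat n =>
      show Int.negSucc (m + n) = Int.negSucc m - (n : ℤ)
      omega
    | negSucc n =>
      show sN (n + 1) (m + 1) = _
      rw [sN_eq]; omega

/-- shift -/
noncomputable def hZ (s : ℕ) (a : ℤ) : ℤ :=
  Int.rec (motive := fun _ => ℤ) (fun m => Int.ofNat (Nat.shiftLeft m s))
    (fun m => nN (Nat.shiftLeft (Nat.succ m) s)) a

theorem hZ_eq (s : ℕ) (z : ℤ) : hZ s z = 2 ^ s * z := by
  cases z with
  | ofNat n =>
    show ((n <<< s : ℕ) : ℤ) = 2 ^ s * (n : ℤ)
    rw [Nat.shiftLeft_eq]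
    push_cast
    ring
  | negSucc n =>
    show nN ((n + 1) <<< s) = 2 ^ s * Int.negSucc n
    rw [nN_eq, Nat.shiftLeft_eq, Int.negSucc_eq]
    push_cast
    ring

end Pool.Agent.Helper45.TOP
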