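import Pool.Agent.Helper45.TOP.KrLeaf
import Pool.Agent.Helper45.TOP.KrInt

/-!
# Project TOP: the same functions, fast in the kernel
-/

set_option autoImplicit false

namespace Pool.Agent.Helper45.TOP
open Helper10.PC

theorem hZ_shI (s : ℕ) (z : ℤ) : hZ s z = shI s z := by rw [hZ_eq, shI_eq]

/-! ### forms -/

noncomputable def quadF (L : Lay) (n : ℕ) : ℤ :=
  (fun x y => sN
    (Nat.shiftRight (Nat.add (Nat.land x L.KA) (Nat.land y L.KB)) 240)
    (Nat.shiftRight (Nat.add (Nat.land x L.SA) (Nat.land y L.SB)) 239))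
    (Nat.mul n L.MA) (Nat.mul n L.MB)

noncomputable def affF (L : Lay) (n : ℕ) : ℤ :=
  (fun x => sN (Nat.land x L.KF) (Nat.shiftLeft (Nat.land x L.SF) 1)) (Nat.mul n L.MF)

theorem quadF_eq (L : Lay) (n : ℕ) : quadF L n = quadL L n := sN_eq _ _

theorem affF_eq (L : Lay) (n : ℕ) : affF L n = affL L n := by
  unfold affF
  dsimp only
  rw [sN_eq]
  have : Nat.shiftLeft (Nat.land (Nat.mul n L.MF) L.SF) 1 =
      Nat.mul 2 (Nat.land (Nat.mul n L.MF) L.SF) := by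
    show (Nat.land (Nat.mul n L.MF) L.SF) <<< 1 = 2 * (Nat.land (Nat.mul n L.MF) L.SF)
    rw [Nat.shiftLeft_eq]; ring
  rw [this]
  rfl

noncomputable def frmF (L : Lay) (n : ℕ) : ℤ :=
  Bool.rec (motive := fun _ => ℤ) (quadF L n) (affF L (Nat.mod n M72)) (Nat.ble M252 n)

theorem frmF_eq : frmF = frm := by
  funext L n
  unfold frmF frm
  rw [quadF_eq, affF_eq]

/-! ### squares -/

noncomputable def sqAF (L : Lay) (K : ℕ → ℤ → ℤ → ℤ → Bool) (cnt : ℕ) : ℕ → ℤ → ℤ → ℤ → Bool :=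
  Nat.rec (motive := fun _ => ℕ → ℤ → ℤ → ℤ → Bool) K
    (fun _ ih n A B D => rdForm (Nat.shiftRight n 24) fun ca n2 => rdForm n2 fun cb n3 =>
      (fun a c => (fun wa wc => ih n3 (aZ A (mZ wa a)) (aZ B (mZ wa c))
        (aZ D (mZ wc c))) (mZ (Int.ofNat (rdw n)) a) (mZ (Int.ofNat (rdw n)) c))
        (frmF L ca) (frmF L cb)) cnt

theorem sqAF_eq : sqAF = sqA := by
  funext L K cnt
  unfold sqAF sqA
  simp only [aZ_eq, mZ_eq, frmF_eq]

noncomputable def sqSF (L : Lay) (K : ℕ → ℤ → Bool) (cnt : ℕ) : ℕ → ℤ → Bool :=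
  Nat.rec (motive := fun _ => ℕ → ℤ → Bool) K
    (fun _ ih n A => rdForm (Nat.shiftRight n 24) fun ca n2 =>
      (fun a => ih n2 (aZ A (mZ (mZ (Int.ofNat (rdw n)) a) a)))
        (frmF L ca)) cnt

theorem sqSF_eq : sqSF = sqS := by
  funext L K cnt
  unfold sqSF sqS
  simp only [aZ_eq, mZ_eq, frmF_eq]

noncomputable def phF (s : ℕ) (z : ℤ) : ℤ := dZ z (hZ s z)

theorem phF_eq : phF = phI := by
  funext s z
  unfold phF phI
  rw [dZ_eq, hZ_shI]

noncomputable def sqBF (L : Lay) (w g e : ℕ) (K : ℕ → ℤ → ℤ → ℤ → Bool) (cnt : ℕ) :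
    ℕ → ℤ → ℤ → ℤ → Bool :=
  Nat.rec (motive := fun _ => ℕ → ℤ → ℤ → ℤ → Bool) K
    (fun _ ih n A B D => (fun s w0 n1 =>
      (fun a c => (fun wa wc => ih (Nat.shiftRight n1 168) (aZ A (phF s (mZ wa a)))
        (aZ B (phF s (mZ wa c))) (aZ D (phF s (mZ wc c))))
        (mZ (Int.ofNat w0) a) (mZ (Int.ofNat w0) c))
        (affF L (Nat.mod (Nat.shiftRight n1 24) M72)) (affF L (Nat.mod (Nat.shiftRight n1 96) M72)))
      (Nat.mul (Nat.mul 2 w) (bpos g e (Nat.mod n 4096))) (rdw (Nat.shiftRight n 12))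
      (Nat.shiftRight n 12)) cnt

theorem sqBF_eq : sqBF = sqB := by
  funext L w g e K cnt
  unfold sqBF sqB
  simp only [aZ_eq, mZ_eq, affF_eq, phF_eq]

noncomputable def sqTF (L : Lay) (w g e : ℕ) (K : ℕ → ℤ → Bool) (cnt : ℕ) : ℕ → ℤ → Bool :=
  Nat.rec (motive := fun _ => ℕ → ℤ → Bool) K
    (fun _ ih n A => (fun s w0 n1 =>
      (fun a => ih (Nat.shiftRight n1 96) (aZ A (phF s (mZ (mZ (Int.ofNat w0) a) a))))
        (affF L (Nat.mod (Nat.shiftRight n1 24) M72)))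
      (Nat.mul (Nat.mul 2 w) (bpos g e (Nat.mod n 4096))) (rdw (Nat.shiftRight n 12))
      (Nat.shiftRight n 12)) cnt

theorem sqTF_eq : sqTF = sqT := by
  funext L w g e K cnt
  unfold sqTF sqT
  simp only [aZ_eq, mZ_eq, affF_eq, phF_eq]

/-! ### multipliers -/

/-- digits of a number -/
noncomputable def apF (v H : ℕ) (N : ℤ) : ℕ :=
  (fun D => (fun E => Nat.land D (Nat.sub E (Nat.shiftRight E v))) (Nat.land D H))
    (Int.rec (motive := fun _ => ℕ) (fun n => Nat.add n H) (fun n => Nat.sub H (Nat.succ n)) N)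

theorem apF_eq (v H : ℕ) (N : ℤ) : apF v H N = apN v H N := by
  unfold apF apN
  have : (Int.rec (motive := fun _ => ℕ) (fun n => Nat.add n H) (fun n => Nat.sub H (Nat.succ n)) N : ℕ) =
      Int.toNat (Int.add N (Int.ofNat H)) := by
    show _ = Int.toNat (N + (H : ℤ))
    cases N with
    | ofNat n =>
      show n + H = Int.toNat ((n : ℤ) + H)
      omega
    | negSucc n =>
      show H - (n + 1) = Int.toNat (Int.negSucc n + H)
      omega
  rw [this]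

noncomputable def amF (A : ℕ) (N : ℤ) : ℕ :=
  Int.rec (motive := fun _ => ℕ) (fun n => Nat.sub A n) (fun n => Nat.add A (Nat.succ n)) N

theorem amF_eq (A : ℕ) (N : ℤ) : amF A N = amN A N := by
  unfold amN
  show _ = Int.toNat ((A : ℤ) - N)
  cases N with
  | ofNat n =>
    show A - n = Int.toNat ((A : ℤ) - (n : ℤ))
    omega
  | negSucc n =>
    show A + (n + 1) = Int.toNat ((A : ℤ) - Int.negSucc n)
    omega

/-- twice the constant digit -/
def rcF (v A : ℕ) : ℕ := Nat.shiftLeft (Nat.land A (Nat.sub (Nat.pow 2 (Nat.succ v)) 1)) 1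

theorem rcF_eq (v A : ℕ) : rcF v A = rdc v A := by
  show (A &&& (2 ^ (v + 1) - 1)) <<< 1 = 2 * (A % 2 ^ (v + 1))
  rw [Nat.and_two_pow_sub_one_eq_mod, Nat.shiftLeft_eq]
  ring

noncomputable def rsF (v A : ℕ) (N : ℤ) : ℕ :=
  Nat.mod (Nat.add A (amF A N)) (Nat.sub (Nat.pow 2 (Nat.succ v)) 1)

theorem rsF_eq (v A : ℕ) (N : ℤ) : rsF v A N = rds v A N := by
  unfold rsF rds
  rw [amF_eq]

noncomputable def lowF (H v : ℕ) (N : ℤ) : ℕ := (fun A => Nat.sub (rcF v A) (rsF v A N)) (apF v H N)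

theorem lowF_eq (H v : ℕ) (N : ℤ) : lowF H v N = lowN H v N := by
  unfold lowF lowN
  simp only [apF_eq, rcF_eq, rsF_eq]

noncomputable def nrmF (H v : ℕ) (N : ℤ) : ℕ := (fun A => rsF v A N) (apF v H N)

theorem nrmF_eq (H v : ℕ) (N : ℤ) : nrmF H v N = nrmN H v N := by
  unfold nrmF nrmN
  simp only [apF_eq, rsF_eq]

noncomputable def lamOKF (L : Lay) (v c : ℕ) : Bool :=
  (fun N => (fun A => Nat.ble (rsF v A N) (rcF v A)) (apF v L.H N)) (frmF L c)

theorem lamOKF_eq : lamOKF = lamOK4 := by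
  funext L v c
  unfold lamOKF lamOK4
  simp only [rsF_eq, rcF_eq, apF_eq, frmF_eq]

noncomputable def lamLF (L : Lay) (v : ℕ) (K : ℕ → List (ℕ × ℕ) → Bool) (cnt : ℕ) :
    ℕ → List (ℕ × ℕ) → Bool :=
  Nat.rec (motive := fun _ => ℕ → List (ℕ × ℕ) → Bool) K
    (fun _ ih n ls => rdForm (Nat.shiftRight n 12) fun c n2 =>
      Bool.rec (motive := fun _ => Bool) false (ih n2 ((Nat.mod n 4096, c) :: ls)) (lamOKF L v c)) cnt

theorem lamLF_eq : lamLF = lamL := by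
  funext L v K cnt
  unfold lamLF lamL
  rw [lamOKF_eq]

/-! ### states -/

structure QB where
  xp : ℤ
  yp0 : ℤ
  yp1 : ℤ
  yp2 : ℤ
  xm : ℤ
  ym0 : ℤ
  ym1 : ℤ
  ym2 : ℤ
  s : ℤ

noncomputable def mkQ (z : ZB) : QB :=
  ⟨aZ z.sa z.da, aZ z.sb0 z.db0, aZ z.sb1 z.db1, aZ z.sb2 z.db2,
    dZ z.sa z.da, dZ z.sb0 z.db0, dZ z.sb1 z.db1, dZ z.sb2 z.db2, z.sc⟩

structure W5 where
  x : ℤ
  y0 : ℤ
  y1 : ℤ
  y2 : ℤ
  s : ℤ

noncomputable def mkW (Q : QB) (j : ℕ) (lam : ℤ) : W5 :=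
  Nat.rec (motive := fun _ => W5) ⟨mZ lam Q.xp, mZ lam Q.yp0, mZ lam Q.yp1, mZ lam Q.yp2, mZ lam Q.s⟩
    (fun _ _ => ⟨mZ lam Q.xm, mZ lam Q.ym0, mZ lam Q.ym1, mZ lam Q.ym2, mZ lam Q.s⟩) (Nat.mod j 2)

/-- the state part of a constraint -/
noncomputable def dotF (W : W5) (v : Cv) (a : ℤ) : ℤ :=
  aZ a (aZ (mZ v.sb0 W.y0) (aZ (mZ v.sb1 W.y1) (aZ (mZ v.sb2 W.y2) (mZ v.sc W.s))))

/-- `da = ± sa`, `db = ± sb`, `sa` given -/
def parOK (odd : Bool) (s0 : ℤ) (v : Cv) : Bool :=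
  decide (v.sa = s0) && cond odd
    (decide (v.da = -v.sa) && (decide (v.db0 = -v.sb0) && (decide (v.db1 = -v.sb1) &&
      decide (v.db2 = -v.sb2))))
    (decide (v.da = v.sa) && (decide (v.db0 = v.sb0) && (decide (v.db1 = v.sb1) &&
      decide (v.db2 = v.sb2))))

theorem dotF_eq {z : ZB} {j : ℕ} {lam s0 : ℤ} {v : Cv} (h : parOK (decide (j % 2 = 1)) s0 v = true)
    (a : ℤ) : dotF (mkW (mkQ z) j lam) v a + s0 * (mkW (mkQ z) j lam).x = a + lam * conZ z v := by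
  have hc : conZ z v = v.sa * z.sa + (v.da * z.da + (v.sb0 * z.sb0 + (v.sb1 * z.sb1 +
    (v.sb2 * z.sb2 + (v.db0 * z.db0 + (v.db1 * z.db1 + (v.db2 * z.db2 + v.sc * z.sc))))))) := rfl
  rcases Nat.mod_two_eq_zero_or_one j with hj | hj
  · have hj' : Nat.mod j 2 = 0 := hj
    unfold parOK at h
    rw [hj, Bool.and_eq_true, decide_eq_true_eq] at h
    have h2 : (decide (v.da = v.sa) && (decide (v.db0 = v.sb0) && (decide (v.db1 = v.sb1) &&
      decide (v.db2 = v.sb2)))) = true := h.2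
    simp only [Bool.and_eq_true, decide_eq_true_eq] at h2
    obtain ⟨e1, e2, e3, e4⟩ := h2
    unfold mkW dotF
    rw [hj']
    simp only [mkQ, aZ_eq, mZ_eq]
    rw [hc, ← h.1, e1, e2, e3, e4]
    show a + (v.sb0 * (lam * (z.sb0 + z.db0)) + (v.sb1 * (lam * (z.sb1 + z.db1)) +
      (v.sb2 * (lam * (z.sb2 + z.db2)) + v.sc * (lam * z.sc)))) + v.sa * (lam * (z.sa + z.da)) = _
    ring
  · have hj' : Nat.mod j 2 = 1 := hj
    unfold parOK at h
    rw [hj, Bool.and_eq_true, decide_eq_true_eq] at h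
    have h2 : (decide (v.da = -v.sa) && (decide (v.db0 = -v.sb0) && (decide (v.db1 = -v.sb1) &&
      decide (v.db2 = -v.sb2)))) = true := h.2
    simp only [Bool.and_eq_true, decide_eq_true_eq] at h2
    obtain ⟨e1, e2, e3, e4⟩ := h2
    unfold mkW dotF
    rw [hj']
    simp only [mkQ, aZ_eq, mZ_eq, dZ_eq]
    rw [hc, ← h.1, e1, e2, e3, e4]
    show a + (v.sb0 * (lam * (z.sb0 - z.db0)) + (v.sb1 * (lam * (z.sb1 - z.db1)) +
      (v.sb2 * (lam * (z.sb2 - z.db2)) + v.sc * (lam * z.sc)))) + v.sa * (lam * (z.sa - z.da)) = _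
    ring

noncomputable def zipF (W : W5) (accs : List ℤ) : List Cv → List ℤ :=
  List.rec (motive := fun _ => List Cv → List ℤ) (fun _ => [])
    (fun a _ ih col => List.rec (motive := fun _ => List ℤ) (a :: ih [])
      (fun v c _ => dotF W v a :: ih c) col) accs

theorem zipF_map {ι : Type} (W : W5) (g : ι → ℤ) (f : ι → Cv) : ∀ V : List ι,
    zipF W (V.map g) (V.map f) = V.map fun v => dotF W (f v) (g v)
  | [] => rfl
  | a :: V => by
    show dotF W (f a) (g a) :: zipF W (V.map g) (V.map f) = _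
    rw [zipF_map W g f V]
    rfl

theorem zipF_nil {ι : Type} (W : W5) (g : ι → ℤ) : ∀ V : List ι, zipF W (V.map g) [] = V.map g
  | [] => rfl
  | a :: V => by
    show g a :: zipF W (V.map g) [] = _
    rw [zipF_nil W g V]
    rfl

/-- column `j` -/
noncomputable def nthL (j : ℕ) : List (List Cv) → List Cv :=
  Nat.rec (motive := fun _ => List (List Cv) → List Cv)
    (fun l => List.rec (motive := fun _ => List Cv) [] (fun a _ _ => a) l)
    (fun _ ih l => List.rec (motive := fun _ => List Cv) [] (fun _ t _ => ih t) l) j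

noncomputable def hdsa (col : List Cv) : ℤ := List.rec (motive := fun _ => ℤ) 0 (fun v _ _ => v.sa) col

/-- multiplier with the products -/
noncomputable def WofF (L : Lay) (Q : QB) (kc : ℕ) (x : ℕ × ℕ) : W5 := mkW Q x.1 (hZ kc (frmF L x.2))

noncomputable def xF (L : Lay) (Q : QB) (cols : List (List Cv)) (kc : ℕ) (ls : List (ℕ × ℕ)) : ℤ :=
  List.rec (motive := fun _ => ℤ) 0
    (fun x _ ih => aZ (mZ (hdsa (nthL x.1 cols)) (WofF L Q kc x).x) ih) ls

noncomputable def accF (L : Lay) (Q : QB) (cols : List (List Cv)) (kc : ℕ) (st : List ℤ)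
    (ls : List (ℕ × ℕ)) : List ℤ :=
  List.rec (motive := fun _ => List ℤ) st
    (fun x _ ih => zipF (WofF L Q kc x) ih (nthL x.1 cols)) ls

noncomputable def minF (H v : ℕ) (accs : List ℤ) : ℕ :=
  List.rec (motive := fun _ => ℕ) (Nat.pow 2 v)
    (fun N _ ih => (fun r m => Nat.sub m (Nat.sub m r)) (lowF H v N) ih) accs

/-- the columns belong to the rows -/
structure ColOK {ι : Type} (V : List ι) (row : ι → List Cv) (cols : List (List Cv)) : Prop where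
  zero : nthL 0 cols = V.map fun v => nthC (row v) 0
  nth : ∀ j, (nthL j cols = V.map fun v => nthC (row v) j) ∨
    (nthL j cols = [] ∧ ∀ v ∈ V, nthC (row v) j = Cv.zero)
  par : ∀ j, ∀ v ∈ V, parOK (decide (j % 2 = 1)) (hdsa (nthL j cols)) (nthC (row v) j) = true

theorem accF_eq {ι : Type} {V : List ι} {row : ι → List Cv} {cols : List (List Cv)}
    (h : ColOK V row cols) (L : Lay) (z : ZB) (kc : ℕ) (N : ℤ) : ∀ ls : List (ℕ × ℕ),
    accF L (mkQ z) cols kc (V.map fun _ => Int.add N (xF L (mkQ z) cols kc ls)) ls =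
      V.map fun v => N + 2 ^ kc * tZ L z (row v) ls := by
  have key : ∀ (ls : List (ℕ × ℕ)) (M : ℤ),
      accF L (mkQ z) cols kc (V.map fun _ => M + xF L (mkQ z) cols kc ls) ls =
      V.map fun v => M + 2 ^ kc * tZ L z (row v) ls := by
    intro ls
    induction ls with
    | nil =>
      intro M
      show (V.map fun _ => M + 0) = V.map fun v => M + 2 ^ kc * 0
      simp
    | cons x l ih =>
      intro M
      have e0 : xF L (mkQ z) cols kc (x :: l) = hdsa (nthL x.1 cols) * (WofF L (mkQ z) kc x).x +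
          xF L (mkQ z) cols kc l := by
        show aZ (mZ (hdsa (nthL x.1 cols)) (WofF L (mkQ z) kc x).x) (xF L (mkQ z) cols kc l) = _
        rw [aZ_eq, mZ_eq]
        rfl
      show zipF (WofF L (mkQ z) kc x) (accF L (mkQ z) cols kc
        (V.map fun _ => M + xF L (mkQ z) cols kc (x :: l)) l) (nthL x.1 cols) = _
      have e1 : (V.map fun _ => M + xF L (mkQ z) cols kc (x :: l)) =
          V.map fun _ => (M + hdsa (nthL x.1 cols) * (WofF L (mkQ z) kc x).x) +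
            xF L (mkQ z) cols kc l := by
        refine List.map_congr_left fun v _ => ?_
        rw [e0]; ring
      rw [e1, ih]
      have hlam : hZ kc (frmF L x.2) = 2 ^ kc * frm L x.2 := by rw [hZ_eq, frmF_eq]
      rcases h.nth x.1 with h1 | ⟨h1, h2⟩
      · rw [h1, zipF_map]
        refine List.map_congr_left fun v hv => ?_
        have h3 := dotF_eq (z := z) (lam := hZ kc (frmF L x.2)) (h.par x.1 v hv)
          (M + 2 ^ kc * tZ L z (row v) l)
        have e2 : WofF L (mkQ z) kc x = mkW (mkQ z) x.1 (hZ kc (frmF L x.2)) := rfl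
        have h4 : ∀ (W : W5) (v : Cv) (a b : ℤ), dotF W v (a + b) = dotF W v a + b := by
          intro W v a b
          unfold dotF
          simp only [aZ_eq, mZ_eq]
          show a + b + _ = a + _ + b
          ring
        have e3 : M + hdsa (V.map fun v => nthC (row v) x.1) * (WofF L (mkQ z) kc x).x +
            2 ^ kc * tZ L z (row v) l = (M + 2 ^ kc * tZ L z (row v) l) +
            hdsa (V.map fun v => nthC (row v) x.1) * (WofF L (mkQ z) kc x).x := by ring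
        rw [e3, h4, ← h1, e2, h3, hlam]
        have e4 : tZ L z (row v) (x :: l) = frm L x.2 * conZ z (nthC (row v) x.1) +
            tZ L z (row v) l := by
          show Int.add (Int.mul (frm L x.2) (conZ z (nthF x.1 (row v)))) (tZ L z (row v) l) = _
          rw [nthF_eq]
          rfl
        rw [e4]
        ring
      · rw [h1, zipF_nil]
        refine List.map_congr_left fun v hv => ?_
        have e4 : tZ L z (row v) (x :: l) = frm L x.2 * conZ z (nthC (row v) x.1) +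
            tZ L z (row v) l := by
          show Int.add (Int.mul (frm L x.2) (conZ z (nthF x.1 (row v)))) (tZ L z (row v) l) = _
          rw [nthF_eq]
          rfl
        have e5 : conZ z Cv.zero = 0 := by
          show (0 : ℤ) * z.sa + (0 * z.da + (0 * z.sb0 + (0 * z.sb1 + (0 * z.sb2 + (0 * z.db0 +
            (0 * z.db1 + (0 * z.db2 + 0 * z.sc))))))) = 0
          ring
        have e6 : hdsa [] = 0 := rfl
        rw [e4, h2 v hv, e5, e6]
        ring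
  exact fun ls => key ls N

theorem minF_eq {ι : Type} {V : List ι} {row : ι → List Cv} {row0 : List Cv} (L : Lay) (v : ℕ)
    (z : ZB) (ls : List (ℕ × ℕ)) (kc : ℕ) (N0 : ℤ)
    (heq : ∀ a ∈ V, eqR (row a) row0 = true) :
    minF L.H v (V.map fun a => N0 + 2 ^ kc * tZ L z (row a) ls) =
      minS L v z row0 ls kc (Int.add N0 (shI kc (tZ L z row0 ls))) (V.map row) := by
  induction V with
  | nil => rfl
  | cons a l ih =>
    have e1 := ih fun b hb => heq b (List.mem_cons_of_mem _ hb)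
    have e2 : Int.add (Int.add N0 (shI kc (tZ L z row0 ls))) (shI kc (tD L z (row a) row0 ls)) =
        N0 + 2 ^ kc * tZ L z (row a) ls := by
      show N0 + shI kc (tZ L z row0 ls) + shI kc (tD L z (row a) row0 ls) = _
      rw [shI_eq, shI_eq, tD_eq _ _ (heq a List.mem_cons_self)]
      ring
    show (fun r m => Nat.sub m (Nat.sub m r)) (lowF L.H v (N0 + 2 ^ kc * tZ L z (row a) ls))
        (minF L.H v (l.map fun a => N0 + 2 ^ kc * tZ L z (row a) ls)) =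
      (fun r m => Nat.sub m (Nat.sub m r)) (lowN L.H v (Int.add (Int.add N0
        (shI kc (tZ L z row0 ls))) (shI kc (tD L z (row a) row0 ls))))
        (minS L v z row0 ls kc (Int.add N0 (shI kc (tZ L z row0 ls))) (l.map row))
    rw [e1, e2, lowF_eq]

/-! ### leaves -/

/-- fast environment -/
structure EnvF where
  E : Env
  cols : List (List Cv)

/-- constant list -/
noncomputable def stF (N : ℤ) (col : List Cv) : List ℤ :=
  List.rec (motive := fun _ => List ℤ) [] (fun _ _ ih => N :: ih) col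

theorem stF_map {ι : Type} (N : ℤ) (f : ι → Cv) : ∀ V : List ι, stF N (V.map f) = V.map fun _ => N
  | [] => rfl
  | a :: V => by
    show N :: stF N (V.map f) = _
    rw [stF_map N f V]
    rfl

noncomputable def minG (G : EnvF) (ls : List (ℕ × ℕ)) (kc : ℕ) (N0 : ℤ) : ℕ :=
  (fun Q => minF G.E.L.H G.E.v (accF G.E.L Q G.cols kc
    (stF (aZ N0 (xF G.E.L Q G.cols kc ls)) (nthL 0 G.cols)) ls)) (mkQ G.E.z)

theorem minG_eq {ι : Type} {V : List ι} {row : ι → List Cv} {G : EnvF}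
    (h : ColOK V row G.cols) (hV : V.map row = G.E.rows)
    (heq : ∀ r ∈ G.E.rows, eqR r G.E.row0 = true) (ls : List (ℕ × ℕ)) (kc : ℕ) (N0 : ℤ) :
    minG G ls kc N0 = minS G.E.L G.E.v G.E.z G.E.row0 ls kc
      (Int.add N0 (shI kc (tZ G.E.L G.E.z G.E.row0 ls))) G.E.rows := by
  show minF G.E.L.H G.E.v (accF G.E.L (mkQ G.E.z) G.cols kc
    (stF (aZ N0 (xF G.E.L (mkQ G.E.z) G.cols kc ls)) (nthL 0 G.cols)) ls) = _
  rw [h.zero, stF_map, aZ_eq, accF_eq h, ← hV]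
  exact minF_eq _ _ _ _ _ _ fun a ha => heq _ (by rw [← hV]; exact List.mem_map_of_mem ha)

/-- fast `leafOS` -/
noncomputable def leafOSF (G : EnvF) (n : ℕ) : Bool :=
  (fun kc ks nm ns => andB
    (Nat.blt (Nat.add (Nat.mul (Nat.pow 2 ks) (Nat.mul ns WB))
      (Nat.mul (Nat.pow 2 kc) (Nat.mul nm (Nat.mul 43008 (Nat.mul G.E.cm G.E.bz))))) (Nat.pow 2 G.E.v))
    (lamLF G.E.L G.E.v (fun n1 ls => sqSF G.E.L (fun _ A =>
      (fun N0 => Nat.blt 0
        (minG G ls kc N0))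
        (dZ 0 (hZ ks A))) ns n1 0)
      nm (Nat.shiftRight n 180) []))
    (hd n 60) (hd n 72) (hd n 84) (hd n 108)

/-- fast `leafOM` -/
noncomputable def leafOMF (G : EnvF) (n : ℕ) : Bool :=
  (fun kc ks nm ns => andB
    (Nat.blt (Nat.add (Nat.mul (Nat.pow 2 ks) (Nat.mul ns WB))
      (Nat.mul (Nat.pow 2 kc) (Nat.mul nm (Nat.mul 43008 (Nat.mul G.E.cm G.E.bz))))) (Nat.pow 2 G.E.v))
    (lamLF G.E.L G.E.v (fun n1 ls => sqAF G.E.L (fun _ A _ _ =>
      (fun N0 => Nat.blt 0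
        (minG G ls kc N0))
        (dZ 0 (hZ ks A))) ns n1 0 0 0)
      nm (Nat.shiftRight n 180) []))
    (hd n 60) (hd n 72) (hd n 84) (hd n 108)

/-- fast `leafS1` -/
noncomputable def leafS1F (G : EnvF) (N : ℤ) (n : ℕ) : Bool :=
  (fun κ kp kc ks nm ns nq => andB
    (Nat.blt (Nat.add (Nat.mul (Nat.mul (Nat.pow 2 kp) κ) G.E.nb) (Nat.add
      (Nat.mul (Nat.pow 2 ks) (Nat.mul (Nat.add ns nq) WB))
      (Nat.mul (Nat.pow 2 kc) (Nat.mul nm (Nat.mul 43008 (Nat.mul G.E.cm G.E.bz)))))) (Nat.pow 2 G.E.v))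
    (lamLF G.E.L G.E.v (fun n1 ls => sqSF G.E.L (fun n2 A => sqTF G.E.L (Nat.succ G.E.v) G.E.g G.E.e (fun _ A =>
      (fun N0 => Nat.blt (Nat.mul (Nat.mul (Nat.pow 2 kp) κ) G.E.err)
        (minG G ls kc N0))
        (dZ (hZ kp (mZ (Int.ofNat κ) N)) (hZ ks A))) nq n2 A) ns n1 0)
      nm (Nat.shiftRight n 180) []))
    (Nat.mod n 16777216) (hd n 48) (hd n 60) (hd n 72) (hd n 84) (hd n 108) (hd n 120)

/-- fast `leafM1` -/
noncomputable def leafM1F (G : EnvF) (N11 N12 N22 : ℤ) (n : ℕ) : Bool :=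
  (fun κ kp kc ks nm nm2 ns nq s11 s12 s21 s22 => (fun K σ1 σ2 => andB
    (andB (Nat.blt 0 (Int.natAbs (dZ (mZ s11 s22) (mZ s12 s21))))
    (Nat.blt (Nat.add (Nat.mul K (Nat.mul (Nat.mul (Nat.add σ1 σ2) (Nat.add σ1 σ2)) G.E.nb)) (Nat.add
      (Nat.mul (Nat.pow 2 ks) (Nat.mul (Nat.add ns nq) WB))
      (Nat.mul (Nat.pow 2 kc) (Nat.mul (Nat.add nm nm2) (Nat.mul 43008 (Nat.mul G.E.cm G.E.bz))))))
      (Nat.pow 2 G.E.v)))
    (lamLF G.E.L G.E.v (fun n1 ls => lamLF G.E.L G.E.v (fun n2 ls2 => sqAF G.E.L (fun n3 A B D =>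
      sqBF G.E.L (Nat.succ G.E.v) G.E.g G.E.e (fun _ A B D =>
      (fun R1 R12 R2 =>
        (fun r1 n12 r2 => (fun E1 E2 => andB (Nat.blt E1 r1) (andB (Nat.blt E2 r2)
          (Nat.ble (Nat.mul n12 n12) (Nat.mul (Nat.sub r1 E1) (Nat.sub r2 E2)))))
          (Nat.mul (Nat.mul K (Nat.mul σ1 σ1)) G.E.err) (Nat.mul (Nat.mul K (Nat.mul σ2 σ2)) G.E.err))
          (minG G ls kc R1)
          (Nat.add (nrmF G.E.L.H G.E.v R12) (Nat.mul (Nat.mul K (Nat.mul σ1 σ2)) G.E.err))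
          (Nat.rec (motive := fun _ => ℕ) (lowF G.E.L.H G.E.v R2) (fun _ _ =>
            minG G ls2 kc R2)
            nm2))
        (dZ (hZ kp (mZ (Int.ofNat κ) (aZ (mZ (mZ s11 s11) N11)
          (aZ (mZ (mZ 2 (mZ s11 s21)) N12) (mZ (mZ s21 s21) N22)))))
          (hZ ks A))
        (dZ (hZ kp (mZ (Int.ofNat κ) (aZ (mZ (mZ s11 s12) N11)
          (aZ (mZ (aZ (mZ s11 s22) (mZ s12 s21)) N12)
            (mZ (mZ s21 s22) N22))))) (hZ ks B))
        (dZ (hZ kp (mZ (Int.ofNat κ) (aZ (mZ (mZ s12 s12) N11)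
          (aZ (mZ (mZ 2 (mZ s12 s22)) N12) (mZ (mZ s22 s22) N22)))))
          (hZ ks D))) nq n3 A B D) ns n2 0 0 0)
      nm2 n1 []) nm (Nat.shiftRight n 180) []))
    (Nat.mul (Nat.pow 2 kp) κ) (Nat.add (Int.natAbs s11) (Int.natAbs s21))
    (Nat.add (Int.natAbs s12) (Int.natAbs s22)))
    (Nat.mod n 16777216) (hd n 48) (hd n 60) (hd n 72) (hd n 84) (hd n 96) (hd n 108) (hd n 120)
    (hs n 132) (hs n 144) (hs n 156) (hs n 168)

section
variable {G : EnvF} (hm : ∀ ls kc N0, minG G ls kc N0 = minS G.E.L G.E.v G.E.z G.E.row0 ls kc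
  (Int.add N0 (shI kc (tZ G.E.L G.E.z G.E.row0 ls))) G.E.rows)
include hm

theorem leafOSF_eq (n : ℕ) : leafOSF G n = leafOS G.E n := by
  unfold leafOSF leafOS
  simp only [hm, lamLF_eq, sqSF_eq, dZ_eq, hZ_shI]

theorem leafOMF_eq (n : ℕ) : leafOMF G n = leafOM G.E n := by
  unfold leafOMF leafOM
  simp only [hm, lamLF_eq, sqAF_eq, dZ_eq, hZ_shI]

theorem leafS1F_eq (N : ℤ) (n : ℕ) : leafS1F G N n = leafS1 G.E N n := by
  unfold leafS1F leafS1
  simp only [hm, lamLF_eq, sqSF_eq, sqTF_eq, dZ_eq, hZ_shI, mZ_eq]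

theorem leafM1F_eq (N11 N12 N22 : ℤ) (n : ℕ) : leafM1F G N11 N12 N22 n =
    leafM1 G.E N11 N12 N22 n := by
  unfold leafM1F leafM1
  simp only [hm, lamLF_eq, sqAF_eq, sqBF_eq, dZ_eq, hZ_shI, mZ_eq, aZ_eq, lowF_eq, nrmF_eq]

end

/-- **leaf of a scalar tree** (`G'` = environment of the out leaves) -/
noncomputable def leafSF (G' G : EnvF) (N : ℤ) (n : ℕ) : Bool :=
  Nat.rec (motive := fun _ => Bool) (leafOSF G' n) (fun _ _ => leafS1F G N n) (Nat.mod n 16777216)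

/-- **leaf of the matrix tree** -/
noncomputable def leafMF (G' G : EnvF) (N11 N12 N22 : ℤ) (n : ℕ) : Bool :=
  Nat.rec (motive := fun _ => Bool) (leafOMF G' n) (fun _ _ => leafM1F G N11 N12 N22 n)
    (Nat.mod n 16777216)

section
variable {G' G : EnvF} (hm' : ∀ ls kc N0, minG G' ls kc N0 = minS G'.E.L G'.E.v G'.E.z G'.E.row0
  ls kc (Int.add N0 (shI kc (tZ G'.E.L G'.E.z G'.E.row0 ls))) G'.E.rows)
  (hm : ∀ ls kc N0, minG G ls kc N0 = minS G.E.L G.E.v G.E.z G.E.row0 ls kc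
  (Int.add N0 (shI kc (tZ G.E.L G.E.z G.E.row0 ls))) G.E.rows)
include hm' hm

theorem leafSF_eq (N : ℤ) (n : ℕ) : leafSF G' G N n = leafS G'.E G.E N n := by
  unfold leafSF leafS
  simp only [leafOSF_eq hm', leafS1F_eq hm]

theorem leafMF_eq (N11 N12 N22 : ℤ) (n : ℕ) : leafMF G' G N11 N12 N22 n =
    leafM G'.E G.E N11 N12 N22 n := by
  unfold leafMF leafM
  simp only [leafOMF_eq hm', leafM1F_eq hm]

end

/-! ### evaluation of the tree -/

noncomputable def f2 (m : ℤ) (t : T ℤ) : ℤ :=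
  T.rec (motive := fun _ => ℤ) (fun z => z) (fun a _ _ ihb => aZ (k3 a) (mZ m ihb)) t

noncomputable def f1 (f : T ℤ → ℤ) (A B : ℤ) (s : ℕ) (t : T ℤ) : ℤ :=
  T.rec (motive := fun _ => ℤ) (fun z => z)
    (fun a _ _ ihb => aZ (f a) (aZ (mZ A ihb) (hZ s (mZ B ihb)))) t

noncomputable def fev (A0 B0 : ℤ) (s0 : ℕ) (A1 B1 : ℤ) (s1 : ℕ) (m2 : ℤ) (t : T ℤ) : ℤ :=
  f1 (f1 (f2 m2) A1 B1 s1) A0 B0 s0 t

theorem fev_eq : fev = kev := by
  funext A0 B0 s0 A1 B1 s1 m2 t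
  have h2 : f2 = k2 := by
    funext m t
    unfold f2 k2
    simp only [aZ_eq, mZ_eq]
  have h1 : f1 = k1 := by
    funext f A B s t
    unfold f1 k1
    simp only [aZ_eq, mZ_eq, hZ_shI]
  unfold fev kev
  rw [h1, h2]

/-! ### basis of the constraints -/

noncomputable def zbF (A E α β k0 k1 k2 k3 k4 X0 X1 X2 r0 r1 r2 m : ℤ) : ZB :=
  (fun a1 b1 A2 E2 => (fun AE a2 b2 => (fun ab => (fun D U0 => (fun U1 U2 P0 P1 P2 m4 mm =>
    (fun m2 D4 =>
  ⟨mZ D (aZ (mZ 4 (aZ (mZ P0 P0) (aZ (mZ P1 P1) (mZ P2 P2)))) mm),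
    mZ m4 (aZ (mZ P0 U0) (aZ (mZ P1 U1) (mZ P2 U2))),
    mZ D4 P0, mZ D4 P1, mZ D4 P2,
    mZ m2 U0, mZ m2 U1, mZ m2 U2, mZ (mZ 4 mm) D⟩) (mZ 2 mm) (mZ m4 D))
    (mZ (mZ (mZ 2 A) E2) a1) (mZ (mZ (mZ 2 E) A2) b1)
    (aZ (mZ X0 r0) (mZ (mZ 3 r0) k4)) (aZ (mZ X1 r1) (mZ (mZ 3 r1) k3))
    (aZ (mZ X2 r2) (mZ (mZ 3 r2) k2)) (mZ 4 m) (mZ m m)) (aZ AE ab) (dZ AE ab)) (aZ a2 b2))
    (mZ A2 E2) (mZ (mZ a1 a1) E2) (mZ (mZ b1 b1) A2))
    (aZ α k0) (aZ β k1) (mZ A A) (mZ E E)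

theorem zbF_eq : zbF = zbK := by
  funext A E α β k0 k1 k2 k3 k4 X0 X1 X2 r0 r1 r2 m
  unfold zbF zbK
  simp only [aZ_eq, mZ_eq, dZ_eq]

end Pool.Agent.Helper45.TOP
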