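import Pool.Agent.Helper45.TOP.KrSound
import Pool.Agent.Helper45.TOP.KrFast
import Pool.Agent.Helper10.TOP.PO
import Pool.Agent.Helper6.TOP.Cov2

/-!
# Project TOP: the leaf checker on a cell and a box
-/

set_option autoImplicit false

namespace Pool.Agent.Helper45.TOP
open Helper10.PC Pool.Agent.Helper6.TOP

/-- `Int.ofNat (2 ^ (w s))` -/
def kI (w s : ℕ) : ℤ := Int.ofNat (Nat.pow 2 (Nat.mul w s))

theorem kI_eq (w s : ℕ) : kI w s = 2 ^ (w * s) := by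
  show ((2 ^ (w * s) : ℕ) : ℤ) = _
  push_cast
  rfl

/-- parameters of a range; `e2` = radix of the out leaves -/
structure Par where
  v : ℕ
  g : ℕ
  e : ℕ
  e2 : ℕ
  mu : ℕ
  R : ℕ
  cm : ℕ
  row0 : List Cv
  rows : List (List Cv)
  cols : List (List Cv)

/-- the columns have the form of the constraints -/
noncomputable def colsOK : Bool → List (List Cv) → Bool
  | _, [] => true
  | o, col :: l => (col.all fun v => parOK o (hdsa col) v) && colsOK (!o) l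

/-- the parameters are right -/
noncomputable def Par.ok (P : Par) : Bool :=
  layOK P.v P.g P.e && layOK P.v P.g P.e2 && decide (4 < P.g) && decide (P.g ≤ 5) &&
    decide (6 < P.e) && decide (4 < P.e2) &&
    decide (43008 < 2 ^ P.v) && (P.rows.all fun r => cmOK P.cm r) &&
    (P.rows.all fun r => eqR r P.row0) && colsOK false P.cols

/-- the box is inside -/
def boxOK (P : Par) (B : PB) : Bool :=
  Nat.ble B.m0 P.mu && (Nat.ble B.m1 P.mu && (Nat.ble B.m2 P.mu &&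
    (Nat.ble (Nat.mul (Nat.add (Int.natAbs B.X0) 3) (Nat.pow 2 (Nat.sub P.mu B.m0))) P.R &&
    (Nat.ble (Nat.mul (Nat.add (Int.natAbs B.X1) 3) (Nat.pow 2 (Nat.sub P.mu B.m1))) P.R &&
    Nat.ble (Nat.mul (Nat.add (Int.natAbs B.X2) 3) (Nat.pow 2 (Nat.sub P.mu B.m2))) P.R))))

/-- the environment of a cell and a box (`e` = radix) -/
noncomputable def envOf (P : Par) (L : Lay) (e nb err : ℕ) (c : UC) (B : PB) : Env :=
  (fun w A E α β r0 r1 r2 m =>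
    ⟨L, P.v, P.g, e, P.cm, P.row0, P.rows,
      zbF (Int.ofNat A) (Int.ofNat E) (Int.ofNat α) (Int.ofNat β) (kI w 1) (kI w P.g)
        (kI w (Nat.mul P.g P.g)) (kI w (Nat.mul (Nat.mul P.g P.g) e))
        (kI w (Nat.mul (Nat.mul (Nat.mul P.g P.g) e) e)) B.X0 B.X1 B.X2
        (Int.ofNat r0) (Int.ofNat r1) (Int.ofNat r2) (Int.ofNat m),
      zbB A E α β (Int.natAbs B.X0) (Int.natAbs B.X1) (Int.natAbs B.X2) r0 r1 r2 m, nb, err⟩)
    (Nat.succ P.v) (Nat.pow 2 (Nat.succ c.qa)) (Nat.pow 2 (Nat.succ c.qb))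
    (Nat.succ (Nat.mul 2 c.i)) (Nat.succ (Nat.mul 2 c.j)) (Nat.pow 2 (Nat.sub P.mu B.m0))
    (Nat.pow 2 (Nat.sub P.mu B.m1)) (Nat.pow 2 (Nat.sub P.mu B.m2)) (Nat.pow 2 P.mu)

/-- value of a table -/
noncomputable def polN (P : Par) (B : PB) (t : T ℤ) : ℤ :=
  (fun w r0 r1 r2 =>
    fev (Int.mul B.X0 (Int.ofNat r0)) (Int.ofNat (Nat.mul 3 r0))
      (Nat.mul w (Nat.mul (Nat.mul (Nat.mul P.g P.g) P.e) P.e))
      (Int.mul B.X1 (Int.ofNat r1)) (Int.ofNat (Nat.mul 3 r1))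
      (Nat.mul w (Nat.mul (Nat.mul P.g P.g) P.e))
      (Int.add (Int.mul B.X2 (Int.ofNat r2)) (Int.mul (Int.ofNat (Nat.mul 3 r2))
        (kI w (Nat.mul P.g P.g)))) t)
    (Nat.succ P.v) (Nat.pow 2 (Nat.sub P.mu B.m0)) (Nat.pow 2 (Nat.sub P.mu B.m1))
    (Nat.pow 2 (Nat.sub P.mu B.m2))

theorem two_sub {m mu : ℕ} (h : m ≤ mu) : (2 : ℝ) ^ mu = 2 ^ m * 2 ^ (mu - m) := by
  rw [← pow_add, Nat.add_sub_cancel' h]

theorem yv_le {t : ℕ → ℝ} (h : ∀ i, |t i| ≤ 1) : ∀ j, |yv t j| ≤ 1 := by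
  intro j
  fin_cases j
  · exact h 0
  · exact h 1
  · exact h 4
  · exact h 3
  · exact h 2

section
variable {P : Par} {c : UC} {B : PB} {a b x y z : ℝ} {t : ℕ → ℝ}

theorem boxOK_iff (h : boxOK P B = true) : (B.m0 ≤ P.mu ∧ B.m1 ≤ P.mu ∧ B.m2 ≤ P.mu) ∧
    (B.X0.natAbs + 3) * 2 ^ (P.mu - B.m0) ≤ P.R ∧ (B.X1.natAbs + 3) * 2 ^ (P.mu - B.m1) ≤ P.R ∧
    (B.X2.natAbs + 3) * 2 ^ (P.mu - B.m2) ≤ P.R := by
  unfold boxOK at h
  simp only [Bool.and_eq_true] at h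
  obtain ⟨h1, h2, h3, h4, h5, h6⟩ := h
  exact ⟨⟨Nat.le_of_ble_eq_true h1, Nat.le_of_ble_eq_true h2, Nat.le_of_ble_eq_true h3⟩,
    Nat.le_of_ble_eq_true h4, Nat.le_of_ble_eq_true h5, Nat.le_of_ble_eq_true h6⟩

/-- the scale of the constraints -/
noncomputable def sclP (P : Par) (c : UC) : ℝ :=
  ((2 ^ (c.qa + 1) : ℕ) : ℝ) ^ 2 * ((2 ^ (c.qb + 1) : ℕ) : ℝ) ^ 2 * (4 * ((2 ^ P.mu : ℕ) : ℝ) ^ 2)

theorem zb_cell (hl : Loc c B a b x y z t) (hB : boxOK P B = true) (L : Lay) (e nb err : ℕ) :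
    ZRep (P.v + 1) P.g e (yv t) (envOf P L e nb err c B).z (sclP P c * (1 + a ^ 2 + b ^ 2))
      (ch0 a b) (ch1 a b) (ch2 a b) x y z (envOf P L e nb err c B).bz := by
  have hD := (chD_pos a b).ne'
  obtain ⟨⟨g0, g1, g2⟩, _⟩ := boxOK_iff hB
  obtain ⟨ha, hb, hx, hy, hz, _⟩ := hl
  have e4 : yv t 4 = t 2 := rfl
  have e3 : yv t 3 = t 3 := rfl
  have e2 : yv t 2 = t 4 := rfl
  have e1 : yv t 1 = t 1 := rfl
  have e0 : yv t 0 = t 0 := rfl
  have k0 : kI (P.v + 1) 1 = kv (P.v + 1) P.g e 0 := kI_eq _ _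
  have k1 : kI (P.v + 1) P.g = kv (P.v + 1) P.g e 1 := kI_eq _ _
  have k2 : kI (P.v + 1) (P.g * P.g) = kv (P.v + 1) P.g e 2 := kI_eq _ _
  have k3 : kI (P.v + 1) (P.g * P.g * e) = kv (P.v + 1) P.g e 3 := kI_eq _ _
  have k4 : kI (P.v + 1) (P.g * P.g * e * e) = kv (P.v + 1) P.g e 4 := kI_eq _ _
  have main := zb_rep0 (w := P.v + 1) (g := P.g) (e := e) (2 ^ (c.qa + 1)) (2 ^ (c.qb + 1))
    (2 * c.i + 1) (2 * c.j + 1) (2 ^ (P.mu - B.m0)) (2 ^ (P.mu - B.m1)) (2 ^ (P.mu - B.m2))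
    (2 ^ P.mu) B.X0 B.X1 B.X2 (y := yv t) (a := a) (b := b) (p0 := x) (p1 := y) (p2 := z)
    (F := sclP P c * (1 + a ^ 2 + b ^ 2)) (u0 := ch0 a b) (u1 := ch1 a b) (u2 := ch2 a b)
    (by rw [e0]; push_cast; exact ha) (by rw [e1]; push_cast; exact hb)
    (by rw [e4]; push_cast; rw [two_sub g0]; linear_combination (2 : ℝ) ^ (P.mu - B.m0) * hx)
    (by rw [e3]; push_cast; rw [two_sub g1]; linear_combination (2 : ℝ) ^ (P.mu - B.m1) * hy)
    (by rw [e2]; push_cast; rw [two_sub g2]; linear_combination (2 : ℝ) ^ (P.mu - B.m2) * hz)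
    (by unfold sclP; push_cast; ring)
    (by show chD a b * ch0 a b = _
        unfold ch0; field_simp)
    (by show chD a b * ch1 a b = _
        unfold ch1; field_simp)
    (by show chD a b * ch2 a b = _
        unfold ch2; field_simp)
  rw [← k0, ← k1, ← k2, ← k3, ← k4, ← zbF_eq] at main
  exact main

/-- the shape of a mapped tree -/
theorem ht_mapT {α β : Type} (f : α → β) : ∀ t : T α, ht (mapT f t) = ht t
  | T.c _ => rfl
  | T.h a b => by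
    show max (ht (mapT f a)) (ht (mapT f b) + 1) = _
    rw [ht_mapT f a, ht_mapT f b]
    rfl

/-- fast height -/
noncomputable def htF (t : T ℤ) : ℕ :=
  T.rec (motive := fun _ => ℕ) (fun _ => 0)
    (fun _ _ ia ib => (fun p q => Nat.add p (Nat.sub q p)) ia (Nat.succ ib)) t

theorem htF_eq : ∀ t : T ℤ, htF t = ht t
  | T.c _ => rfl
  | T.h a b => by
    show htF a + (htF b + 1 - htF a) = max (ht a) (ht b + 1)
    rw [htF_eq a, htF_eq b]
    omega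

/-- **the value of a table on a box** -/
theorem pol_rep (hg : P.g = 5) (hl : Loc c B a b x y z t) (hB : boxOK P B = true)
    {Z : PZ} {F : (ℕ → ℝ) → ℝ} (hZ : RepZ (P.v + 1) P.g (t 0) (t 1) P.R Z F) (hh : htF Z.t ≤ 6)
    {X : ℕ → ℝ} (h0 : X 0 = 2 ^ P.mu * x) (h1 : X 1 = 2 ^ P.mu * y) (h2 : X 2 = 2 ^ P.mu * z)
    (h3 : ∀ k, X (k + 3) = 0) :
    ∃ p : ℝ, Rep (P.v + 1) P.g P.e (yv t) (dd 4 6) (polN P B Z.t) p Z.b ∧ |F X - p| ≤ Z.e := by
  obtain ⟨⟨g0, g1, g2⟩, i0, i1, i2⟩ := boxOK_iff hB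
  obtain ⟨_, _, hx, hy, hz, hle⟩ := hl
  obtain ⟨S, s1, s2, s3⟩ := hZ
  have rep : ∀ (X : ℤ) (m : ℕ) (r : ℝ) (j : Fin 5) (ρ : ℝ), j = 2 ∨ j = 3 ∨ j = 4 → m ≤ P.mu →
      (X.natAbs + 3) * 2 ^ (P.mu - m) ≤ P.R → r * 2 ^ m = X + 3 * yv t j →
      Rep (P.v + 1) P.g P.e (yv t) (dd 0 1) (X * ((2 ^ (P.mu - m) : ℕ) : ℤ) +
        ((3 * 2 ^ (P.mu - m) : ℕ) : ℤ) * kv (P.v + 1) P.g P.e j) (2 ^ P.mu * r) P.R := by
    intro X m r j ρ hj hm hR hr
    have r1 := (((Rep.int (w := P.v + 1) (g := P.g) (e := P.e) (y := yv t) X).mulD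
      (Rep.nat (2 ^ (P.mu - m)))).up (c' := 0) (h' := 1) le_rfl (by norm_num) le_rfl).add
      ((Rep.nat (w := P.v + 1) (g := P.g) (e := P.e) (y := yv t) (3 * 2 ^ (P.mu - m))).mulD
        (Rep.s j hj))
    have e : (X : ℝ) * ((2 ^ (P.mu - m) : ℕ) : ℝ) + ((3 * 2 ^ (P.mu - m) : ℕ) : ℝ) * yv t j =
        2 ^ P.mu * r := by
      rw [two_sub hm]
      push_cast
      linear_combination (-(2 : ℝ) ^ (P.mu - m)) * hr
    rw [e] at r1
    refine r1.up le_rfl le_rfl ?_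
    rw [mul_one, ← Nat.add_mul]
    exact hR
  have r0 := rep B.X0 B.m0 x 4 0 (by decide) g0 i0 hx
  have r1 := rep B.X1 B.m1 y 3 0 (by decide) g1 i1 hy
  have r2 := rep B.X2 B.m2 z 2 0 (by decide) g2 i2 hz
  set w := P.v + 1 with hw
  have hkx : ∀ k, Rep w P.g P.e (yv t) (dd 0 1)
      (kx (B.X0 * ((2 ^ (P.mu - B.m0) : ℕ) : ℤ) + ((3 * 2 ^ (P.mu - B.m0) : ℕ) : ℤ) *
          2 ^ (w * (P.g * P.g * P.e * P.e)))
        (B.X1 * ((2 ^ (P.mu - B.m1) : ℕ) : ℤ) + ((3 * 2 ^ (P.mu - B.m1) : ℕ) : ℤ) *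
          2 ^ (w * (P.g * P.g * P.e)))
        (B.X2 * ((2 ^ (P.mu - B.m2) : ℕ) : ℤ) + ((3 * 2 ^ (P.mu - B.m2) : ℕ) : ℤ) *
          2 ^ (w * (P.g * P.g))) k) (X k) P.R := by
    intro k
    match k with
    | 0 => rw [h0]; exact r0
    | 1 => rw [h1]; exact r1
    | 2 => rw [h2]; exact r2
    | k + 3 =>
      rw [h3]
      exact (Rep.zero (d := dd 0 1)).up le_rfl le_rfl (Nat.zero_le _)
  have main := Rep.tree (w := w) (g := P.g) (e := P.e) (y := yv t) (by omega) S _ _ (fun _ => P.R)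
    hkx
  have ep : (((2 : ℕ) : ℤ)) = 2 := rfl
  have hpol : polN P B Z.t = kz (mapT (Lp (2 ^ w) (P.g * P.g)) S)
      (kx (B.X0 * ((2 ^ (P.mu - B.m0) : ℕ) : ℤ) + ((3 * 2 ^ (P.mu - B.m0) : ℕ) : ℤ) *
          2 ^ (w * (P.g * P.g * P.e * P.e)))
        (B.X1 * ((2 ^ (P.mu - B.m1) : ℕ) : ℤ) + ((3 * 2 ^ (P.mu - B.m1) : ℕ) : ℤ) *
          2 ^ (w * (P.g * P.g * P.e)))
        (B.X2 * ((2 ^ (P.mu - B.m2) : ℕ) : ℤ) + ((3 * 2 ^ (P.mu - B.m2) : ℕ) : ℤ) *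
          2 ^ (w * (P.g * P.g)))) := by
    rw [s1, ← kI_eq w (P.g * P.g)]
    unfold polN
    rw [fev_eq]
    exact kev_eq _ _ _ _ _ _ _ _
  rw [← hpol] at main
  have hht : ht S ≤ 6 := by
    rw [← ht_mapT (Lp (2 ^ (P.v + 1)) (P.g * P.g)) S, s1, ← htF_eq]
    exact hh
  refine ⟨_, main.up (by omega) hht s2, ?_⟩
  have hX : ∀ i, |X i| ≤ (P.R : ℝ) := by
    have bd : ∀ (X : ℤ) (m : ℕ) (r s : ℝ), |s| ≤ 1 → m ≤ P.mu →
        (X.natAbs + 3) * 2 ^ (P.mu - m) ≤ P.R → r * 2 ^ m = X + 3 * s →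
        |2 ^ P.mu * r| ≤ (P.R : ℝ) := by
      intro X m r s hs hm hR hr
      have e : (2 : ℝ) ^ P.mu * r = (X + 3 * s) * 2 ^ (P.mu - m) := by
        rw [two_sub hm, ← hr]; ring
      have h1 : |(X : ℝ) + 3 * s| ≤ X.natAbs + 3 := by
        have h2 : |(X : ℝ)| = (X.natAbs : ℝ) := by
          rw [Nat.cast_natAbs]; push_cast; rfl
        calc |(X : ℝ) + 3 * s| ≤ |(X : ℝ)| + |3 * s| := abs_add_le _ _
          _ ≤ X.natAbs + 3 := by
            rw [h2, abs_mul, abs_of_pos (show (0 : ℝ) < 3 by norm_num)]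
            linarith
      rw [e, abs_mul, abs_of_pos (show (0 : ℝ) < 2 ^ (P.mu - m) by positivity)]
      calc |(X : ℝ) + 3 * s| * 2 ^ (P.mu - m) ≤ (X.natAbs + 3) * 2 ^ (P.mu - m) :=
            mul_le_mul_of_nonneg_right h1 (by positivity)
        _ = (((X.natAbs + 3) * 2 ^ (P.mu - m) : ℕ) : ℝ) := by push_cast; ring
        _ ≤ P.R := by exact_mod_cast hR
    intro i
    match i with
    | 0 => rw [h0]; exact bd B.X0 B.m0 x (t 2) (hle 2) g0 i0 hx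
    | 1 => rw [h1]; exact bd B.X1 B.m1 y (t 3) (hle 3) g1 i1 hy
    | 2 => rw [h2]; exact bd B.X2 B.m2 z (t 4) (hle 4) g2 i2 hz
    | k + 3 => rw [h3, abs_zero]; exact Nat.cast_nonneg _
  exact s3 X hX

end

/-! ### columns -/

theorem colsOK_nth : ∀ (cols : List (List Cv)) (o : Bool) (j : ℕ), colsOK o cols = true →
    ∀ v ∈ nthL j cols, parOK (xor o (decide (j % 2 = 1))) (hdsa (nthL j cols)) v = true
  | [], o, j, _, v, hv => by
    have : nthL j [] = [] := by cases j <;> rfl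
    rw [this] at hv
    exact absurd hv List.not_mem_nil
  | col :: l, o, 0, h, v, hv => by
    simp only [colsOK, Bool.and_eq_true, List.all_eq_true] at h
    have e : xor o (decide (0 % 2 = 1)) = o := by cases o <;> rfl
    rw [e]
    exact h.1 v hv
  | col :: l, o, j + 1, h, v, hv => by
    simp only [colsOK, Bool.and_eq_true] at h
    have h1 := colsOK_nth l (!o) j h.2 v hv
    have e : xor (!o) (decide (j % 2 = 1)) = xor o (decide ((j + 1) % 2 = 1)) := by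
      rcases Nat.mod_two_eq_zero_or_one j with hj | hj
      · have : (j + 1) % 2 = 1 := by omega
        rw [hj, this]; cases o <;> rfl
      · have : (j + 1) % 2 = 0 := by omega
        rw [hj, this]; cases o <;> rfl
    rw [e] at h1
    exact h1

theorem parOK_zero (o : Bool) : parOK o 0 Cv.zero = true := by cases o <;> decide

section
variable {ι : Type}

theorem nthL_fs (V : List ι) : ∀ (Fs : List (ι → Cv)) (j : ℕ),
    (nthL j (Fs.map fun F => V.map F) = V.map fun v => nthC (Fs.map fun F => F v) j) ∨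
    (nthL j (Fs.map fun F => V.map F) = [] ∧ ∀ v ∈ V, nthC (Fs.map fun F => F v) j = Cv.zero)
  | [], 0 => Or.inr ⟨rfl, fun _ _ => rfl⟩
  | [], _ + 1 => Or.inr ⟨rfl, fun _ _ => rfl⟩
  | _ :: _, 0 => Or.inl rfl
  | _ :: Fs, j + 1 => nthL_fs V Fs j

theorem colOK_of {V : List ι} {Fs : List (ι → Cv)} (hne : Fs ≠ []) {cols : List (List Cv)}
    (hc : (Fs.map fun F => V.map F) = cols) (h : colsOK false cols = true) :
    ColOK V (fun v => Fs.map fun F => F v) cols := by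
  subst hc
  refine ⟨?_, fun j => nthL_fs V Fs j, fun j v hv => ?_⟩
  · obtain ⟨F, l, rfl⟩ := List.exists_cons_of_ne_nil hne
    rfl
  · rcases nthL_fs V Fs j with h1 | ⟨h1, h2⟩
    · have h3 := colsOK_nth _ false j h (nthC (Fs.map fun F => F v) j) (by
        rw [h1]
        exact List.mem_map.2 ⟨v, hv, rfl⟩)
      rw [Bool.false_xor] at h3
      exact h3
    · rw [h1, h2 v hv]
      exact parOK_zero _

end

end Pool.Agent.Helper45.TOP
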