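import Pool.Agent.Helper45.TOP.KrTree
import Pool.Agent.Helper45.TOP.Cnd

/-!
# Project TOP: affine forms and constraints at the Kronecker point
-/

set_option autoImplicit false

namespace Pool.Agent.Helper45.TOP
open Helper10.PC Pool.Agent.Helper6.TOP

/-- order of the variables: `t₀, t₁, s₂, s₁, s₀` -/
noncomputable def yv (t : ℕ → ℝ) : Fin 5 → ℝ := ![t 0, t 1, t 4, t 3, t 2]

section
variable {w g e : ℕ} {y : Fin 5 → ℝ}

theorem Rep.mulD {c c' h h' : ℕ} {N N' : ℤ} {f f' : ℝ} {b b' : ℕ}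
    (h1 : Rep w g e y (dd c h) N f b) (h2 : Rep w g e y (dd c' h') N' f' b') :
    Rep w g e y (dd (c + c') (h + h')) (N * N') (f * f') (b * b') := by
  refine (h1.mul h2).mono (fun j => ?_) le_rfl
  fin_cases j <;> exact le_rfl

theorem Rep.up {c c' h h' : ℕ} {N : ℤ} {f : ℝ} {b b' : ℕ} (h1 : Rep w g e y (dd c h) N f b)
    (hc : c ≤ c') (hh : h ≤ h') (hb : b ≤ b') : Rep w g e y (dd c' h') N f b' :=
  h1.mono (dd_le hc hh) hb

theorem Rep.int (n : ℤ) : Rep w g e y (dd 0 0) n n n.natAbs :=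
  (Rep.const n).mono (fun _ => Nat.zero_le _) le_rfl

/-- the Kronecker values of the variables -/
def kv (w g e : ℕ) : Fin 5 → ℤ := fun j => 2 ^ (w * str g e j)

theorem Rep.t (j : Fin 5) (hj : j = 0 ∨ j = 1) : Rep w g e y (dd 1 0) (kv w g e j) (y j) 1 := by
  refine (Rep.var j).mono (fun i => ?_) le_rfl
  rcases hj with rfl | rfl <;> fin_cases i <;> simp [dd]

theorem Rep.s (j : Fin 5) (hj : j = 2 ∨ j = 3 ∨ j = 4) :
    Rep w g e y (dd 0 1) (kv w g e j) (y j) 1 := by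
  refine (Rep.var j).mono (fun i => ?_) le_rfl
  rcases hj with rfl | rfl | rfl <;> fin_cases i <;> simp [dd]

end

/-! ### affine forms -/

/-- the digit `i` of a form -/
def d16 (n i : ℕ) : ℕ := Nat.mod (Nat.shiftRight n (Nat.mul 16 i)) 65536

theorem d16_lt (n i : ℕ) : d16 n i < 65536 := Nat.mod_lt _ (by norm_num)

/-- the form at the Kronecker point -/
def affK (k0 k1 k2 k3 k4 ks : ℕ) (n : ℕ) : ℤ :=
  Int.sub (Int.ofNat (Nat.add (d16 n 0) (Nat.add (Nat.mul (d16 n 1) k0) (Nat.add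
    (Nat.mul (d16 n 2) k1) (Nat.add (Nat.mul (d16 n 3) k4) (Nat.add (Nat.mul (d16 n 4) k3)
    (Nat.mul (d16 n 5) k2))))))) (Int.ofNat ks)

/-- the form at a point -/
noncomputable def affR (n : ℕ) (y : Fin 5 → ℝ) : ℝ :=
  ((d16 n 0 : ℝ) - 32768) + ((d16 n 1 : ℝ) - 32768) * y 0 + ((d16 n 2 : ℝ) - 32768) * y 1 +
    ((d16 n 3 : ℝ) - 32768) * y 4 + ((d16 n 4 : ℝ) - 32768) * y 3 + ((d16 n 5 : ℝ) - 32768) * y 2

theorem Rep.sg {w g e : ℕ} {y : Fin 5 → ℝ} (n i : ℕ) :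
    Rep w g e y (dd 0 0) ((d16 n i : ℤ) - 32768) ((d16 n i : ℝ) - 32768) 32768 := by
  have h := Rep.int (w := w) (g := g) (e := e) (y := y) ((d16 n i : ℤ) - 32768)
  have h2 := d16_lt n i
  have h3 : (((d16 n i : ℤ) - 32768 : ℤ) : ℝ) = (d16 n i : ℝ) - 32768 := by push_cast; ring
  rw [h3] at h
  exact h.up le_rfl le_rfl (by omega)

theorem Rep.aff {w g e : ℕ} {y : Fin 5 → ℝ} {k0 k1 k2 k3 k4 ks : ℕ} (h0 : (k0 : ℤ) = kv w g e 0)
    (h1 : (k1 : ℤ) = kv w g e 1) (h2 : (k2 : ℤ) = kv w g e 2) (h3 : (k3 : ℤ) = kv w g e 3)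
    (h4 : (k4 : ℤ) = kv w g e 4) (hs : ks = 32768 * (1 + k0 + k1 + k2 + k3 + k4)) (n : ℕ) :
    Rep w g e y (dd 1 1) (affK k0 k1 k2 k3 k4 ks n) (affR n y) 196608 := by
  have a0 := (Rep.sg (w := w) (g := g) (e := e) (y := y) n 0).up (Nat.zero_le 1) (Nat.zero_le 1)
    le_rfl
  have a1 := ((Rep.sg (w := w) (g := g) (e := e) (y := y) n 1).mulD
    (Rep.t (w := w) (g := g) (e := e) (y := y) 0 (by decide))).up (c' := 1) (h' := 1) (by norm_num)
    (by norm_num) le_rfl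
  have a2 := ((Rep.sg (w := w) (g := g) (e := e) (y := y) n 2).mulD
    (Rep.t (w := w) (g := g) (e := e) (y := y) 1 (by decide))).up (c' := 1) (h' := 1) (by norm_num)
    (by norm_num) le_rfl
  have a3 := ((Rep.sg (w := w) (g := g) (e := e) (y := y) n 3).mulD
    (Rep.s (w := w) (g := g) (e := e) (y := y) 4 (by decide))).up (c' := 1) (h' := 1) (by norm_num)
    (by norm_num) le_rfl
  have a4 := ((Rep.sg (w := w) (g := g) (e := e) (y := y) n 4).mulD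
    (Rep.s (w := w) (g := g) (e := e) (y := y) 3 (by decide))).up (c' := 1) (h' := 1) (by norm_num)
    (by norm_num) le_rfl
  have a5 := ((Rep.sg (w := w) (g := g) (e := e) (y := y) n 5).mulD
    (Rep.s (w := w) (g := g) (e := e) (y := y) 2 (by decide))).up (c' := 1) (h' := 1) (by norm_num)
    (by norm_num) le_rfl
  have a := ((((a0.add a1).add a2).add a3).add a4).add a5
  have e1 : affK k0 k1 k2 k3 k4 ks n = ((d16 n 0 : ℤ) - 32768) + ((d16 n 1 : ℤ) - 32768) *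
      kv w g e 0 + ((d16 n 2 : ℤ) - 32768) * kv w g e 1 + ((d16 n 3 : ℤ) - 32768) * kv w g e 4 +
      ((d16 n 4 : ℤ) - 32768) * kv w g e 3 + ((d16 n 5 : ℤ) - 32768) * kv w g e 2 := by
    rw [← h0, ← h1, ← h2, ← h3, ← h4]
    show (((d16 n 0 + (d16 n 1 * k0 + (d16 n 2 * k1 + (d16 n 3 * k4 + (d16 n 4 * k3 +
      d16 n 5 * k2))))) : ℕ) : ℤ) - (ks : ℤ) = _
    rw [hs]
    push_cast
    ring
  rw [e1]
  exact a

/-- distance to the bias -/
def ad16 (x : ℕ) : ℕ := Nat.add (Nat.sub x 32768) (Nat.sub 32768 x)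

/-- the form is nonnegative on the box -/
def lamOK (n : ℕ) : Bool :=
  Nat.ble (Nat.add 32768 (Nat.add (ad16 (d16 n 1)) (Nat.add (ad16 (d16 n 2)) (Nat.add
    (ad16 (d16 n 3)) (Nat.add (ad16 (d16 n 4)) (ad16 (d16 n 5))))))) (d16 n 0)

theorem ad16_le (x : ℕ) {t : ℝ} (ht : |t| ≤ 1) : -(ad16 x : ℝ) ≤ ((x : ℝ) - 32768) * t := by
  have h1 : |((x : ℝ) - 32768)| = (ad16 x : ℝ) := by
    show _ = (((x - 32768) + (32768 - x) : ℕ) : ℝ)
    rcases le_total x 32768 with h | h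
    · have h' : (x : ℝ) ≤ 32768 := by exact_mod_cast h
      rw [Nat.sub_eq_zero_of_le h, abs_of_nonpos (by linarith), zero_add, Nat.cast_sub h]
      push_cast
      ring
    · have h' : (32768 : ℝ) ≤ x := by exact_mod_cast h
      rw [Nat.sub_eq_zero_of_le h, abs_of_nonneg (by linarith), add_zero, Nat.cast_sub h]
      push_cast
      ring
  have h2 : |((x : ℝ) - 32768) * t| ≤ ad16 x := by
    rw [abs_mul, h1]
    exact mul_le_of_le_one_right (Nat.cast_nonneg _) ht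
  linarith [neg_le_of_abs_le h2]

theorem lamOK_sound {n : ℕ} (h : lamOK n = true) {y : Fin 5 → ℝ} (hy : ∀ j, |y j| ≤ 1) :
    0 ≤ affR n y := by
  have h1 := Nat.le_of_ble_eq_true h
  have h2 : 32768 + (ad16 (d16 n 1) + (ad16 (d16 n 2) + (ad16 (d16 n 3) + (ad16 (d16 n 4) +
    ad16 (d16 n 5))))) ≤ d16 n 0 := h1
  have h3 : (32768 : ℝ) + (ad16 (d16 n 1) + (ad16 (d16 n 2) + (ad16 (d16 n 3) + (ad16 (d16 n 4) +
    ad16 (d16 n 5))))) ≤ d16 n 0 := by exact_mod_cast h2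
  have b1 := ad16_le (d16 n 1) (hy 0)
  have b2 := ad16_le (d16 n 2) (hy 1)
  have b3 := ad16_le (d16 n 3) (hy 4)
  have b4 := ad16_le (d16 n 4) (hy 3)
  have b5 := ad16_le (d16 n 5) (hy 2)
  unfold affR
  linarith

/-! ### constraints -/

structure ZB where
  sa : ℤ
  da : ℤ
  sb0 : ℤ
  sb1 : ℤ
  sb2 : ℤ
  db0 : ℤ
  db1 : ℤ
  db2 : ℤ
  sc : ℤ

/-- the basis of the constraint polynomials, at the Kronecker point -/
def zbK (A E α β k0 k1 k2 k3 k4 X0 X1 X2 r0 r1 r2 m : ℤ) : ZB :=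
  let a1 := Int.add α k0
  let b1 := Int.add β k1
  let AE := Int.mul (Int.mul A A) (Int.mul E E)
  let a2 := Int.mul (Int.mul a1 a1) (Int.mul E E)
  let b2 := Int.mul (Int.mul b1 b1) (Int.mul A A)
  let ab := Int.add a2 b2
  let D := Int.add AE ab
  let U0 := Int.sub AE ab
  let U1 := Int.mul (Int.mul (Int.mul 2 A) (Int.mul E E)) a1
  let U2 := Int.mul (Int.mul (Int.mul 2 E) (Int.mul A A)) b1
  let P0 := Int.add (Int.mul X0 r0) (Int.mul (Int.mul 3 r0) k4)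
  let P1 := Int.add (Int.mul X1 r1) (Int.mul (Int.mul 3 r1) k3)
  let P2 := Int.add (Int.mul X2 r2) (Int.mul (Int.mul 3 r2) k2)
  let m4 := Int.mul 4 m
  let mm := Int.mul m m
  let m2 := Int.mul 2 mm
  let D4 := Int.mul m4 D
  ⟨Int.mul D (Int.add (Int.mul 4 (Int.add (Int.mul P0 P0) (Int.add (Int.mul P1 P1)
      (Int.mul P2 P2)))) mm),
    Int.mul m4 (Int.add (Int.mul P0 U0) (Int.add (Int.mul P1 U1) (Int.mul P2 U2))),
    Int.mul D4 P0, Int.mul D4 P1, Int.mul D4 P2,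
    Int.mul m2 U0, Int.mul m2 U1, Int.mul m2 U2, Int.mul (Int.mul 4 mm) D⟩

/-- norm bounds of the basis -/
def zbB (A E α β X0 X1 X2 r0 r1 r2 m : ℕ) : ℕ :=
  let AE := Nat.mul (Nat.mul A A) (Nat.mul E E)
  let a1 := Nat.succ α
  let b1 := Nat.succ β
  let D := Nat.add AE (Nat.add (Nat.mul (Nat.mul a1 a1) (Nat.mul E E))
    (Nat.mul (Nat.mul b1 b1) (Nat.mul A A)))
  let U1 := Nat.mul (Nat.mul (Nat.mul 2 A) (Nat.mul E E)) a1
  let U2 := Nat.mul (Nat.mul (Nat.mul 2 E) (Nat.mul A A)) b1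
  let P0 := Nat.mul (Nat.add X0 3) r0
  let P1 := Nat.mul (Nat.add X1 3) r1
  let P2 := Nat.mul (Nat.add X2 3) r2
  let m4 := Nat.mul 4 m
  let mm := Nat.mul m m
  let m2 := Nat.mul 2 mm
  let D4 := Nat.mul m4 D
  Nat.add (Nat.mul D (Nat.add (Nat.mul 4 (Nat.add (Nat.mul P0 P0) (Nat.add (Nat.mul P1 P1)
      (Nat.mul P2 P2)))) mm))
    (Nat.add (Nat.mul m4 (Nat.add (Nat.mul P0 D) (Nat.add (Nat.mul P1 U1) (Nat.mul P2 U2))))
    (Nat.add (Nat.mul D4 (Nat.add P0 (Nat.add P1 P2)))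
    (Nat.add (Nat.mul m2 (Nat.add D (Nat.add U1 U2))) (Nat.mul (Nat.mul 4 mm) D))))

/-- the nine representations -/
structure ZRep (w g e : ℕ) (y : Fin 5 → ℝ) (z : ZB) (F : ℝ) (u0 u1 u2 p0 p1 p2 : ℝ) (b : ℕ) :
    Prop where
  sa : Rep w g e y (dd 2 2) z.sa (F * (p0 ^ 2 + p1 ^ 2 + p2 ^ 2 + 1 / 4)) b
  da : Rep w g e y (dd 2 2) z.da (F * (p0 * u0 + p1 * u1 + p2 * u2)) b
  sb0 : Rep w g e y (dd 2 1) z.sb0 (F * p0) b
  sb1 : Rep w g e y (dd 2 1) z.sb1 (F * p1) b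
  sb2 : Rep w g e y (dd 2 1) z.sb2 (F * p2) b
  db0 : Rep w g e y (dd 2 1) z.db0 (F * (u0 / 2)) b
  db1 : Rep w g e y (dd 2 1) z.db1 (F * (u1 / 2)) b
  db2 : Rep w g e y (dd 2 1) z.db2 (F * (u2 / 2)) b
  sc : Rep w g e y (dd 2 1) z.sc F b

/-- the constraint at the Kronecker point -/
def conZ (z : ZB) (v : Cv) : ℤ :=
  Int.add (Int.mul v.sa z.sa) (Int.add (Int.mul v.da z.da) (Int.add (Int.mul v.sb0 z.sb0)
    (Int.add (Int.mul v.sb1 z.sb1) (Int.add (Int.mul v.sb2 z.sb2) (Int.add (Int.mul v.db0 z.db0)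
    (Int.add (Int.mul v.db1 z.db1) (Int.add (Int.mul v.db2 z.db2) (Int.mul v.sc z.sc))))))))

def cabs (v : Cv) : ℕ :=
  v.sa.natAbs + (v.da.natAbs + (v.sb0.natAbs + (v.sb1.natAbs + (v.sb2.natAbs + (v.db0.natAbs +
    (v.db1.natAbs + (v.db2.natAbs + v.sc.natAbs)))))))

theorem ZRep.con {w g e : ℕ} {y : Fin 5 → ℝ} {z : ZB} {F u0 u1 u2 p0 p1 p2 : ℝ} {b : ℕ}
    (h : ZRep w g e y z F u0 u1 u2 p0 p1 p2 b) (v : Cv) :
    Rep w g e y (dd 2 2) (conZ z v) (F * v.val u0 u1 u2 p0 p1 p2) (cabs v * b) := by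
  have a := (h.sa.smul v.sa).add ((h.da.smul v.da).add (((h.sb0.smul v.sb0).add
    ((h.sb1.smul v.sb1).add ((h.sb2.smul v.sb2).add ((h.db0.smul v.db0).add
    ((h.db1.smul v.db1).add ((h.db2.smul v.db2).add (h.sc.smul v.sc))))))).up (c' := 2) (h' := 2)
    le_rfl (by norm_num) le_rfl))
  have e1 : cabs v * b = v.sa.natAbs * b + (v.da.natAbs * b + (v.sb0.natAbs * b +
      (v.sb1.natAbs * b + (v.sb2.natAbs * b + (v.db0.natAbs * b + (v.db1.natAbs * b +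
      (v.db2.natAbs * b + v.sc.natAbs * b))))))) := by
    unfold cabs
    ring
  have e2 : F * v.val u0 u1 u2 p0 p1 p2 = v.sa * (F * (p0 ^ 2 + p1 ^ 2 + p2 ^ 2 + 1 / 4)) +
      (v.da * (F * (p0 * u0 + p1 * u1 + p2 * u2)) + (v.sb0 * (F * p0) + (v.sb1 * (F * p1) +
      (v.sb2 * (F * p2) + (v.db0 * (F * (u0 / 2)) + (v.db1 * (F * (u1 / 2)) +
      (v.db2 * (F * (u2 / 2)) + v.sc * F))))))) := by
    unfold Cv.val
    ring
  rw [e1, e2]
  exact a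

theorem Rep.nat {w g e : ℕ} {y : Fin 5 → ℝ} (n : ℕ) : Rep w g e y (dd 0 0) (n : ℤ) (n : ℝ) n := by
  have h := Rep.int (w := w) (g := g) (e := e) (y := y) (n : ℤ)
  rw [Int.natAbs_natCast, Int.cast_natCast] at h
  exact h

/-- **the basis is right** -/
theorem zb_rep0 {w g e : ℕ} (A E α β r0 r1 r2 m : ℕ) (X0 X1 X2 : ℤ) {y : Fin 5 → ℝ}
    {a b p0 p1 p2 F u0 u1 u2 : ℝ} (ha : a * A = α + y 0) (hb : b * E = β + y 1)
    (hx : p0 * m = X0 * r0 + 3 * r0 * y 4) (hy : p1 * m = X1 * r1 + 3 * r1 * y 3)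
    (hz : p2 * m = X2 * r2 + 3 * r2 * y 2)
    (hF : F = A ^ 2 * E ^ 2 * (4 * m ^ 2) * (1 + a ^ 2 + b ^ 2))
    (hu0 : (1 + a ^ 2 + b ^ 2) * u0 = 1 - a ^ 2 - b ^ 2) (hu1 : (1 + a ^ 2 + b ^ 2) * u1 = 2 * a)
    (hu2 : (1 + a ^ 2 + b ^ 2) * u2 = 2 * b) :
    ZRep w g e y (zbK A E α β (kv w g e 0) (kv w g e 1) (kv w g e 2) (kv w g e 3) (kv w g e 4)
      X0 X1 X2 r0 r1 r2 m) F u0 u1 u2 p0 p1 p2
      (zbB A E α β X0.natAbs X1.natAbs X2.natAbs r0 r1 r2 m) := by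
  have n2 : Rep w g e y (dd 0 0) (2 : ℤ) (2 : ℝ) 2 := by exact_mod_cast Rep.nat (w := w) (g := g) (e := e) (y := y) 2
  have n3 : Rep w g e y (dd 0 0) (3 : ℤ) (3 : ℝ) 3 := by exact_mod_cast Rep.nat (w := w) (g := g) (e := e) (y := y) 3
  have n4 : Rep w g e y (dd 0 0) (4 : ℤ) (4 : ℝ) 4 := by exact_mod_cast Rep.nat (w := w) (g := g) (e := e) (y := y) 4
  have rA : Rep w g e y (dd 0 0) (A : ℤ) (A : ℝ) A := Rep.nat A
  have rE : Rep w g e y (dd 0 0) (E : ℤ) (E : ℝ) E := Rep.nat E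
  have rm : Rep w g e y (dd 0 0) (m : ℤ) (m : ℝ) m := Rep.nat m
  have a1 : Rep w g e y (dd 1 0) ((α : ℤ) + kv w g e 0) (α + y 0) (α + 1) :=
    ((Rep.nat α).up (Nat.zero_le 1) le_rfl le_rfl).add (Rep.t 0 (by decide))
  have b1 : Rep w g e y (dd 1 0) ((β : ℤ) + kv w g e 1) (β + y 1) (β + 1) :=
    ((Rep.nat β).up (Nat.zero_le 1) le_rfl le_rfl).add (Rep.t 1 (by decide))
  have AE : Rep w g e y (dd 0 0) ((A : ℤ) * A * (E * E)) ((A : ℝ) * A * (E * E)) (A * A * (E * E)) :=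
    (rA.mulD rA).mulD (rE.mulD rE)
  have a2 : Rep w g e y (dd 2 0) (((α : ℤ) + kv w g e 0) * (α + kv w g e 0) * (E * E))
      (((α : ℝ) + y 0) * (α + y 0) * (E * E)) ((α + 1) * (α + 1) * (E * E)) :=
    (a1.mulD a1).mulD (rE.mulD rE)
  have b2 : Rep w g e y (dd 2 0) (((β : ℤ) + kv w g e 1) * (β + kv w g e 1) * (A * A))
      (((β : ℝ) + y 1) * (β + y 1) * (A * A)) ((β + 1) * (β + 1) * (A * A)) :=
    (b1.mulD b1).mulD (rA.mulD rA)
  have ab := a2.add b2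
  have AE' := AE.up (c' := 2) (Nat.zero_le 2) le_rfl le_rfl
  have D := AE'.add ab
  have U0 := AE'.sub ab
  have U1 : Rep w g e y (dd 1 0) ((2 : ℤ) * A * (E * E) * (α + kv w g e 0))
      ((2 : ℝ) * A * (E * E) * (α + y 0)) (2 * A * (E * E) * (α + 1)) :=
    ((n2.mulD rA).mulD (rE.mulD rE)).mulD a1
  have U2 : Rep w g e y (dd 1 0) ((2 : ℤ) * E * (A * A) * (β + kv w g e 1))
      ((2 : ℝ) * E * (A * A) * (β + y 1)) (2 * E * (A * A) * (β + 1)) :=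
    ((n2.mulD rE).mulD (rA.mulD rA)).mulD b1
  have P : ∀ (X : ℤ) (r : ℕ) (j : Fin 5), j = 2 ∨ j = 3 ∨ j = 4 →
      Rep w g e y (dd 0 1) (X * r + 3 * r * kv w g e j) (X * r + 3 * r * y j)
        ((X.natAbs + 3) * r) := by
    intro X r j hj
    have h1 := (((Rep.int (w := w) (g := g) (e := e) (y := y) X).mulD (Rep.nat r)).up
      (c' := 0) (h' := 1) le_rfl (by norm_num) le_rfl).add ((n3.mulD (Rep.nat r)).mulD (Rep.s j hj))
    exact h1.up le_rfl le_rfl (by rw [mul_one, Nat.add_mul])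
  have P0 := P X0 r0 4 (by decide)
  have P1 := P X1 r1 3 (by decide)
  have P2 := P X2 r2 2 (by decide)
  have m4 := n4.mulD rm
  have mm := rm.mulD rm
  have m2 := n2.mulD mm
  have D4 := m4.mulD D
  have hD : (A : ℝ) * A * (E * E) + (((α : ℝ) + y 0) * (α + y 0) * (E * E) +
      ((β : ℝ) + y 1) * (β + y 1) * (A * A)) = A ^ 2 * E ^ 2 * (1 + a ^ 2 + b ^ 2) := by
    rw [← ha, ← hb]
    ring
  have hU0 : (A : ℝ) * A * (E * E) - (((α : ℝ) + y 0) * (α + y 0) * (E * E) +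
      ((β : ℝ) + y 1) * (β + y 1) * (A * A)) = A ^ 2 * E ^ 2 * ((1 + a ^ 2 + b ^ 2) * u0) := by
    rw [← ha, ← hb, hu0]
    ring
  have hU1 : (2 : ℝ) * A * (E * E) * (α + y 0) = A ^ 2 * E ^ 2 * ((1 + a ^ 2 + b ^ 2) * u1) := by
    rw [← ha, hu1]
    ring
  have hU2 : (2 : ℝ) * E * (A * A) * (β + y 1) = A ^ 2 * E ^ 2 * ((1 + a ^ 2 + b ^ 2) * u2) := by
    rw [← hb, hu2]
    ring
  constructor
  · have r := D.mulD ((n4.mulD (((P0.mulD P0).add ((P1.mulD P1).add (P2.mulD P2))))).add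
      (mm.up (c' := 0) (h' := 2) le_rfl (Nat.zero_le 2) le_rfl))
    rw [hD, ← hx, ← hy, ← hz] at r
    have e1 : (A : ℝ) ^ 2 * E ^ 2 * (1 + a ^ 2 + b ^ 2) * (4 * (p0 * m * (p0 * m) +
        (p1 * m * (p1 * m) + p2 * m * (p2 * m))) + m * m) =
        F * (p0 ^ 2 + p1 ^ 2 + p2 ^ 2 + 1 / 4) := by
      rw [hF]; ring
    rw [e1] at r
    exact r.up le_rfl le_rfl (Nat.le_add_right _ _)
  · have r := m4.mulD ((P0.mulD U0).add (((P1.mulD U1).up (c' := 2) (h' := 1) (by norm_num)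
      (by norm_num) le_rfl).add ((P2.mulD U2).up (c' := 2) (h' := 1) (by norm_num)
      (by norm_num) le_rfl)))
    rw [hU0, hU1, hU2, ← hx, ← hy, ← hz] at r
    have e1 : (4 : ℝ) * m * (p0 * m * (A ^ 2 * E ^ 2 * ((1 + a ^ 2 + b ^ 2) * u0)) +
        (p1 * m * (A ^ 2 * E ^ 2 * ((1 + a ^ 2 + b ^ 2) * u1)) +
        p2 * m * (A ^ 2 * E ^ 2 * ((1 + a ^ 2 + b ^ 2) * u2)))) =
        F * (p0 * u0 + p1 * u1 + p2 * u2) := by
      rw [hF]; ring
    rw [e1] at r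
    exact r.up (by norm_num) (by norm_num) ((Nat.le_add_right _ _).trans (Nat.le_add_left _ _))
  · have r := D4.mulD P0
    rw [hD, ← hx] at r
    have e1 : (4 : ℝ) * m * (A ^ 2 * E ^ 2 * (1 + a ^ 2 + b ^ 2)) * (p0 * m) = F * p0 := by
      rw [hF]; ring
    rw [e1] at r
    refine r.up (by norm_num) (by norm_num) ?_
    refine le_trans ?_ ((Nat.le_add_right _ _).trans ((Nat.le_add_left _ _).trans
      (Nat.le_add_left _ _)))
    exact Nat.mul_le_mul_left _ (Nat.le_add_right _ _)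
  · have r := D4.mulD P1
    rw [hD, ← hy] at r
    have e1 : (4 : ℝ) * m * (A ^ 2 * E ^ 2 * (1 + a ^ 2 + b ^ 2)) * (p1 * m) = F * p1 := by
      rw [hF]; ring
    rw [e1] at r
    refine r.up (by norm_num) (by norm_num) ?_
    refine le_trans ?_ ((Nat.le_add_right _ _).trans ((Nat.le_add_left _ _).trans
      (Nat.le_add_left _ _)))
    exact Nat.mul_le_mul_left _ ((Nat.le_add_right _ _).trans (Nat.le_add_left _ _))
  · have r := D4.mulD P2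
    rw [hD, ← hz] at r
    have e1 : (4 : ℝ) * m * (A ^ 2 * E ^ 2 * (1 + a ^ 2 + b ^ 2)) * (p2 * m) = F * p2 := by
      rw [hF]; ring
    rw [e1] at r
    refine r.up (by norm_num) (by norm_num) ?_
    refine le_trans ?_ ((Nat.le_add_right _ _).trans ((Nat.le_add_left _ _).trans
      (Nat.le_add_left _ _)))
    exact Nat.mul_le_mul_left _ ((Nat.le_add_left _ _).trans (Nat.le_add_left _ _))
  · have r := m2.mulD U0
    rw [hU0] at r
    have e1 : (2 : ℝ) * (m * m) * (A ^ 2 * E ^ 2 * ((1 + a ^ 2 + b ^ 2) * u0)) = F * (u0 / 2) := by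
      rw [hF]; ring
    rw [e1] at r
    refine r.up (by norm_num) (by norm_num) ?_
    refine le_trans ?_ ((Nat.le_add_right _ _).trans ((Nat.le_add_left _ _).trans
      ((Nat.le_add_left _ _).trans (Nat.le_add_left _ _))))
    exact Nat.mul_le_mul_left _ (Nat.le_add_right _ _)
  · have r := m2.mulD U1
    rw [hU1] at r
    have e1 : (2 : ℝ) * (m * m) * (A ^ 2 * E ^ 2 * ((1 + a ^ 2 + b ^ 2) * u1)) = F * (u1 / 2) := by
      rw [hF]; ring
    rw [e1] at r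
    refine r.up (by norm_num) (by norm_num) ?_
    refine le_trans ?_ ((Nat.le_add_right _ _).trans ((Nat.le_add_left _ _).trans
      ((Nat.le_add_left _ _).trans (Nat.le_add_left _ _))))
    exact Nat.mul_le_mul_left _ ((Nat.le_add_right _ _).trans (Nat.le_add_left _ _))
  · have r := m2.mulD U2
    rw [hU2] at r
    have e1 : (2 : ℝ) * (m * m) * (A ^ 2 * E ^ 2 * ((1 + a ^ 2 + b ^ 2) * u2)) = F * (u2 / 2) := by
      rw [hF]; ring
    rw [e1] at r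
    refine r.up (by norm_num) (by norm_num) ?_
    refine le_trans ?_ ((Nat.le_add_right _ _).trans ((Nat.le_add_left _ _).trans
      ((Nat.le_add_left _ _).trans (Nat.le_add_left _ _))))
    exact Nat.mul_le_mul_left _ ((Nat.le_add_left _ _).trans (Nat.le_add_left _ _))
  · have r := (n4.mulD mm).mulD D
    rw [hD] at r
    have e1 : (4 : ℝ) * (m * m) * (A ^ 2 * E ^ 2 * (1 + a ^ 2 + b ^ 2)) = F := by
      rw [hF]; ring
    rw [e1] at r
    refine r.up (by norm_num) (by norm_num) ?_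
    exact (Nat.le_add_left _ _).trans ((Nat.le_add_left _ _).trans ((Nat.le_add_left _ _).trans
      (Nat.le_add_left _ _)))

theorem zb_rep {w g e : ℕ} {c : UC} {B : PB} {a b x y z : ℝ} {t : ℕ → ℝ}
    (h : Loc c B a b x y z t) :
    ZRep w g e (yv t) (zbK ((2 ^ (c.qa + 1) : ℕ) : ℤ) ((2 ^ (c.qb + 1) : ℕ) : ℤ)
      ((2 * c.i + 1 : ℕ) : ℤ) ((2 * c.j + 1 : ℕ) : ℤ)
      (kv w g e 0) (kv w g e 1) (kv w g e 2) (kv w g e 3) (kv w g e 4) B.X0 B.X1 B.X2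
      ((2 ^ (B.m1 + B.m2) : ℕ) : ℤ) ((2 ^ (B.m0 + B.m2) : ℕ) : ℤ) ((2 ^ (B.m0 + B.m1) : ℕ) : ℤ)
      ((2 ^ (B.m0 + B.m1 + B.m2) : ℕ) : ℤ))
      (scl c B * chD a b) (ch0 a b) (ch1 a b) (ch2 a b) x y z
      (zbB (2 ^ (c.qa + 1)) (2 ^ (c.qb + 1)) (2 * c.i + 1) (2 * c.j + 1)
        B.X0.natAbs B.X1.natAbs B.X2.natAbs
        (2 ^ (B.m1 + B.m2)) (2 ^ (B.m0 + B.m2)) (2 ^ (B.m0 + B.m1)) (2 ^ (B.m0 + B.m1 + B.m2))) := by
  have hD := (chD_pos a b).ne'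
  obtain ⟨ha, hb, hx, hy, hz, _⟩ := h
  have e4 : yv t 4 = t 2 := rfl
  have e3 : yv t 3 = t 3 := rfl
  have e2 : yv t 2 = t 4 := rfl
  have e1 : yv t 1 = t 1 := rfl
  have e0 : yv t 0 = t 0 := rfl
  refine zb_rep0 (a := a) (b := b) _ _ _ _ _ _ _ _ _ _ _ ?_ ?_ ?_ ?_ ?_ ?_ ?_ ?_ ?_
  · rw [e0]; push_cast; exact ha
  · rw [e1]; push_cast; exact hb
  · rw [e4]
    push_cast
    simp only [pow_add]
    linear_combination (2 ^ B.m1 * 2 ^ B.m2 : ℝ) * hx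
  · rw [e3]
    push_cast
    simp only [pow_add]
    linear_combination (2 ^ B.m0 * 2 ^ B.m2 : ℝ) * hy
  · rw [e2]
    push_cast
    simp only [pow_add]
    linear_combination (2 ^ B.m0 * 2 ^ B.m1 : ℝ) * hz
  · unfold scl chD
    push_cast
    ring
  · show chD a b * ch0 a b = _
    unfold ch0; field_simp
  · show chD a b * ch1 a b = _
    unfold ch1; field_simp
  · show chD a b * ch2 a b = _
    unfold ch2; field_simp

end Pool.Agent.Helper45.TOP
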