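import Pool.Agent.Helper45.TOP.KrT

/-!
# Project TOP: the leaf (format K4)

Data of a leaf = one natural number, 12-bit digits: `κ` (2 digits), two unused digits,
`kp, kc, ks, nm, nm2, ns, nb, s11, s12, s21, s22`, then the blocks.
-/

set_option autoImplicit false

namespace Pool.Agent.Helper45.TOP
open Helper10.PC Pool.Agent.Helper6.TOP

/-! ### real lemmas -/

theorem two_form {r1 r2 n : ℝ} (h1 : 0 < r1) (hn : n ^ 2 ≤ r1 * r2) (x y : ℝ) :
    0 ≤ r1 * x ^ 2 + r2 * y ^ 2 - 2 * n * (x * y) := by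
  have h : 0 ≤ r1 * (r1 * x ^ 2 + r2 * y ^ 2 - 2 * n * (x * y)) := by
    have e : r1 * (r1 * x ^ 2 + r2 * y ^ 2 - 2 * n * (x * y)) =
      (r1 * x - n * y) ^ 2 + (r1 * r2 - n ^ 2) * y ^ 2 := by ring
    rw [e]
    have := mul_nonneg (sub_nonneg.2 hn) (sq_nonneg y)
    positivity
  exact (mul_nonneg_iff_of_pos_left h1).1 h

theorem mat_final {p11 p12 p22 f11 f12 f22 κ s11 s12 s21 s22 err q11 q12 q22 ρ1 ρ2 n0 : ℝ}
    (hκ : 0 < κ) (hdet : s11 * s22 - s12 * s21 ≠ 0)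
    (h11 : ρ1 ≤ κ * (s11 ^ 2 * p11 + 2 * s11 * s21 * p12 + s21 ^ 2 * p22) - q11)
    (h22 : ρ2 ≤ κ * (s12 ^ 2 * p11 + 2 * s12 * s22 * p12 + s22 ^ 2 * p22) - q22)
    (h12 : |κ * (s11 * s12 * p11 + (s11 * s22 + s12 * s21) * p12 + s21 * s22 * p22) - q12| ≤ n0)
    (hq : ∀ w1 w2 : ℝ, 0 ≤ q11 * w1 ^ 2 + 2 * q12 * (w1 * w2) + q22 * w2 ^ 2)
    (e11 : |f11 - p11| ≤ err) (e12 : |f12 - p12| ≤ err) (e22 : |f22 - p22| ≤ err)
    (hr1 : 0 < ρ1 - κ * (|s11| + |s21|) ^ 2 * err)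
    (hr : (n0 + κ * ((|s11| + |s21|) * (|s12| + |s22|)) * err) ^ 2 ≤
      (ρ1 - κ * (|s11| + |s21|) ^ 2 * err) * (ρ2 - κ * (|s12| + |s22|) ^ 2 * err)) (v1 v2 : ℝ) :
    0 ≤ f11 * v1 ^ 2 + 2 * f12 * (v1 * v2) + f22 * v2 ^ 2 := by
  obtain ⟨w1, w2, hv1, hv2⟩ : ∃ w1 w2 : ℝ, v1 = s11 * w1 + s12 * w2 ∧ v2 = s21 * w1 + s22 * w2 := by
    refine ⟨(s22 * v1 - s12 * v2) / (s11 * s22 - s12 * s21),
      (s11 * v2 - s21 * v1) / (s11 * s22 - s12 * s21), ?_, ?_⟩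
    · rw [mul_div_assoc', mul_div_assoc', ← add_div, eq_div_iff hdet]
      ring
    · rw [mul_div_assoc', mul_div_assoc', ← add_div, eq_div_iff hdet]
      ring
  have herr : 0 ≤ err := (abs_nonneg _).trans e11
  set σ1 := |s11| + |s21| with hσ1
  set σ2 := |s12| + |s22| with hσ2
  -- the errors
  have hv : |v1| + |v2| ≤ σ1 * |w1| + σ2 * |w2| := by
    have a1 : |v1| ≤ |s11| * |w1| + |s12| * |w2| := by
      rw [hv1, ← abs_mul, ← abs_mul]
      exact abs_add_le _ _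
    have a2 : |v2| ≤ |s21| * |w1| + |s22| * |w2| := by
      rw [hv2, ← abs_mul, ← abs_mul]
      exact abs_add_le _ _
    rw [hσ1, hσ2]
    linarith
  have hE : -(err * (σ1 * |w1| + σ2 * |w2|) ^ 2) ≤
      (f11 - p11) * v1 ^ 2 + 2 * (f12 - p12) * (v1 * v2) + (f22 - p22) * v2 ^ 2 := by
    have b1 : -(err * v1 ^ 2) ≤ (f11 - p11) * v1 ^ 2 := by
      have := (abs_le.1 e11).1
      nlinarith [sq_nonneg v1]
    have b2 : -(err * v2 ^ 2) ≤ (f22 - p22) * v2 ^ 2 := by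
      have := (abs_le.1 e22).1
      nlinarith [sq_nonneg v2]
    have b3 : -(err * (|v1| * |v2|)) ≤ (f12 - p12) * (v1 * v2) := by
      have h1 : |(f12 - p12) * (v1 * v2)| ≤ err * (|v1| * |v2|) := by
        rw [abs_mul, abs_mul v1]
        exact mul_le_mul_of_nonneg_right e12 (by positivity)
      exact neg_le_of_abs_le h1
    have b4 : (|v1| + |v2|) ^ 2 ≤ (σ1 * |w1| + σ2 * |w2|) ^ 2 :=
      pow_le_pow_left₀ (by positivity) hv 2
    have b5 := mul_le_mul_of_nonneg_left b4 herr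
    have b6 : (|v1| + |v2|) ^ 2 = v1 ^ 2 + v2 ^ 2 + 2 * (|v1| * |v2|) := by
      rw [add_sq, sq_abs, sq_abs]
      ring
    rw [b6] at b5
    linarith
  -- the main part
  have hM : κ * (p11 * v1 ^ 2 + 2 * p12 * (v1 * v2) + p22 * v2 ^ 2) =
      κ * (s11 ^ 2 * p11 + 2 * s11 * s21 * p12 + s21 ^ 2 * p22) * w1 ^ 2 +
      2 * (κ * (s11 * s12 * p11 + (s11 * s22 + s12 * s21) * p12 + s21 * s22 * p22)) * (w1 * w2) +
      κ * (s12 ^ 2 * p11 + 2 * s12 * s22 * p12 + s22 ^ 2 * p22) * w2 ^ 2 := by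
    rw [hv1, hv2]
    ring
  have hw : |w1 * w2| = |w1| * |w2| := abs_mul _ _
  have m1 := mul_le_mul_of_nonneg_right h11 (sq_nonneg w1)
  have m2 := mul_le_mul_of_nonneg_right h22 (sq_nonneg w2)
  have m3 : -(n0 * (|w1| * |w2|)) ≤ (κ * (s11 * s12 * p11 + (s11 * s22 + s12 * s21) * p12 +
      s21 * s22 * p22) - q12) * (w1 * w2) := by
    have h1 : |(κ * (s11 * s12 * p11 + (s11 * s22 + s12 * s21) * p12 + s21 * s22 * p22) - q12) *
        (w1 * w2)| ≤ n0 * (|w1| * |w2|) := by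
      rw [abs_mul, hw]
      exact mul_le_mul_of_nonneg_right h12 (by positivity)
    exact neg_le_of_abs_le h1
  have m4 := hq w1 w2
  have m5 := two_form hr1 hr |w1| |w2|
  have m6 : κ * (err * (σ1 * |w1| + σ2 * |w2|) ^ 2) = κ * σ1 ^ 2 * err * w1 ^ 2 +
      κ * σ2 ^ 2 * err * w2 ^ 2 + 2 * (κ * (σ1 * σ2) * err) * (|w1| * |w2|) := by
    have e1 : w1 ^ 2 = |w1| ^ 2 := (sq_abs w1).symm
    have e2 : w2 ^ 2 = |w2| ^ 2 := (sq_abs w2).symm
    rw [e1, e2]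
    ring
  rw [sq_abs, sq_abs] at m5
  have m7 := mul_le_mul_of_nonneg_left hE hκ.le
  have m8 : 0 ≤ κ * (f11 * v1 ^ 2 + 2 * f12 * (v1 * v2) + f22 * v2 ^ 2) := by
    have e1 : κ * (f11 * v1 ^ 2 + 2 * f12 * (v1 * v2) + f22 * v2 ^ 2) =
      κ * (p11 * v1 ^ 2 + 2 * p12 * (v1 * v2) + p22 * v2 ^ 2) +
      κ * ((f11 - p11) * v1 ^ 2 + 2 * (f12 - p12) * (v1 * v2) + (f22 - p22) * v2 ^ 2) := by ring
    rw [e1, hM]
    rw [mul_neg, m6] at m7
    linarith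
  exact (mul_nonneg_iff_of_pos_left hκ).1 m8


section
variable {v g e : ℕ} {y : Fin 5 → ℝ} {F u0 u1 u2 p0 p1 p2 : ℝ} {bz : ℕ} {z : ZB}

/-- **the minimum over the states** -/
theorem minS_avg (hL : layOK v g e = true) (hz : ZRep (v + 1) g e y z F u0 u1 u2 p0 p1 p2 bz)
    (hg : 4 < g) (hy : ∀ j, |y j| ≤ 1) {cm : ℕ} {row0 : List Cv} {rows : List (List Cv)}
    (hcm : ∀ row ∈ rows, cmOK cm row = true) (heq : ∀ row ∈ rows, eqR row row0 = true)
    {h : ℕ} (h4 : 4 ≤ h) (he : h < e)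
    {N0 : ℤ} {f0 : ℝ} {b0 : ℕ} (h0 : Rep (v + 1) g e y (dd 4 h) N0 f0 b0) {ls : List (ℕ × ℕ)}
    (hls : ∀ x ∈ ls, 0 ≤ frmR x.2 y) {kc : ℕ}
    (hb : b0 + 2 ^ kc * (ls.length * (43008 * (cm * bz))) < 2 ^ v)
    (hr : 0 < minS (mkLay v g e) v z row0 ls kc
      (Int.add N0 (shI kc (tZ (mkLay v g e) z row0 ls))) rows)
    {ι : Type} {V : List ι} {θ : ι → ℝ} {row : ι → List Cv} (hV : V.map row = rows)
    (hF : 0 ≤ F) (hθ : ∀ v ∈ V, 0 ≤ θ v) (hθ1 : (V.map θ).sum = 1)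
    (hC : ∀ j, (V.map fun v => θ v * (nthC (row v) j).val u0 u1 u2 p0 p1 p2).sum ≤ 0) :
    (minS (mkLay v g e) v z row0 ls kc
      (Int.add N0 (shI kc (tZ (mkLay v g e) z row0 ls))) rows : ℝ) ≤ f0 := by
  set r := minS (mkLay v g e) v z row0 ls kc
      (Int.add N0 (shI kc (tZ (mkLay v g e) z row0 ls))) rows with hrd
  have key : ∀ a ∈ V, (r : ℝ) ≤ f0 + 2 ^ kc * tR y F u0 u1 u2 p0 p1 p2 (row a) ls := by
    intro a ha
    have hmem : row a ∈ rows := by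
      rw [← hV]; exact List.mem_map_of_mem ha
    have h1 := minS_le (mkLay v g e) v z row0 ls kc
      (Int.add N0 (shI kc (tZ (mkLay v g e) z row0 ls))) rows (row a) hmem
    have e1 : Int.add (Int.add N0 (shI kc (tZ (mkLay v g e) z row0 ls)))
        (shI kc (tD (mkLay v g e) z (row a) row0 ls)) =
        N0 + 2 ^ kc * tZ (mkLay v g e) z (row a) ls := by
      show N0 + shI kc (tZ (mkLay v g e) z row0 ls) + shI kc (tD (mkLay v g e) z (row a) row0 ls) = _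
      rw [shI_eq, shI_eq, tD_eq _ _ (heq _ hmem)]
      ring
    rw [e1] at h1
    have h2 := (tZ_rep hL hz (hcm _ hmem) ls)
    have h3 := (Rep.nat (w := v + 1) (g := g) (e := e) (y := y) (2 ^ kc)).mulD h2
    have h5 := h0.add (h3.up (c' := 4) (h' := h) (by norm_num) (by omega) le_rfl)
    have e2 : ((2 ^ kc : ℕ) : ℤ) = 2 ^ kc := by push_cast; rfl
    have e3 : ((2 ^ kc : ℕ) : ℝ) = 2 ^ kc := by push_cast; rfl
    rw [e2, e3] at h5
    have h6 := low_sound h5 hg he hb hy (lt_of_lt_of_le hr h1)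
    exact le_trans (by exact_mod_cast h1) h6
  have a1 := avg hθ key
  rw [hθ1, one_mul, one_mul, avg_mul] at a1
  have a2 := tR_avg (y := y) (θ := θ) (row := row) (V := V) hF hC ls hls
  have a3 : (0 : ℝ) ≤ 2 ^ kc := by positivity
  nlinarith [mul_nonpos_of_nonneg_of_nonpos a3 a2]

end

/-! ### the checker -/

/-- conjunction -/
noncomputable def andB (a b : Bool) : Bool := Bool.rec (motive := fun _ => Bool) false b a

theorem andB_true {a b : Bool} (h : andB a b = true) : a = true ∧ b = true := by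
  cases a
  · exact Bool.noConfusion h
  · exact ⟨rfl, h⟩

/-- header digit at bit `s` -/
def hd (n s : ℕ) : ℕ := Nat.mod (Nat.shiftRight n s) 4096

/-- signed header digit -/
def hs (n s : ℕ) : ℤ :=
  (fun d => Int.sub (Int.ofNat d) (Int.ofNat (Nat.mul 2 (Nat.land d 2048)))) (hd n s)

/-- environment of a leaf -/
structure Env where
  L : Lay
  v : ℕ
  g : ℕ
  e : ℕ
  cm : ℕ
  row0 : List Cv
  rows : List (List Cv)
  z : ZB
  bz : ℕ
  nb : ℕ
  err : ℕ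

/-- an out leaf of a scalar tree -/
noncomputable def leafOS (E : Env) (n : ℕ) : Bool :=
  (fun kc ks nm ns => andB
    (Nat.blt (Nat.add (Nat.mul (Nat.pow 2 ks) (Nat.mul ns WB))
      (Nat.mul (Nat.pow 2 kc) (Nat.mul nm (Nat.mul 43008 (Nat.mul E.cm E.bz))))) (Nat.pow 2 E.v))
    (lamL E.L E.v (fun n1 ls => sqS E.L (fun _ A =>
      (fun N0 => Nat.blt 0
        (minS E.L E.v E.z E.row0 ls kc (Int.add N0 (shI kc (tZ E.L E.z E.row0 ls))) E.rows))
        (Int.sub 0 (shI ks A))) ns n1 0)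
      nm (Nat.shiftRight n 180) []))
    (hd n 60) (hd n 72) (hd n 84) (hd n 108)

/-- an out leaf of the matrix tree -/
noncomputable def leafOM (E : Env) (n : ℕ) : Bool :=
  (fun kc ks nm ns => andB
    (Nat.blt (Nat.add (Nat.mul (Nat.pow 2 ks) (Nat.mul ns WB))
      (Nat.mul (Nat.pow 2 kc) (Nat.mul nm (Nat.mul 43008 (Nat.mul E.cm E.bz))))) (Nat.pow 2 E.v))
    (lamL E.L E.v (fun n1 ls => sqA E.L (fun _ A _ _ =>
      (fun N0 => Nat.blt 0
        (minS E.L E.v E.z E.row0 ls kc (Int.add N0 (shI kc (tZ E.L E.z E.row0 ls))) E.rows))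
        (Int.sub 0 (shI ks A))) ns n1 0 0 0)
      nm (Nat.shiftRight n 180) []))
    (hd n 60) (hd n 72) (hd n 84) (hd n 108)

/-- a scalar leaf -/
noncomputable def leafS1 (E : Env) (N : ℤ) (n : ℕ) : Bool :=
  (fun κ kp kc ks nm ns nq => andB
    (Nat.blt (Nat.add (Nat.mul (Nat.mul (Nat.pow 2 kp) κ) E.nb) (Nat.add
      (Nat.mul (Nat.pow 2 ks) (Nat.mul (Nat.add ns nq) WB))
      (Nat.mul (Nat.pow 2 kc) (Nat.mul nm (Nat.mul 43008 (Nat.mul E.cm E.bz)))))) (Nat.pow 2 E.v))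
    (lamL E.L E.v (fun n1 ls => sqS E.L (fun n2 A => sqT E.L (Nat.succ E.v) E.g E.e (fun _ A =>
      (fun N0 => Nat.blt (Nat.mul (Nat.mul (Nat.pow 2 kp) κ) E.err)
        (minS E.L E.v E.z E.row0 ls kc (Int.add N0 (shI kc (tZ E.L E.z E.row0 ls))) E.rows))
        (Int.sub (shI kp (Int.mul (Int.ofNat κ) N)) (shI ks A))) nq n2 A) ns n1 0)
      nm (Nat.shiftRight n 180) []))
    (Nat.mod n 16777216) (hd n 48) (hd n 60) (hd n 72) (hd n 84) (hd n 108) (hd n 120)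

/-- **leaf of a scalar tree** (`E'` = environment of the out leaves) -/
noncomputable def leafS (E' E : Env) (N : ℤ) (n : ℕ) : Bool :=
  Nat.rec (motive := fun _ => Bool) (leafOS E' n) (fun _ _ => leafS1 E N n) (Nat.mod n 16777216)

/-- a matrix leaf -/
noncomputable def leafM1 (E : Env) (N11 N12 N22 : ℤ) (n : ℕ) : Bool :=
  (fun κ kp kc ks nm nm2 ns nq s11 s12 s21 s22 => (fun K σ1 σ2 => andB
    (andB (Nat.blt 0 (Int.natAbs (Int.sub (Int.mul s11 s22) (Int.mul s12 s21))))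
    (Nat.blt (Nat.add (Nat.mul K (Nat.mul (Nat.mul (Nat.add σ1 σ2) (Nat.add σ1 σ2)) E.nb)) (Nat.add
      (Nat.mul (Nat.pow 2 ks) (Nat.mul (Nat.add ns nq) WB))
      (Nat.mul (Nat.pow 2 kc) (Nat.mul (Nat.add nm nm2) (Nat.mul 43008 (Nat.mul E.cm E.bz))))))
      (Nat.pow 2 E.v)))
    (lamL E.L E.v (fun n1 ls => lamL E.L E.v (fun n2 ls2 => sqA E.L (fun n3 A B D =>
      sqB E.L (Nat.succ E.v) E.g E.e (fun _ A B D =>
      (fun R1 R12 R2 =>
        (fun r1 n12 r2 => (fun E1 E2 => andB (Nat.blt E1 r1) (andB (Nat.blt E2 r2)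
          (Nat.ble (Nat.mul n12 n12) (Nat.mul (Nat.sub r1 E1) (Nat.sub r2 E2)))))
          (Nat.mul (Nat.mul K (Nat.mul σ1 σ1)) E.err) (Nat.mul (Nat.mul K (Nat.mul σ2 σ2)) E.err))
          (minS E.L E.v E.z E.row0 ls kc (Int.add R1 (shI kc (tZ E.L E.z E.row0 ls))) E.rows)
          (Nat.add (nrmN E.L.H E.v R12) (Nat.mul (Nat.mul K (Nat.mul σ1 σ2)) E.err))
          (Nat.rec (motive := fun _ => ℕ) (lowN E.L.H E.v R2) (fun _ _ =>
            minS E.L E.v E.z E.row0 ls2 kc (Int.add R2 (shI kc (tZ E.L E.z E.row0 ls2))) E.rows)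
            nm2))
        (Int.sub (shI kp (Int.mul (Int.ofNat κ) (Int.add (Int.mul (Int.mul s11 s11) N11)
          (Int.add (Int.mul (Int.mul 2 (Int.mul s11 s21)) N12) (Int.mul (Int.mul s21 s21) N22)))))
          (shI ks A))
        (Int.sub (shI kp (Int.mul (Int.ofNat κ) (Int.add (Int.mul (Int.mul s11 s12) N11)
          (Int.add (Int.mul (Int.add (Int.mul s11 s22) (Int.mul s12 s21)) N12)
            (Int.mul (Int.mul s21 s22) N22))))) (shI ks B))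
        (Int.sub (shI kp (Int.mul (Int.ofNat κ) (Int.add (Int.mul (Int.mul s12 s12) N11)
          (Int.add (Int.mul (Int.mul 2 (Int.mul s12 s22)) N12) (Int.mul (Int.mul s22 s22) N22)))))
          (shI ks D))) nq n3 A B D) ns n2 0 0 0)
      nm2 n1 []) nm (Nat.shiftRight n 180) []))
    (Nat.mul (Nat.pow 2 kp) κ) (Nat.add (Int.natAbs s11) (Int.natAbs s21))
    (Nat.add (Int.natAbs s12) (Int.natAbs s22)))
    (Nat.mod n 16777216) (hd n 48) (hd n 60) (hd n 72) (hd n 84) (hd n 96) (hd n 108) (hd n 120)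
    (hs n 132) (hs n 144) (hs n 156) (hs n 168)

/-- **leaf of the matrix tree** -/
noncomputable def leafM (E' E : Env) (N11 N12 N22 : ℤ) (n : ℕ) : Bool :=
  Nat.rec (motive := fun _ => Bool) (leafOM E' n) (fun _ _ => leafM1 E N11 N12 N22 n)
    (Nat.mod n 16777216)

end Pool.Agent.Helper45.TOP
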