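import Pool.Agent.Helper45.TOP.KrCell
import Pool.Agent.Helper6.TOP.Cell
import Pool.Agent.Helper6.TOP.Br
import Pool.Agent.Helper80.CW.DK

/-!
# Project TOP: the check of a tree on a cell
-/

set_option autoImplicit false

namespace Pool.Agent.Helper45.TOP
open Helper10.PC hiding V3
open Pool.Agent.Helper6.TOP Helper80.CW.DL

/-- maximum -/
def mxN (a b : ℕ) : ℕ := Nat.add a (Nat.sub b a)

theorem mxN_eq (a b : ℕ) : mxN a b = max a b := by
  show a + (b - a) = max a b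
  omega

/-- leaves of the matrix tree -/
noncomputable def lfS (P : Par) (L' L : Lay) (Z11 Z12 Z22 : PZ) (c : UC) (B : PB) (n : ℕ) : Bool :=
  andB (boxOK P B) (leafMF ⟨envOf P L' P.e2 0 0 c B, P.cols⟩
    ⟨envOf P L P.e (mxN Z11.b (mxN Z12.b Z22.b)) (mxN Z11.e (mxN Z12.e Z22.e)) c B, P.cols⟩
    (polN P B Z11.t) (polN P B Z12.t) (polN P B Z22.t) n)

/-- leaves of a scalar tree -/
noncomputable def lfQ (P : Par) (L' L : Lay) (Z : PZ) (c : UC) (B : PB) (n : ℕ) : Bool :=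
  andB (boxOK P B) (leafSF ⟨envOf P L' P.e2 0 0 c B, P.cols⟩ ⟨envOf P L P.e Z.b Z.e c B, P.cols⟩
    (polN P B Z.t) n)

/-- the norm of a dot product is in order -/
def bndU (U : UPar) (D : PN) : Bool := Nat.ble (Nat.succ D.b) U.f.c.B

/-- **check of a matrix tree** -/
noncomputable def chkS (U : UPar) (P : Par) (AL : List Al) (C11 C12 C22 : List (T ℤ)) (c : UC)
    (B : PB) (t : PT ℕ) : Bool :=
  (fun ex => andB (ltAll U.r.c.B ex) ((fun tab =>
    (fun D11 D12 D22 => andB (bndU U D11) (andB (bndU U D12) (andB (bndU U D22)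
      ((fun Z11 Z12 Z22 => andB (Nat.ble (htF (PZ.t Z11)) 6) (andB (Nat.ble (htF (PZ.t Z12)) 6)
        (andB (Nat.ble (htF (PZ.t Z22)) 6)
          (pchk (lfS P (mkLay P.v P.g P.e2) (mkLay P.v P.g P.e) Z11 Z12 Z22 c) t B))))
        (uFin U D11) (uFin U D12) (uFin U D22)))))
      (uDot U tab C11) (uDot U tab C12) (uDot U tab C22)) (uRn U ex))) (uEx U c AL)

/-- **check of a scalar tree** -/
noncomputable def chkQ (U : UPar) (P : Par) (AL : List Al) (C : List (T ℤ)) (c : UC)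
    (B : PB) (t : PT ℕ) : Bool :=
  (fun ex => andB (ltAll U.r.c.B ex) ((fun tab =>
    (fun D => andB (bndU U D)
      ((fun Z => andB (Nat.ble (htF (PZ.t Z)) 6)
          (pchk (lfQ P (mkLay P.v P.g P.e2) (mkLay P.v P.g P.e) Z c) t B))
        (uFin U D)))
      (uDot U tab C)) (uRn U ex))) (uEx U c AL)

section
variable {ι : Type}

theorem nth_fs {V : List ι} {θ : ι → ℝ} {u0 u1 u2 p0 p1 p2 : ℝ} : ∀ (Fs : List (ι → Cv)),
    (∀ F ∈ Fs, (V.map fun v => θ v * (F v).val u0 u1 u2 p0 p1 p2).sum ≤ 0) → ∀ j,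
    (V.map fun v => θ v * (nthC (Fs.map fun F => F v) j).val u0 u1 u2 p0 p1 p2).sum ≤ 0
  | [], _, j => by
    have e : ∀ v, θ v * (nthC ([] : List Cv) j).val u0 u1 u2 p0 p1 p2 = θ v * 0 := fun v => by
      have : (nthC ([] : List Cv) j) = Cv.zero := by cases j <;> rfl
      rw [this]
      simp [Cv.zero, Cv.val]
    simp only [List.map_nil]
    rw [List.map_congr_left fun v _ => e v, avg_zero]
  | F :: Fs, h, 0 => h F List.mem_cons_self
  | F :: Fs, h, j + 1 => nth_fs Fs (fun G hG => h G (List.mem_cons_of_mem _ hG)) j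

end

section
variable {cert : Ct2} {U : UPar} {P : Par} {AL : List Al} {c : UC} {B : PB}

/-- the facts of the parameters -/
theorem par_facts (hP : P.ok = true) : layOK P.v P.g P.e = true ∧ layOK P.v P.g P.e2 = true ∧
    P.g = 5 ∧ 6 < P.e ∧ 4 < P.e2 ∧ 43008 < 2 ^ P.v ∧ (∀ r ∈ P.rows, cmOK P.cm r = true) ∧
    (∀ r ∈ P.rows, eqR r P.row0 = true) ∧ colsOK false P.cols = true := by
  simp only [Par.ok, Bool.and_eq_true, decide_eq_true_eq, List.all_eq_true] at hP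
  obtain ⟨⟨⟨⟨⟨⟨⟨⟨⟨k1, k1'⟩, k2⟩, k3⟩, k4⟩, k4'⟩, k5⟩, k6⟩, k7⟩, k8⟩ := hP
  exact ⟨k1, k1', by omega, k4, k4', k5, k6, k7, k8⟩

/-- the environment -/
theorem env_ok (hP : P.ok = true) (hrows : cert.ct.cvs12 = P.rows) {e : ℕ}
    (he : layOK P.v P.g e = true) (he4 : 4 < e) {a b x y z : ℝ} {t : ℕ → ℝ}
    (hl : Loc c B a b x y z t) (hB : boxOK P B = true) (nb err : ℕ) {θ : St × Bool → ℝ}
    (h0 : ∀ v, 0 ≤ θ v) (h1 : (Ct.vix.map θ).sum = 1)
    (hC : ∀ F ∈ cert.ct.cfs, (Ct.vix.map fun v => θ v * (F v).val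
        (ch0 a b) (ch1 a b) (ch2 a b) x y z).sum ≤ 0) :
    EnvOK (envOf P (mkLay P.v P.g e) e nb err c B) (yv t) (sclP P c * (1 + a ^ 2 + b ^ 2))
      (ch0 a b) (ch1 a b) (ch2 a b) x y z Ct.vix θ (fun v => cert.ct.cfs.map fun F => F v) := by
  obtain ⟨k1, k1', k3, k4, k4', k5, k6, k7, k8⟩ := par_facts hP
  exact
    { hL := rfl
      lay := he
      hg := by show 4 < P.g; omega
      he := he4
      hv := k5
      hy := yv_le hl.le
      hz := zb_cell hl hB _ _ _ _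
      hcm := fun r hr => k6 r hr
      heq := fun r hr => k7 r hr
      hV := hrows
      hF := by unfold sclP; positivity
      th0 := fun v _ => h0 v
      th1 := h1
      hC := nth_fs _ hC }

theorem par5 (hP : P.ok = true) : P.g = 5 := (par_facts hP).2.2.1

theorem cfs_ne (C : Ct) : C.cfs ≠ [] := by
  unfold Ct.cfs
  simp

/-- the fast states -/
theorem min_ok (hP : P.ok = true) (hrows : cert.ct.cvs12 = P.rows)
    (hcols : (cert.ct.cfs.map fun F => Ct.vix.map F) = P.cols) (L : Lay) (e nb err : ℕ)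
    (ls : List (ℕ × ℕ)) (kc : ℕ) (N0 : ℤ) :
    minG ⟨envOf P L e nb err c B, P.cols⟩ ls kc N0 =
      minS (envOf P L e nb err c B).L (envOf P L e nb err c B).v (envOf P L e nb err c B).z
        (envOf P L e nb err c B).row0 ls kc (Int.add N0 (shI kc (tZ (envOf P L e nb err c B).L
          (envOf P L e nb err c B).z (envOf P L e nb err c B).row0 ls)))
        (envOf P L e nb err c B).rows := by
  obtain ⟨k1, k1', k3, k4, k4', k5, k6, k7, k8⟩ := par_facts hP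
  exact minG_eq (G := ⟨envOf P L e nb err c B, P.cols⟩) (colOK_of (cfs_ne _) hcols k8) hrows
    k7 ls kc N0

/-- the scale of the tables -/
noncomputable def sgU (U : UPar) (P : Par) (dp : ℕ) (c : UC) (a b : ℝ) : ℝ :=
  (4 ^ nuC c * chD a b) ^ U.K * 2 ^ (P.mu * dp) / 2 ^ U.q / 2 ^ U.sh

theorem sgU_pos (U : UPar) (P : Par) (dp : ℕ) (c : UC) (a b : ℝ) : 0 < sgU U P dp c a b := by
  have := chD_pos a b
  unfold sgU
  positivity

/-- a table of a cell -/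
theorem table {dp : ℕ} {Q : List Mo} {C : List (T ℤ)}
    (hv : ∀ u p : V3, valZ AL C u.1 u.2.1 u.2.2 (fun i => (2 : ℝ) ^ P.mu * pfv p i) =
      (2 : ℝ) ^ (P.mu * dp) * vl Q u p) (hP : P.ok = true) (hU : U.Good) (hf : U.hf = P.v)
    (hg : U.g2 = 5) (hR : U.R = P.R) (hA : degOK U.K AL = true)
    (hex : ltAll U.r.c.B (uEx U c AL) = true)
    (hD : bndU U (uDot U (uRn U (uEx U c AL)) C) = true)
    (hh : Nat.ble (htF (uFin U (uDot U (uRn U (uEx U c AL)) C)).t) 6 = true)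
    {a b x y z : ℝ} {t : ℕ → ℝ} (hl : Loc c B a b x y z t) (hB : boxOK P B = true) :
    ∃ p : ℝ, Rep (P.v + 1) P.g P.e (yv t) (dd 4 6)
      (polN P B (uFin U (uDot U (uRn U (uEx U c AL)) C)).t) p
        (uFin U (uDot U (uRn U (uEx U c AL)) C)).b ∧
      |sgU U P dp c a b * vl Q (ch0 a b, ch1 a b, ch2 a b) (x, y, z) - p| ≤
        (uFin U (uDot U (uRn U (uEx U c AL)) C)).e := by
  have hZ := uFin_rep hU hA hex hD hl.ha hl.hb (hl.le 0) (hl.le 1)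
  rw [hf, hg, hR] at hZ
  have h5 := par5 hP
  obtain ⟨p, p1, p2⟩ := pol_rep (X := fun i => (2 : ℝ) ^ P.mu * pfv (x, y, z) i) h5 hl hB
    (by rw [h5]; exact hZ) (Nat.le_of_ble_eq_true hh) rfl rfl rfl (fun k => mul_zero _)
  refine ⟨p, p1, ?_⟩
  have e1 : sgU U P dp c a b * vl Q (ch0 a b, ch1 a b, ch2 a b) (x, y, z) =
      (4 ^ nuC c * chD a b) ^ U.K * valZ AL C (ch0 a b) (ch1 a b) (ch2 a b)
        (fun i => (2 : ℝ) ^ P.mu * pfv (x, y, z) i) / 2 ^ U.q / 2 ^ U.sh := by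
    have := hv (ch0 a b, ch1 a b, ch2 a b) (x, y, z)
    simp only at this
    rw [this]
    unfold sgU
    ring
  rw [e1]
  exact p2

/-- **matrix tree** -/
theorem chkS_ok {dp : ℕ} {C11 C12 C22 : List (T ℤ)} {t : PT ℕ} (hU : U.Good) (hP : P.ok = true)
    (hf : U.hf = P.v) (hg : U.g2 = 5) (hR : U.R = P.R) (hA : degOK U.K AL = true)
    (hrows : cert.ct.cvs12 = P.rows) (hcols : (cert.ct.cfs.map fun F => Ct.vix.map F) = P.cols)
    (v11 : ∀ u p : V3, valZ AL C11 u.1 u.2.1 u.2.2 (fun i => (2 : ℝ) ^ P.mu * pfv p i) =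
      (2 : ℝ) ^ (P.mu * dp) * vl cert.P11 u p)
    (v12 : ∀ u p : V3, valZ AL C12 u.1 u.2.1 u.2.2 (fun i => (2 : ℝ) ^ P.mu * pfv p i) =
      (2 : ℝ) ^ (P.mu * dp) * vl cert.P12 u p)
    (v22 : ∀ u p : V3, valZ AL C22 u.1 u.2.1 u.2.2 (fun i => (2 : ℝ) ^ P.mu * pfv p i) =
      (2 : ℝ) ^ (P.mu * dp) * vl cert.P22 u p)
    (h : chkS U P AL C11 C12 C22 c B t = true) : BoxAll (PSc cert) c B := by
  unfold chkS at h
  obtain ⟨g1, h⟩ := andB_true h
  obtain ⟨d1, h⟩ := andB_true h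
  obtain ⟨d2, h⟩ := andB_true h
  obtain ⟨d3, h⟩ := andB_true h
  obtain ⟨k1, h⟩ := andB_true h
  obtain ⟨k2, h⟩ := andB_true h
  obtain ⟨k3, h⟩ := andB_true h
  refine BoxAll.of_tree (fun B n hn a b hab x y z hm => ?_) B t h
  obtain ⟨hB, hn⟩ := andB_true hn
  obtain ⟨t, hl⟩ := exists_loc hab hm
  obtain ⟨p11, a1, a2⟩ := table v11 hP hU hf hg hR hA g1 d1 k1 hl hB
  obtain ⟨p12, b1, b2⟩ := table v12 hP hU hf hg hR hA g1 d2 k2 hl hB
  obtain ⟨p22, c1, c2⟩ := table v22 hP hU hf hg hR hA g1 d3 k3 hl hB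
  set Z11 := uFin U (uDot U (uRn U (uEx U c AL)) C11) with hZ11
  set Z12 := uFin U (uDot U (uRn U (uEx U c AL)) C12) with hZ12
  set Z22 := uFin U (uDot U (uRn U (uEx U c AL)) C22) with hZ22
  refine Ct2.Hy.of_list fun θ h0 h1 hC => ?_
  obtain ⟨l1, l2, l3, l4, l5, _⟩ := par_facts hP
  rw [leafMF_eq (G' := ⟨envOf P (mkLay P.v P.g P.e2) P.e2 0 0 c B, P.cols⟩) (G := ⟨envOf P
    (mkLay P.v P.g P.e) P.e (mxN Z11.b (mxN Z12.b Z22.b)) (mxN Z11.e (mxN Z12.e Z22.e)) c B,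
    P.cols⟩) (min_ok hP hrows hcols _ _ _ _) (min_ok hP hrows hcols _ _ _ _)] at hn
  have henv' := env_ok hP hrows l2 l5 hl hB 0 0 h0 h1 hC
  have henv := env_ok hP hrows l1 (by omega) hl hB (mxN Z11.b (mxN Z12.b Z22.b))
    (mxN Z11.e (mxN Z12.e Z22.e)) h0 h1 hC
  intro w1 w2
  have hmb : mxN Z11.b (mxN Z12.b Z22.b) = max Z11.b (max Z12.b Z22.b) := by rw [mxN_eq, mxN_eq]
  have hme : mxN Z11.e (mxN Z12.e Z22.e) = max Z11.e (max Z12.e Z22.e) := by rw [mxN_eq, mxN_eq]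
  have hb1 : Z11.b ≤ mxN Z11.b (mxN Z12.b Z22.b) := by rw [hmb]; exact le_max_left _ _
  have hb2 : Z12.b ≤ mxN Z11.b (mxN Z12.b Z22.b) := by
    rw [hmb]; exact (le_max_left _ _).trans (le_max_right _ _)
  have hb3 : Z22.b ≤ mxN Z11.b (mxN Z12.b Z22.b) := by
    rw [hmb]; exact (le_max_right _ _).trans (le_max_right _ _)
  have he1 : (Z11.e : ℝ) ≤ (mxN Z11.e (mxN Z12.e Z22.e) : ℕ) := by
    rw [hme]; exact_mod_cast le_max_left _ _
  have he2 : (Z12.e : ℝ) ≤ (mxN Z11.e (mxN Z12.e Z22.e) : ℕ) := by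
    rw [hme]; exact_mod_cast (le_max_left _ _).trans (le_max_right _ _)
  have he3 : (Z22.e : ℝ) ≤ (mxN Z11.e (mxN Z12.e Z22.e) : ℕ) := by
    rw [hme]; exact_mod_cast (le_max_right _ _).trans (le_max_right _ _)
  have main := leafM_sound henv' henv l4 (a1.up le_rfl le_rfl hb1) (b1.up le_rfl le_rfl hb2)
    (c1.up le_rfl le_rfl hb3) (a2.trans he1) (b2.trans he2) (c2.trans he3) hn w1 w2
  have hσ := sgU_pos U P dp c a b
  have e1 : sgU U P dp c a b * vl cert.P11 (ch0 a b, ch1 a b, ch2 a b) (x, y, z) * w1 ^ 2 +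
      2 * (sgU U P dp c a b * vl cert.P12 (ch0 a b, ch1 a b, ch2 a b) (x, y, z)) * (w1 * w2) +
      sgU U P dp c a b * vl cert.P22 (ch0 a b, ch1 a b, ch2 a b) (x, y, z) * w2 ^ 2 =
      sgU U P dp c a b * (vl cert.P11 (ch0 a b, ch1 a b, ch2 a b) (x, y, z) * w1 ^ 2 +
      2 * vl cert.P12 (ch0 a b, ch1 a b, ch2 a b) (x, y, z) * (w1 * w2) +
      vl cert.P22 (ch0 a b, ch1 a b, ch2 a b) (x, y, z) * w2 ^ 2) := by ring
  rw [e1] at main
  exact (mul_nonneg_iff_of_pos_left hσ).1 main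

/-- scalar trees -/
theorem chkQ_ok {dp : ℕ} {Q : List Mo} {C : List (T ℤ)} {t : PT ℕ} (hU : U.Good)
    (hP : P.ok = true) (hf : U.hf = P.v) (hg : U.g2 = 5) (hR : U.R = P.R)
    (hA : degOK U.K AL = true) (hrows : cert.ct.cvs12 = P.rows)
    (hcols : (cert.ct.cfs.map fun F => Ct.vix.map F) = P.cols)
    (hv : ∀ u p : V3, valZ AL C u.1 u.2.1 u.2.2 (fun i => (2 : ℝ) ^ P.mu * pfv p i) =
      (2 : ℝ) ^ (P.mu * dp) * vl Q u p)
    (h : chkQ U P AL C c B t = true) :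
    BoxAll (fun u0 u1 u2 x y z => cert.Hy (u0, u1, u2) (x, y, z)
      (0 ≤ vl Q (u0, u1, u2) (x, y, z))) c B := by
  unfold chkQ at h
  obtain ⟨g1, h⟩ := andB_true h
  obtain ⟨d1, h⟩ := andB_true h
  obtain ⟨k1, h⟩ := andB_true h
  refine BoxAll.of_tree (fun B n hn a b hab x y z hm => ?_) B t h
  obtain ⟨hB, hn⟩ := andB_true hn
  obtain ⟨t, hl⟩ := exists_loc hab hm
  obtain ⟨p, a1, a2⟩ := table hv hP hU hf hg hR hA g1 d1 k1 hl hB
  refine Ct2.Hy.of_list fun θ h0 h1 hC => ?_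
  obtain ⟨l1, l2, l3, l4, l5, _⟩ := par_facts hP
  rw [leafSF_eq (G' := ⟨envOf P (mkLay P.v P.g P.e2) P.e2 0 0 c B, P.cols⟩) (G := ⟨envOf P
    (mkLay P.v P.g P.e) P.e (uFin U (uDot U (uRn U (uEx U c AL)) C)).b
    (uFin U (uDot U (uRn U (uEx U c AL)) C)).e c B, P.cols⟩)
    (min_ok hP hrows hcols _ _ _ _) (min_ok hP hrows hcols _ _ _ _)] at hn
  have main := leafS_sound (env_ok hP hrows l2 l5 hl hB 0 0 h0 h1 hC)
    (env_ok hP hrows l1 (by omega) hl hB _ _ h0 h1 hC) l4 a1 a2 hn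
  exact (mul_nonneg_iff_of_pos_left (sgU_pos U P dp c a b)).1 main

theorem chkP_ok {dp : ℕ} {C : List (T ℤ)} {t : PT ℕ} (hU : U.Good)
    (hP : P.ok = true) (hf : U.hf = P.v) (hg : U.g2 = 5) (hR : U.R = P.R)
    (hA : degOK U.K AL = true) (hrows : cert.ct.cvs12 = P.rows)
    (hcols : (cert.ct.cfs.map fun F => Ct.vix.map F) = P.cols)
    (hv : ∀ u p : V3, valZ AL C u.1 u.2.1 u.2.2 (fun i => (2 : ℝ) ^ P.mu * pfv p i) =
      (2 : ℝ) ^ (P.mu * dp) * vl cert.Qp u p)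
    (h : chkQ U P AL C c B t = true) : BoxAll (PPc cert) c B :=
  chkQ_ok hU hP hf hg hR hA hrows hcols hv h

theorem chkM_ok {dp : ℕ} {C : List (T ℤ)} {t : PT ℕ} (hU : U.Good)
    (hP : P.ok = true) (hf : U.hf = P.v) (hg : U.g2 = 5) (hR : U.R = P.R)
    (hA : degOK U.K AL = true) (hrows : cert.ct.cvs12 = P.rows)
    (hcols : (cert.ct.cfs.map fun F => Ct.vix.map F) = P.cols)
    (hv : ∀ u p : V3, valZ AL C u.1 u.2.1 u.2.2 (fun i => (2 : ℝ) ^ P.mu * pfv p i) =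
      (2 : ℝ) ^ (P.mu * dp) * vl cert.Qm u p)
    (h : chkQ U P AL C c B t = true) : BoxAll (PMc cert) c B :=
  chkQ_ok hU hP hf hg hR hA hrows hcols hv h

end

end Pool.Agent.Helper45.TOP
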