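import Pool.Agent.Helper45.TOP.KrLeaf

/-!
# Project TOP: soundness of the leaf checker
-/

set_option autoImplicit false

namespace Pool.Agent.Helper45.TOP
open Helper10.PC Pool.Agent.Helper6.TOP

/-- the environment of a leaf is right at a point, with weights of the states -/
structure EnvOK (E : Env) (y : Fin 5 → ℝ) (F u0 u1 u2 p0 p1 p2 : ℝ) {ι : Type} (V : List ι)
    (θ : ι → ℝ) (row : ι → List Cv) : Prop where
  hL : E.L = mkLay E.v E.g E.e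
  lay : layOK E.v E.g E.e = true
  hg : 4 < E.g
  he : 4 < E.e
  hv : 43008 < 2 ^ E.v
  hy : ∀ j, |y j| ≤ 1
  hz : ZRep (E.v + 1) E.g E.e y E.z F u0 u1 u2 p0 p1 p2 E.bz
  hcm : ∀ row ∈ E.rows, cmOK E.cm row = true
  heq : ∀ row ∈ E.rows, eqR row E.row0 = true
  hV : V.map row = E.rows
  hF : 0 ≤ F
  th0 : ∀ v ∈ V, 0 ≤ θ v
  th1 : (V.map θ).sum = 1
  hC : ∀ j, (V.map fun v => θ v * (nthC (row v) j).val u0 u1 u2 p0 p1 p2).sum ≤ 0

section
variable {E : Env} {y : Fin 5 → ℝ} {F u0 u1 u2 p0 p1 p2 : ℝ} {ι : Type} {V : List ι} {θ : ι → ℝ}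
  {row : ι → List Cv}

theorem blt_lt {a b : ℕ} (h : Nat.blt a b = true) : a < b := Nat.le_of_ble_eq_true h

theorem EnvOK.lam (h : EnvOK E y F u0 u1 u2 p0 p1 p2 V θ row) {K : ℕ → List (ℕ × ℕ) → Bool}
    {cnt n : ℕ} (hK : lamL E.L E.v K cnt n [] = true) :
    ∃ (n' : ℕ) (ls' : List (ℕ × ℕ)), (∀ x ∈ ls', 0 ≤ frmR x.2 y) ∧
      ls'.length = cnt ∧ K n' ls' = true := by
  rw [h.hL] at hK
  have hg := h.hg
  have he := h.he
  obtain ⟨n', ls', a1, a2, a3⟩ := lamL_sound (g := E.g) (e := E.e) h.lay (by omega) (by omega) h.hv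
    h.hy cnt n [] (fun x hx => absurd hx List.not_mem_nil) hK
  exact ⟨n', ls', a1, by rw [a2, List.length_nil, zero_add], a3⟩

theorem EnvOK.min (h : EnvOK E y F u0 u1 u2 p0 p1 p2 V θ row) {k : ℕ} (hk : 4 ≤ k)
    (hke : k < E.e) {N0 : ℤ} {f0 : ℝ} {b0 : ℕ}
    (h0 : Rep (E.v + 1) E.g E.e y (dd 4 k) N0 f0 b0) {ls : List (ℕ × ℕ)}
    (hls : ∀ x ∈ ls, 0 ≤ frmR x.2 y) {kc : ℕ}
    (hb : b0 + 2 ^ kc * (ls.length * (43008 * (E.cm * E.bz))) < 2 ^ E.v)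
    (hr : 0 < minS E.L E.v E.z E.row0 ls kc
      (Int.add N0 (shI kc (tZ E.L E.z E.row0 ls))) E.rows) :
    (minS E.L E.v E.z E.row0 ls kc (Int.add N0 (shI kc (tZ E.L E.z E.row0 ls))) E.rows : ℝ) ≤
      f0 := by
  rw [h.hL] at hr ⊢
  exact minS_avg h.lay h.hz h.hg h.hy h.hcm h.heq hk hke h0 hls hb hr h.hV h.hF h.th0
    h.th1 h.hC

theorem out_aux (h : EnvOK E y F u0 u1 u2 p0 p1 p2 V θ row) {A : ℤ} {fA : ℝ} {bA ks kc X : ℕ}
    (hA : Rep (E.v + 1) E.g E.e y (dd 4 4) A fA bA) (h0 : 0 ≤ fA) {ls : List (ℕ × ℕ)}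
    (hls : ∀ x ∈ ls, 0 ≤ frmR x.2 y)
    (hX : 2 ^ ks * bA + 2 ^ kc * (ls.length * (43008 * (E.cm * E.bz))) ≤ X) (hX' : X < 2 ^ E.v)
    (hr : 0 < minS E.L E.v E.z E.row0 ls kc
      (Int.add (Int.sub 0 (shI ks A)) (shI kc (tZ E.L E.z E.row0 ls))) E.rows) : False := by
  have h2 := (Rep.nat (w := E.v + 1) (g := E.g) (e := E.e) (y := y) (2 ^ ks)).mulD hA
  have e1 : -(((2 ^ ks : ℕ) : ℤ) * A) = Int.sub 0 (shI ks A) := by
    show _ = 0 - shI ks A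
    rw [shI_eq]
    push_cast
    ring
  have h3 : Rep (E.v + 1) E.g E.e y (dd 4 4) (-(((2 ^ ks : ℕ) : ℤ) * A)) (-(((2 ^ ks : ℕ) : ℝ) * fA))
      (2 ^ ks * bA) := (h2.up (c' := 4) (h' := 4) (by norm_num) (by norm_num) le_rfl).neg
  rw [e1] at h3
  have := h.min le_rfl h.he h3 hls (kc := kc) (lt_of_le_of_lt hX hX') hr
  have h4 : (0 : ℝ) < (minS E.L E.v E.z E.row0 ls kc
      (Int.add (Int.sub 0 (shI ks A)) (shI kc (tZ E.L E.z E.row0 ls))) E.rows : ℝ) := by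
    exact_mod_cast hr
  have h5 : (0 : ℝ) ≤ ((2 ^ ks : ℕ) : ℝ) * fA := by positivity
  linarith

theorem leafOS_sound (h : EnvOK E y F u0 u1 u2 p0 p1 p2 V θ row) {n : ℕ}
    (hn : leafOS E n = true) : False := by
  obtain ⟨b1, b2⟩ := andB_true (a := Nat.blt (Nat.add
      (Nat.mul (Nat.pow 2 (hd n 72)) (Nat.mul (hd n 108) WB))
      (Nat.mul (Nat.pow 2 (hd n 60)) (Nat.mul (hd n 84) (Nat.mul 43008 (Nat.mul E.cm E.bz)))))
      (Nat.pow 2 E.v)) hn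
  have c1 : 2 ^ (hd n 72) * (hd n 108 * WB) +
    2 ^ (hd n 60) * (hd n 84 * (43008 * (E.cm * E.bz))) < 2 ^ E.v := blt_lt b1
  obtain ⟨n1, ls, a1, a2, a3⟩ := h.lam b2
  rw [h.hL] at a3
  obtain ⟨n2, A, q1, q2⟩ := sqS_sound (y := y) h.lay (hd n 108) n1 0 0 QS.zero a3
  rw [← h.hL] at q2
  obtain ⟨fA, r1, r2⟩ := q1
  exact out_aux h r1 r2 a1 (by rw [a2, zero_add]) c1 (blt_lt q2)

theorem leafOM_sound (h : EnvOK E y F u0 u1 u2 p0 p1 p2 V θ row) {n : ℕ}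
    (hn : leafOM E n = true) : False := by
  obtain ⟨b1, b2⟩ := andB_true (a := Nat.blt (Nat.add
      (Nat.mul (Nat.pow 2 (hd n 72)) (Nat.mul (hd n 108) WB))
      (Nat.mul (Nat.pow 2 (hd n 60)) (Nat.mul (hd n 84) (Nat.mul 43008 (Nat.mul E.cm E.bz)))))
      (Nat.pow 2 E.v)) hn
  have c1 : 2 ^ (hd n 72) * (hd n 108 * WB) +
    2 ^ (hd n 60) * (hd n 84 * (43008 * (E.cm * E.bz))) < 2 ^ E.v := blt_lt b1
  obtain ⟨n1, ls, a1, a2, a3⟩ := h.lam b2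
  rw [h.hL] at a3
  obtain ⟨n2, A, B, D, q1, q2⟩ := sqA_sound (y := y) h.lay (hd n 108) n1 0 0 0 0 QF.zero a3
  rw [← h.hL] at q2
  obtain ⟨fA, fB, fD, r1, _, _, r2⟩ := q1
  have r3 := r2 1 0
  norm_num at r3
  exact out_aux h r1 r3 a1 (by rw [a2, zero_add]) c1 (blt_lt q2)

/-- combination of the table and the squares -/
theorem comb_rep {w g e : ℕ} {c : ℕ} (hc : c = 4) {κ kp ks b bA X : ℕ} {P A : ℤ} {p fA : ℝ}
    (hP : Rep w g e y (dd 4 6) P p b) (hA : Rep w g e y (dd 4 4) A fA bA)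
    (hX : 2 ^ kp * κ * b + 2 ^ ks * bA ≤ X) :
    Rep w g e y (dd c 6) (Int.sub (shI kp (Int.mul (Int.ofNat κ) P)) (shI ks A))
      (2 ^ kp * κ * p - 2 ^ ks * fA) X := by
  subst hc
  have h1 := ((Rep.nat (w := w) (g := g) (e := e) (y := y) (2 ^ kp)).mulD
    (Rep.nat (w := w) (g := g) (e := e) (y := y) κ)).mulD hP
  have h2 := (Rep.nat (w := w) (g := g) (e := e) (y := y) (2 ^ ks)).mulD hA
  have h3 := (h1.up (c' := 4) (h' := 6) (by norm_num) (by norm_num) le_rfl).sub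
    (h2.up (c' := 4) (h' := 6) (by norm_num) (by norm_num) le_rfl)
  have e1 : ((2 ^ kp : ℕ) : ℤ) * (κ : ℤ) * P - ((2 ^ ks : ℕ) : ℤ) * A =
      Int.sub (shI kp (Int.mul (Int.ofNat κ) P)) (shI ks A) := by
    show _ = shI kp ((κ : ℤ) * P) - shI ks A
    rw [shI_eq, shI_eq]
    push_cast
    ring
  rw [e1] at h3
  push_cast at h3
  exact h3.up le_rfl le_rfl hX

theorem leafS1_sound (h : EnvOK E y F u0 u1 u2 p0 p1 p2 V θ row) (h6 : 6 < E.e) {N : ℤ} {p f : ℝ}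
    (hN : Rep (E.v + 1) E.g E.e y (dd 4 6) N p E.nb) (hf : |f - p| ≤ E.err) {n : ℕ}
    (hκ : 0 < Nat.mod n 16777216) (hn : leafS1 E N n = true) : 0 ≤ f := by
  obtain ⟨b1, b2⟩ := andB_true (a := Nat.blt (Nat.add (Nat.mul (Nat.mul (Nat.pow 2 (hd n 48))
      (Nat.mod n 16777216)) E.nb) (Nat.add
      (Nat.mul (Nat.pow 2 (hd n 72)) (Nat.mul (Nat.add (hd n 108) (hd n 120)) WB))
      (Nat.mul (Nat.pow 2 (hd n 60)) (Nat.mul (hd n 84) (Nat.mul 43008 (Nat.mul E.cm E.bz))))))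
      (Nat.pow 2 E.v)) hn
  set κ := Nat.mod n 16777216 with hκd
  set kp := hd n 48 with hkp
  set kc := hd n 60 with hkc
  set ks := hd n 72 with hks
  set nm := hd n 84 with hnm
  set ns := hd n 108 with hns
  set nq := hd n 120 with hnq
  have c1 : 2 ^ kp * κ * E.nb + (2 ^ ks * ((ns + nq) * WB) +
    2 ^ kc * (nm * (43008 * (E.cm * E.bz)))) < 2 ^ E.v := blt_lt b1
  obtain ⟨n1, ls, a1, a2, a3⟩ := h.lam b2
  rw [h.hL] at a3
  obtain ⟨n2, A, q1, q2⟩ := sqS_sound (y := y) h.lay ns n1 0 0 QS.zero a3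
  obtain ⟨n3, A', q3, q4⟩ := sqT_sound (y := y) h.lay h.hy nq n2 A _ q1 q2
  rw [← h.hL] at q4
  obtain ⟨fA, r1, r2⟩ := q3
  have hX : 2 ^ kp * κ * E.nb + 2 ^ ks * (0 + ns * WB + nq * WB) ≤
      2 ^ kp * κ * E.nb + 2 ^ ks * ((ns + nq) * WB) := by
    rw [zero_add, Nat.add_mul]
  have r3 := comb_rep (y := y) rfl hN r1 hX
  have q5 := blt_lt q4
  have r4 := h.min (by norm_num) h6 r3 a1 (kc := kc) (by rw [a2]; omega) (by omega)
  have r5 : (2 ^ kp * κ * E.err : ℝ) < (minS E.L E.v E.z E.row0 ls kc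
      (Int.add (Int.sub (shI kp (Int.mul (Int.ofNat κ) N)) (shI ks A'))
        (shI kc (tZ E.L E.z E.row0 ls))) E.rows : ℝ) := by
    have : ((2 ^ kp * κ * E.err : ℕ) : ℝ) < (minS E.L E.v E.z E.row0 ls kc
      (Int.add (Int.sub (shI kp (Int.mul (Int.ofNat κ) N)) (shI ks A'))
        (shI kc (tZ E.L E.z E.row0 ls))) E.rows : ℝ) := by exact_mod_cast q5
    push_cast at this
    exact this
  have hκ' : (0 : ℝ) < κ := by exact_mod_cast hκ
  have h2 : (0 : ℝ) < 2 ^ kp * κ := by positivity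
  have h3 := (abs_le.1 hf).1
  have h4 : (0 : ℝ) ≤ 2 ^ ks * fA := by positivity
  have h5 : 0 ≤ 2 ^ kp * (κ : ℝ) * f := by
    nlinarith [mul_le_mul_of_nonneg_left h3 h2.le]
  exact (mul_nonneg_iff_of_pos_left h2).1 h5

theorem leafS_sound {E' : Env} {F' : ℝ} (h' : EnvOK E' y F' u0 u1 u2 p0 p1 p2 V θ row)
    (h : EnvOK E y F u0 u1 u2 p0 p1 p2 V θ row) (h6 : 6 < E.e) {N : ℤ} {p f : ℝ}
    (hN : Rep (E.v + 1) E.g E.e y (dd 4 6) N p E.nb) (hf : |f - p| ≤ E.err) {n : ℕ}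
    (hn : leafS E' E N n = true) : 0 ≤ f := by
  unfold leafS at hn
  rcases hκ : Nat.mod n 16777216 with _ | k
  · rw [hκ] at hn
    exact (leafOS_sound h' hn).elim
  · rw [hκ] at hn
    exact leafS1_sound h h6 hN hf (by rw [hκ]; exact Nat.succ_pos k) hn

theorem leafM1_sound (h : EnvOK E y F u0 u1 u2 p0 p1 p2 V θ row) (h6 : 6 < E.e) {N11 N12 N22 : ℤ}
    {p11 p12 p22 f11 f12 f22 : ℝ}
    (h11 : Rep (E.v + 1) E.g E.e y (dd 4 6) N11 p11 E.nb)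
    (h12 : Rep (E.v + 1) E.g E.e y (dd 4 6) N12 p12 E.nb)
    (h22 : Rep (E.v + 1) E.g E.e y (dd 4 6) N22 p22 E.nb)
    (e11 : |f11 - p11| ≤ E.err) (e12 : |f12 - p12| ≤ E.err) (e22 : |f22 - p22| ≤ E.err) {n : ℕ}
    (hκ : 0 < Nat.mod n 16777216) (hn : leafM1 E N11 N12 N22 n = true) (v1 v2 : ℝ) :
    0 ≤ f11 * v1 ^ 2 + 2 * f12 * (v1 * v2) + f22 * v2 ^ 2 := by
  set κ := Nat.mod n 16777216 with hκd
  set kp := hd n 48 with hkp
  set kc := hd n 60 with hkc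
  set ks := hd n 72 with hks
  set nm := hd n 84 with hnm
  set nm2 := hd n 96 with hnm2
  set ns := hd n 108 with hns
  set nq := hd n 120 with hnq
  set s11 := hs n 132 with hs11
  set s12 := hs n 144 with hs12
  set s21 := hs n 156 with hs21
  set s22 := hs n 168 with hs22
  set K := Nat.mul (Nat.pow 2 kp) κ with hK
  set σ1 := Nat.add (Int.natAbs s11) (Int.natAbs s21) with hσ1
  set σ2 := Nat.add (Int.natAbs s12) (Int.natAbs s22) with hσ2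
  obtain ⟨b0, b2⟩ := andB_true (a := andB
    (Nat.blt 0 (Int.natAbs (Int.sub (Int.mul s11 s22) (Int.mul s12 s21))))
    (Nat.blt (Nat.add (Nat.mul K (Nat.mul (Nat.mul (Nat.add σ1 σ2) (Nat.add σ1 σ2)) E.nb)) (Nat.add
      (Nat.mul (Nat.pow 2 ks) (Nat.mul (Nat.add ns nq) WB))
      (Nat.mul (Nat.pow 2 kc) (Nat.mul (Nat.add nm nm2) (Nat.mul 43008 (Nat.mul E.cm E.bz))))))
      (Nat.pow 2 E.v))) hn
  obtain ⟨b00, b1⟩ := andB_true b0
  have hdet : (s11 : ℝ) * s22 - s12 * s21 ≠ 0 := by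
    have h1 : 0 < (s11 * s22 - s12 * s21).natAbs := blt_lt b00
    have h2 : s11 * s22 - s12 * s21 ≠ 0 := Int.natAbs_pos.1 h1
    exact_mod_cast h2
  have c1 : K * ((σ1 + σ2) * (σ1 + σ2) * E.nb) + (2 ^ ks * ((ns + nq) * WB) +
    2 ^ kc * ((nm + nm2) * (43008 * (E.cm * E.bz)))) < 2 ^ E.v := blt_lt b1
  obtain ⟨n1, ls, a1, a2, a3⟩ := h.lam b2
  obtain ⟨n2, ls2, a4, a5, a6⟩ := h.lam a3
  rw [h.hL] at a6
  obtain ⟨n3, A, B, D, q1, q2⟩ := sqA_sound (y := y) h.lay ns n2 0 0 0 0 QF.zero a6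
  obtain ⟨n4, A', B', D', q3, q4⟩ := sqB_sound (y := y) h.lay h.hy nq n3 A B D _ q1 q2
  rw [← h.hL] at q4
  obtain ⟨fA, fB, fD, t1, t2, t3, t4⟩ := q3
  set bq := 0 + ns * WB + nq * WB with hbq
  have hbq' : 2 ^ ks * bq = 2 ^ ks * ((ns + nq) * WB) := by
    rw [hbq, zero_add, Nat.add_mul]
  -- the combinations of the tables
  have i : ∀ m : ℤ, Rep (E.v + 1) E.g E.e y (dd 0 0) m m m.natAbs := fun m => Rep.int m
  have g11 : Rep (E.v + 1) E.g E.e y (dd 4 6) (s11 * s11 * N11 + (2 * (s11 * s21) * N12 +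
      s21 * s21 * N22)) ((s11 : ℝ) * s11 * p11 + (2 * (s11 * s21) * p12 + s21 * s21 * p22))
      (σ1 * σ1 * E.nb) := by
    have r := ((((i s11).mulD (i s11)).mulD h11).up (c' := 4) (h' := 6) (by norm_num) (by norm_num)
      le_rfl).add (((((i 2).mulD ((i s11).mulD (i s21))).mulD h12).up (c' := 4) (h' := 6)
      (by norm_num) (by norm_num) le_rfl).add ((((i s21).mulD (i s21)).mulD h22).up (c' := 4)
      (h' := 6) (by norm_num) (by norm_num) le_rfl))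
    push_cast at r
    refine r.up le_rfl le_rfl (le_of_eq ?_)
    show s11.natAbs * s11.natAbs * E.nb + (Int.natAbs 2 * (s11.natAbs * s21.natAbs) * E.nb +
      s21.natAbs * s21.natAbs * E.nb) = (s11.natAbs + s21.natAbs) * (s11.natAbs + s21.natAbs) * E.nb
    have : Int.natAbs 2 = 2 := rfl
    rw [this]
    ring
  have g22 : Rep (E.v + 1) E.g E.e y (dd 4 6) (s12 * s12 * N11 + (2 * (s12 * s22) * N12 +
      s22 * s22 * N22)) ((s12 : ℝ) * s12 * p11 + (2 * (s12 * s22) * p12 + s22 * s22 * p22))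
      (σ2 * σ2 * E.nb) := by
    have r := ((((i s12).mulD (i s12)).mulD h11).up (c' := 4) (h' := 6) (by norm_num) (by norm_num)
      le_rfl).add (((((i 2).mulD ((i s12).mulD (i s22))).mulD h12).up (c' := 4) (h' := 6)
      (by norm_num) (by norm_num) le_rfl).add ((((i s22).mulD (i s22)).mulD h22).up (c' := 4)
      (h' := 6) (by norm_num) (by norm_num) le_rfl))
    push_cast at r
    refine r.up le_rfl le_rfl (le_of_eq ?_)
    show s12.natAbs * s12.natAbs * E.nb + (Int.natAbs 2 * (s12.natAbs * s22.natAbs) * E.nb +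
      s22.natAbs * s22.natAbs * E.nb) = (s12.natAbs + s22.natAbs) * (s12.natAbs + s22.natAbs) * E.nb
    have : Int.natAbs 2 = 2 := rfl
    rw [this]
    ring
  have g12 : Rep (E.v + 1) E.g E.e y (dd 4 6) (s11 * s12 * N11 + ((s11 * s22 + s12 * s21) * N12 +
      s21 * s22 * N22)) ((s11 : ℝ) * s12 * p11 + ((s11 * s22 + s12 * s21) * p12 + s21 * s22 * p22))
      (σ1 * σ2 * E.nb) := by
    have r := ((((i s11).mulD (i s12)).mulD h11).up (c' := 4) (h' := 6) (by norm_num) (by norm_num)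
      le_rfl).add ((((((i s11).mulD (i s22)).add ((i s12).mulD (i s21))).mulD h12).up (c' := 4)
      (h' := 6) (by norm_num) (by norm_num) le_rfl).add ((((i s21).mulD (i s22)).mulD h22).up
      (c' := 4) (h' := 6) (by norm_num) (by norm_num) le_rfl))
    push_cast at r
    refine r.up le_rfl le_rfl (le_of_eq ?_)
    show s11.natAbs * s12.natAbs * E.nb + ((s11.natAbs * s22.natAbs + s12.natAbs * s21.natAbs) *
      E.nb + s21.natAbs * s22.natAbs * E.nb) =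
      (s11.natAbs + s21.natAbs) * (s12.natAbs + s22.natAbs) * E.nb
    ring
  set X := K * ((σ1 + σ2) * (σ1 + σ2) * E.nb) + 2 ^ ks * ((ns + nq) * WB) with hX
  have hK' : K = 2 ^ kp * κ := rfl
  have key : ∀ s : ℕ, s ≤ (σ1 + σ2) * (σ1 + σ2) → 2 ^ kp * κ * (s * E.nb) + 2 ^ ks * bq ≤ X := by
    intro s hs
    rw [hbq', hX, ← hK']
    have := Nat.mul_le_mul_left K (Nat.mul_le_mul_right E.nb hs)
    omega
  have m11 := comb_rep (y := y) rfl g11 t1 (key _ (by nlinarith))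
  have m12 := comb_rep (y := y) rfl g12 t2 (key _ (by nlinarith))
  have m22 := comb_rep (y := y) rfl g22 t3 (key _ (by nlinarith))
  obtain ⟨z1, z2⟩ := andB_true q4
  obtain ⟨z3, z4⟩ := andB_true z2
  have y1 := blt_lt z1
  have y2 := blt_lt z3
  have y3 := Nat.le_of_ble_eq_true z4
  -- first minimum
  have a2' : ls.length = nm := a2
  have a5' : ls2.length = nm2 := a5
  have hb1 : X + 2 ^ kc * (ls.length * (43008 * (E.cm * E.bz))) < 2 ^ E.v := by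
    rw [a2', hX]
    have : 2 ^ kc * (nm * (43008 * (E.cm * E.bz))) ≤
        2 ^ kc * ((nm + nm2) * (43008 * (E.cm * E.bz))) :=
      Nat.mul_le_mul_left _ (Nat.mul_le_mul_right _ (Nat.le_add_right _ _))
    omega
  have hb2 : X + 2 ^ kc * (ls2.length * (43008 * (E.cm * E.bz))) < 2 ^ E.v := by
    rw [a5', hX]
    have : 2 ^ kc * (nm2 * (43008 * (E.cm * E.bz))) ≤
        2 ^ kc * ((nm + nm2) * (43008 * (E.cm * E.bz))) :=
      Nat.mul_le_mul_left _ (Nat.mul_le_mul_right _ (Nat.le_add_left _ _))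
    omega
  have hbX : X < 2 ^ E.v := by omega
  have l1 := h.min (by norm_num) h6 m11 a1 (kc := kc) hb1 (lt_of_le_of_lt (Nat.zero_le _) y1)
  have l12 : |2 ^ kp * (κ : ℝ) * ((s11 : ℝ) * s12 * p11 + ((s11 * s22 + s12 * s21) * p12 +
      s21 * s22 * p22)) - 2 ^ ks * fB| ≤ (nrmN E.L.H E.v (Int.sub (shI kp (Int.mul (Int.ofNat κ)
      (Int.add (Int.mul (Int.mul s11 s12) N11) (Int.add (Int.mul (Int.add (Int.mul s11 s22)
      (Int.mul s12 s21)) N12) (Int.mul (Int.mul s21 s22) N22))))) (shI ks B')) : ℝ) := by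
    have := nrm_sound m12 h.hg h6 hbX h.hy
    rw [← h.hL] at this
    exact this
  have l2a : ∀ m : ℕ, 0 < (Nat.rec (motive := fun _ => ℕ) (lowN E.L.H E.v
      (Int.sub (shI kp (Int.mul (Int.ofNat κ) (Int.add (Int.mul (Int.mul s12 s12) N11)
          (Int.add (Int.mul (Int.mul 2 (Int.mul s12 s22)) N12) (Int.mul (Int.mul s22 s22) N22)))))
          (shI ks D'))) (fun _ _ =>
      (minS E.L E.v E.z E.row0 ls2 kc (Int.add
        (Int.sub (shI kp (Int.mul (Int.ofNat κ) (Int.add (Int.mul (Int.mul s12 s12) N11)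
          (Int.add (Int.mul (Int.mul 2 (Int.mul s12 s22)) N12) (Int.mul (Int.mul s22 s22) N22)))))
          (shI ks D')) (shI kc (tZ E.L E.z E.row0 ls2))) E.rows)) m : ℕ) →
      ((Nat.rec (motive := fun _ => ℕ) (lowN E.L.H E.v
      (Int.sub (shI kp (Int.mul (Int.ofNat κ) (Int.add (Int.mul (Int.mul s12 s12) N11)
          (Int.add (Int.mul (Int.mul 2 (Int.mul s12 s22)) N12) (Int.mul (Int.mul s22 s22) N22)))))
          (shI ks D'))) (fun _ _ =>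
      (minS E.L E.v E.z E.row0 ls2 kc (Int.add
        (Int.sub (shI kp (Int.mul (Int.ofNat κ) (Int.add (Int.mul (Int.mul s12 s12) N11)
          (Int.add (Int.mul (Int.mul 2 (Int.mul s12 s22)) N12) (Int.mul (Int.mul s22 s22) N22)))))
          (shI ks D')) (shI kc (tZ E.L E.z E.row0 ls2))) E.rows)) m : ℕ) : ℝ) ≤
      2 ^ kp * (κ : ℝ) * ((s12 : ℝ) * s12 * p11 + (2 * (s12 * s22) * p12 + s22 * s22 * p22)) -
        2 ^ ks * fD := by
    intro m hm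
    rcases m with _ | k
    · have := low_sound m22 h.hg h6 hbX h.hy (by rw [← h.hL]; exact hm)
      rw [← h.hL] at this
      exact this
    · exact h.min (by norm_num) h6 m22 a4 (kc := kc) hb2 hm
  have l2 := l2a nm2 (lt_of_le_of_lt (Nat.zero_le _) y2)
  set ρ1 := minS E.L E.v E.z E.row0 ls kc (Int.add
        (Int.sub (shI kp (Int.mul (Int.ofNat κ) (Int.add (Int.mul (Int.mul s11 s11) N11)
          (Int.add (Int.mul (Int.mul 2 (Int.mul s11 s21)) N12) (Int.mul (Int.mul s21 s21) N22)))))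
          (shI ks A')) (shI kc (tZ E.L E.z E.row0 ls))) E.rows with hρ1
  set ρ2 : ℕ := (Nat.rec (motive := fun _ => ℕ) (lowN E.L.H E.v
      (Int.sub (shI kp (Int.mul (Int.ofNat κ) (Int.add (Int.mul (Int.mul s12 s12) N11)
          (Int.add (Int.mul (Int.mul 2 (Int.mul s12 s22)) N12) (Int.mul (Int.mul s22 s22) N22)))))
          (shI ks D'))) (fun _ _ =>
      minS E.L E.v E.z E.row0 ls2 kc (Int.add
        (Int.sub (shI kp (Int.mul (Int.ofNat κ) (Int.add (Int.mul (Int.mul s12 s12) N11)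
          (Int.add (Int.mul (Int.mul 2 (Int.mul s12 s22)) N12) (Int.mul (Int.mul s22 s22) N22)))))
          (shI ks D')) (shI kc (tZ E.L E.z E.row0 ls2))) E.rows) nm2 : ℕ) with hρ2
  set n0 := nrmN E.L.H E.v (Int.sub (shI kp (Int.mul (Int.ofNat κ) (Int.add (Int.mul
    (Int.mul s11 s12) N11) (Int.add (Int.mul (Int.add (Int.mul s11 s22) (Int.mul s12 s21)) N12)
            (Int.mul (Int.mul s21 s22) N22))))) (shI ks B')) with hn0
  have w1 : K * (σ1 * σ1) * E.err < ρ1 := y1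
  have w2 : K * (σ2 * σ2) * E.err < ρ2 := y2
  have w3 : (n0 + K * (σ1 * σ2) * E.err) * (n0 + K * (σ1 * σ2) * E.err) ≤
    (ρ1 - K * (σ1 * σ1) * E.err) * (ρ2 - K * (σ2 * σ2) * E.err) := y3
  have hσ1r : (σ1 : ℝ) = |(s11 : ℝ)| + |(s21 : ℝ)| := by
    show ((s11.natAbs + s21.natAbs : ℕ) : ℝ) = _
    push_cast
    rw [Nat.cast_natAbs, Nat.cast_natAbs]
    push_cast
    rfl
  have hσ2r : (σ2 : ℝ) = |(s12 : ℝ)| + |(s22 : ℝ)| := by
    show ((s12.natAbs + s22.natAbs : ℕ) : ℝ) = _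
    push_cast
    rw [Nat.cast_natAbs, Nat.cast_natAbs]
    push_cast
    rfl
  have hKr : (K : ℝ) = 2 ^ kp * κ := by
    rw [hK']
    push_cast
    rfl
  have hκ' : (0 : ℝ) < κ := by exact_mod_cast hκ
  have hKp : (0 : ℝ) < 2 ^ kp * (κ : ℝ) := by positivity
  refine mat_final (κ := 2 ^ kp * (κ : ℝ)) (s11 := s11) (s12 := s12) (s21 := s21) (s22 := s22)
    (err := E.err) (q11 := 2 ^ ks * fA) (q12 := 2 ^ ks * fB) (q22 := 2 ^ ks * fD) (ρ1 := ρ1)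
    (ρ2 := ρ2) (n0 := n0) (p11 := p11) (p12 := p12) (p22 := p22) hKp hdet ?_ ?_ ?_ ?_ e11 e12 e22
    ?_ ?_ v1 v2
  · refine le_trans l1 (le_of_eq ?_)
    ring
  · refine le_trans l2 (le_of_eq ?_)
    ring
  · refine le_trans (le_of_eq ?_) l12
    congr 1
    ring
  · intro w1 w2
    have := t4 w1 w2
    have h2 : (0 : ℝ) ≤ 2 ^ ks := by positivity
    have e1 : 2 ^ ks * fA * w1 ^ 2 + 2 * (2 ^ ks * fB) * (w1 * w2) + 2 ^ ks * fD * w2 ^ 2 =
      2 ^ ks * (fA * w1 ^ 2 + 2 * fB * (w1 * w2) + fD * w2 ^ 2) := by ring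
    rw [e1]
    positivity
  · have : ((K * (σ1 * σ1) * E.err : ℕ) : ℝ) < ρ1 := by exact_mod_cast w1
    push_cast at this
    rw [← hσ1r, ← hKr]
    nlinarith
  · have h1 : ((ρ1 - K * (σ1 * σ1) * E.err : ℕ) : ℝ) = ρ1 - K * (σ1 * σ1) * E.err := by
      rw [Nat.cast_sub w1.le]
      push_cast
      ring
    have h2 : ((ρ2 - K * (σ2 * σ2) * E.err : ℕ) : ℝ) = ρ2 - K * (σ2 * σ2) * E.err := by
      rw [Nat.cast_sub w2.le]
      push_cast
      ring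
    have h3 : (((n0 + K * (σ1 * σ2) * E.err) * (n0 + K * (σ1 * σ2) * E.err) : ℕ) : ℝ) ≤
      (((ρ1 - K * (σ1 * σ1) * E.err) * (ρ2 - K * (σ2 * σ2) * E.err) : ℕ) : ℝ) := by
      exact_mod_cast w3
    rw [Nat.cast_mul, Nat.cast_mul, h1, h2] at h3
    push_cast at h3
    rw [← hσ1r, ← hσ2r, ← hKr]
    nlinarith

theorem leafM_sound {E' : Env} {F' : ℝ} (h' : EnvOK E' y F' u0 u1 u2 p0 p1 p2 V θ row)
    (h : EnvOK E y F u0 u1 u2 p0 p1 p2 V θ row) (h6 : 6 < E.e) {N11 N12 N22 : ℤ}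
    {p11 p12 p22 f11 f12 f22 : ℝ}
    (h11 : Rep (E.v + 1) E.g E.e y (dd 4 6) N11 p11 E.nb)
    (h12 : Rep (E.v + 1) E.g E.e y (dd 4 6) N12 p12 E.nb)
    (h22 : Rep (E.v + 1) E.g E.e y (dd 4 6) N22 p22 E.nb)
    (e11 : |f11 - p11| ≤ E.err) (e12 : |f12 - p12| ≤ E.err) (e22 : |f22 - p22| ≤ E.err) {n : ℕ}
    (hn : leafM E' E N11 N12 N22 n = true) (v1 v2 : ℝ) :
    0 ≤ f11 * v1 ^ 2 + 2 * f12 * (v1 * v2) + f22 * v2 ^ 2 := by
  unfold leafM at hn
  rcases hκ : Nat.mod n 16777216 with _ | k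
  · rw [hκ] at hn
    exact (leafOM_sound h' hn).elim
  · rw [hκ] at hn
    exact leafM1_sound h h6 h11 h12 h22 e11 e12 e22 (by rw [hκ]; exact Nat.succ_pos k) hn v1 v2

end

end Pool.Agent.Helper45.TOP
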