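import Pool.Agent.Helper45.TOP.KrCon

/-!
# Project TOP: reading of forms (spreading of 12-bit digits by multiplication and masks)

Entries `(c, i)`: the digit at the source bit `i` goes to the target bit `c`.
-/

set_option autoImplicit false

namespace Pool.Agent.Helper45.TOP

def sM : List (ℕ × ℕ) → ℕ
  | [] => 0
  | x :: l => 2 ^ (x.1 - x.2) + sM l

def sK (m : ℕ) : List (ℕ × ℕ) → ℕ
  | [] => 0
  | x :: l => m * 2 ^ x.1 + sK m l

def sV (m n : ℕ) : List (ℕ × ℕ) → ℕ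
  | [] => 0
  | x :: l => ((n / 2 ^ x.2) &&& m) * 2 ^ x.1 + sV m n l

def tp (N : ℕ) : List (ℕ × ℕ) → ℕ
  | [] => 0
  | x :: _ => x.1 - x.2 + N

def sOK (N : ℕ) : List (ℕ × ℕ) → Bool
  | [] => true
  | x :: l => decide (x.2 ≤ x.1) && decide (x.2 + 12 ≤ N) && decide (tp N l ≤ x.1 - x.2) && sOK N l

theorem land_split {s a b S T : ℕ} (hS : S < 2 ^ s) (hT : T < 2 ^ s) :
    (2 ^ s * a + S) &&& (2 ^ s * b + T) = 2 ^ s * (a &&& b) + (S &&& T) := by
  apply Nat.eq_of_testBit_eq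
  intro k
  have h0 : S &&& T < 2 ^ s := lt_of_le_of_lt Nat.and_le_left hS
  rw [Nat.testBit_and, Nat.testBit_two_pow_mul_add _ hS, Nat.testBit_two_pow_mul_add _ hT,
    Nat.testBit_two_pow_mul_add _ h0]
  split
  · rw [Nat.testBit_and]
  · rw [Nat.testBit_and]

theorem land_shift (n m i : ℕ) : n &&& (m * 2 ^ i) = ((n / 2 ^ i) &&& m) * 2 ^ i := by
  apply Nat.eq_of_testBit_eq
  intro k
  rw [Nat.mul_comm m, Nat.mul_comm _ (2 ^ i), Nat.testBit_and, Nat.testBit_two_pow_mul,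
    Nat.testBit_two_pow_mul, Nat.testBit_and, Nat.testBit_div_two_pow]
  by_cases h : i ≤ k
  · have e : k - i + i = k := by omega
    simp [h, e]
  · simp [h]

theorem sp_main {N n m : ℕ} (hn : n < 2 ^ N) (hm : m < 2 ^ 12) : ∀ l : List (ℕ × ℕ),
    sOK N l = true → n * sM l < 2 ^ tp N l ∧ sK m l < 2 ^ tp N l ∧
      (n * sM l) &&& sK m l = sV m n l
  | [], _ => by
    refine ⟨by simp [sM, tp], by simp [sK, tp], by simp [sM, sK, sV]⟩
  | x :: l, h => by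
    simp only [sOK, Bool.and_eq_true, decide_eq_true_eq] at h
    obtain ⟨⟨⟨h1, h2⟩, h3⟩, h4⟩ := h
    obtain ⟨a1, a2, a3⟩ := sp_main hn hm l h4
    have hp := Nat.pow_le_pow_right (n := 2) (by norm_num) h3
    have b1 : n * sM l < 2 ^ (x.1 - x.2) := lt_of_lt_of_le a1 hp
    have b2 : sK m l < 2 ^ (x.1 - x.2) := lt_of_lt_of_le a2 hp
    have e1 : n * sM (x :: l) = 2 ^ (x.1 - x.2) * n + n * sM l := by
      rw [sM]; ring
    have e2 : sK m (x :: l) = 2 ^ (x.1 - x.2) * (m * 2 ^ x.2) + sK m l := by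
      have e : 2 ^ x.1 = 2 ^ (x.1 - x.2) * 2 ^ x.2 := by
        rw [← pow_add]; congr 1; omega
      rw [sK, e]; ring
    have e3 : tp N (x :: l) = x.1 - x.2 + N := rfl
    have hmx : m * 2 ^ x.2 < 2 ^ N := by
      calc m * 2 ^ x.2 < 2 ^ 12 * 2 ^ x.2 := Nat.mul_lt_mul_of_pos_right hm (by positivity)
        _ = 2 ^ (12 + x.2) := by rw [pow_add]
        _ ≤ 2 ^ N := Nat.pow_le_pow_right (by norm_num) (by omega)
    have key : ∀ q r : ℕ, q < 2 ^ N → r < 2 ^ (x.1 - x.2) →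
        2 ^ (x.1 - x.2) * q + r < 2 ^ (x.1 - x.2 + N) := by
      intro q r hq hr
      calc 2 ^ (x.1 - x.2) * q + r < 2 ^ (x.1 - x.2) * q + 2 ^ (x.1 - x.2) := by omega
        _ = 2 ^ (x.1 - x.2) * (q + 1) := by ring
        _ ≤ 2 ^ (x.1 - x.2) * 2 ^ N := Nat.mul_le_mul_left _ hq
        _ = _ := by rw [← pow_add]
    rw [e1, e2, e3]
    refine ⟨key _ _ hn b1, key _ _ hmx b2, ?_⟩
    rw [land_split b1 b2, a3, land_shift, sV]
    have e : 2 ^ x.1 = 2 ^ (x.1 - x.2) * 2 ^ x.2 := by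
      rw [← pow_add]; congr 1; omega
    rw [e]; ring

/-! ### monomials -/

/-- positions of the variables `t₀, t₁, s₂, s₁, s₀, 1` -/
def sp6 (g e : ℕ) : Fin 6 → ℕ := ![1, g, g * g, g * g * e, g * g * e * e, 0]

/-- their values -/
noncomputable def y6 (y : Fin 5 → ℝ) : Fin 6 → ℝ := ![y 0, y 1, y 2, y 3, y 4, 1]

/-- the digit `k` of a code -/
def sd (n k : ℕ) : ℤ := ((n / 2 ^ (12 * k) &&& 4095 : ℕ) : ℤ) - 2 * ((n / 2 ^ (12 * k) &&& 2048 : ℕ) : ℤ)

theorem sd_le (n k : ℕ) : (sd n k).natAbs ≤ 2048 := by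
  have h2 : ∀ x : ℕ, x &&& 2048 = (x % 4096) &&& 2048 := fun x => by
    rw [show (2048 : ℕ) = 2 ^ 11 from rfl, Nat.and_two_pow, Nat.and_two_pow,
      show (4096 : ℕ) = 2 ^ 12 from rfl, Nat.testBit_mod_two_pow]
    simp
  unfold sd
  generalize n / 2 ^ (12 * k) = x
  have h3 := Nat.mod_lt x (show 4096 > 0 by norm_num)
  rw [h2, show (4095 : ℕ) = 2 ^ 12 - 1 from rfl, Nat.and_two_pow_sub_one_eq_mod,
    show (2048 : ℕ) = 2 ^ 11 from rfl, dig_aux 11 _ (by exact h3)]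
  split <;> rename_i h <;> norm_num at h ⊢ <;> omega

/-- entries of a list of monomials; `off` = offset of the targets -/
def ent (w g e off : ℕ) (x : ℕ × (Fin 6 × Fin 6)) : ℕ × ℕ :=
  (w * (sp6 g e x.2.1 + sp6 g e x.2.2) + off, 12 * x.1)

/-- the sum of the masked digits -/
def tV (w g e m n : ℕ) : List (ℕ × (Fin 6 × Fin 6)) → ℕ
  | [] => 0
  | x :: l => ((n / 2 ^ (12 * x.1)) &&& m) * 2 ^ (w * (sp6 g e x.2.1 + sp6 g e x.2.2)) + tV w g e m n l

/-- the value of a form at the Kronecker point -/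
def fZ (w g e n : ℕ) : List (ℕ × (Fin 6 × Fin 6)) → ℤ
  | [] => 0
  | x :: l => sd n x.1 * 2 ^ (w * (sp6 g e x.2.1 + sp6 g e x.2.2)) + fZ w g e n l

/-- the value of a form -/
noncomputable def fV (n : ℕ) (y : Fin 5 → ℝ) : List (ℕ × (Fin 6 × Fin 6)) → ℝ
  | [] => 0
  | x :: l => sd n x.1 * (y6 y x.2.1 * y6 y x.2.2) + fV n y l

theorem sV_ent (w g e off m n : ℕ) : ∀ l : List (ℕ × (Fin 6 × Fin 6)),
    sV m n (l.map (ent w g e off)) = 2 ^ off * tV w g e m n l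
  | [] => rfl
  | x :: l => by
    rw [List.map_cons, sV, sV_ent w g e off m n l, tV]
    show (n / 2 ^ (12 * x.1) &&& m) * 2 ^ (w * (sp6 g e x.2.1 + sp6 g e x.2.2) + off) + _ = _
    rw [pow_add]; ring

theorem fZ_eq (w g e n : ℕ) : ∀ l : List (ℕ × (Fin 6 × Fin 6)),
    fZ w g e n l = (tV w g e 4095 n l : ℤ) - 2 * (tV w g e 2048 n l : ℤ)
  | [] => rfl
  | x :: l => by
    rw [fZ, fZ_eq w g e n l, tV, tV, sd]
    push_cast
    ring

theorem fZ_append (w g e n : ℕ) : ∀ l l' : List (ℕ × (Fin 6 × Fin 6)),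
    fZ w g e n (l ++ l') = fZ w g e n l + fZ w g e n l'
  | [], l' => by rw [List.nil_append, fZ, zero_add]
  | x :: l, l' => by rw [List.cons_append, fZ, fZ, fZ_append w g e n l l', add_assoc]

section
variable {w g e : ℕ} {y : Fin 5 → ℝ}

theorem Rep.y6 (a : Fin 6) : Rep w g e y (dd 1 1) (2 ^ (w * sp6 g e a)) (y6 y a) 1 := by
  have hv : ∀ j : Fin 5, Rep w g e y (dd 1 1) (2 ^ (w * str g e j)) (y j) 1 := fun j => by
    refine (Rep.var j).mono (fun i => ?_) le_rfl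
    fin_cases i <;> (show (if _ then 1 else 0) ≤ 1) <;> split_ifs <;> norm_num
  fin_cases a
  · exact hv 0
  · exact hv 1
  · exact hv 2
  · exact hv 3
  · exact hv 4
  · have h := Rep.nat (w := w) (g := g) (e := e) (y := y) 1
    have h2 := h.up (c' := 1) (h' := 1) (Nat.zero_le _) (Nat.zero_le _) le_rfl
    have e1 : ((2 : ℤ) ^ (w * sp6 g e 5)) = ((1 : ℕ) : ℤ) := by
      show ((2 : ℤ) ^ (w * 0)) = _
      simp
    have e2 : Pool.Agent.Helper45.TOP.y6 y 5 = ((1 : ℕ) : ℝ) := by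
      show (1 : ℝ) = _
      simp
    show Rep w g e y (dd 1 1) (2 ^ (w * sp6 g e 5)) (Pool.Agent.Helper45.TOP.y6 y 5) 1
    rw [e1, e2]
    exact h2

theorem Rep.dgt (n k : ℕ) : Rep w g e y (dd 0 0) (sd n k) (sd n k) 2048 :=
  (Rep.int (sd n k)).up le_rfl le_rfl (sd_le n k)

/-- degree two -/
theorem Rep.f2 (n : ℕ) : ∀ l : List (ℕ × (Fin 6 × Fin 6)),
    Rep w g e y (dd 2 2) (fZ w g e n l) (fV n y l) (2048 * l.length)
  | [] => by
    have := (Rep.nat (w := w) (g := g) (e := e) (y := y) 0).up (c' := 2) (h' := 2)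
      (Nat.zero_le _) (Nat.zero_le _) (b' := 0) le_rfl
    simpa [fZ, fV] using this
  | x :: l => by
    have h1 := (Rep.dgt (w := w) (g := g) (e := e) (y := y) n x.1).mulD
      ((Rep.y6 (w := w) (g := g) (e := e) (y := y) x.2.1).mulD (Rep.y6 x.2.2))
    have h2 := h1.add ((Rep.f2 n l).up (c' := 0 + (1 + 1)) (h' := 0 + (1 + 1)) le_rfl le_rfl le_rfl)
    rw [fZ, fV, mul_add, pow_add, List.length_cons]
    exact h2.up le_rfl le_rfl (by omega)

/-- degree one -/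
theorem Rep.f1 (n : ℕ) : ∀ l : List (ℕ × (Fin 6 × Fin 6)), (∀ x ∈ l, x.2.2 = 5) →
    Rep w g e y (dd 1 1) (fZ w g e n l) (fV n y l) (2048 * l.length)
  | [], _ => by
    have := (Rep.nat (w := w) (g := g) (e := e) (y := y) 0).up (c' := 1) (h' := 1)
      (Nat.zero_le _) (Nat.zero_le _) (b' := 0) le_rfl
    simpa [fZ, fV] using this
  | x :: l, h => by
    have h0 := h x List.mem_cons_self
    have h1 := (Rep.dgt (w := w) (g := g) (e := e) (y := y) n x.1).mulD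
      (Rep.y6 (w := w) (g := g) (e := e) (y := y) x.2.1)
    have h2 := h1.add ((Rep.f1 n l (fun z hz => h z (List.mem_cons_of_mem _ hz))).up
      (c' := 0 + 1) (h' := 0 + 1) le_rfl le_rfl le_rfl)
    have e1 : Pool.Agent.Helper45.TOP.y6 y 5 = 1 := rfl
    have e2 : sp6 g e 5 = 0 := rfl
    rw [fZ, fV, List.length_cons, h0, e1, e2, mul_one, add_zero]
    exact h2.up le_rfl le_rfl (by omega)

end

/-! ### the lists -/

/-- group A of the quadratic forms -/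
def gA : List (ℕ × (Fin 6 × Fin 6)) :=
  [(0, (4, 4)), (1, (4, 3)), (2, (4, 2)), (3, (4, 1)), (5, (4, 5)), (6, (3, 3)), (7, (3, 2)),
    (8, (3, 1)), (10, (3, 5)), (11, (2, 2)), (12, (2, 1)), (14, (2, 5)), (15, (1, 1)), (17, (1, 5)),
    (18, (0, 0)), (20, (5, 5))]

/-- group B -/
def gB : List (ℕ × (Fin 6 × Fin 6)) := [(4, (4, 0)), (9, (3, 0)), (13, (2, 0)), (16, (1, 0)), (19, (0, 5))]

/-- affine forms, order `c, t₀, t₁, s₀, s₁, s₂` by source -/
def gF : List (ℕ × (Fin 6 × Fin 6)) :=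
  [(3, (4, 5)), (4, (3, 5)), (5, (2, 5)), (2, (1, 5)), (1, (0, 5)), (0, (5, 5))]

/-- the constants of a layout -/
structure Lay where
  MA : ℕ
  KA : ℕ
  SA : ℕ
  MB : ℕ
  KB : ℕ
  SB : ℕ
  MF : ℕ
  KF : ℕ
  SF : ℕ
  H : ℕ

/-- **the layout** -/
def mkLay (v g e : ℕ) : Lay :=
  ⟨sM (gA.map (ent (v + 1) g e 240)), sK 4095 (gA.map (ent (v + 1) g e 240)),
    sK 2048 (gA.map (ent (v + 1) g e 240)), sM (gB.map (ent (v + 1) g e 240)),
    sK 4095 (gB.map (ent (v + 1) g e 240)), sK 2048 (gB.map (ent (v + 1) g e 240)),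
    sM (gF.map (ent (v + 1) g e 0)), sK 4095 (gF.map (ent (v + 1) g e 0)),
    sK 2048 (gF.map (ent (v + 1) g e 0)),
    2 ^ v * ((2 ^ ((v + 1) * npos g e) - 1) / (2 ^ (v + 1) - 1))⟩

def layOK (v g e : ℕ) : Bool :=
  sOK 252 (gA.map (ent (v + 1) g e 240)) && sOK 252 (gB.map (ent (v + 1) g e 240)) &&
    sOK 72 (gF.map (ent (v + 1) g e 0))

theorem pk_one (w : ℕ) : ∀ n : ℕ, pk w n (fun _ => 1) * (2 ^ w - 1) = 2 ^ (w * n) - 1
  | 0 => by simp [pk]
  | n + 1 => by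
    have h1 : 1 ≤ 2 ^ w := Nat.one_le_two_pow
    have h2 : 1 ≤ 2 ^ (w * n) := Nat.one_le_two_pow
    have ih := pk_one w n
    rw [pk]
    have e1 : (1 + 2 ^ w * pk w n (fun _ => 1)) * (2 ^ w - 1) =
        (2 ^ w - 1) + 2 ^ w * (pk w n (fun _ => 1) * (2 ^ w - 1)) := by ring
    rw [e1, ih, Nat.mul_add, mul_one, pow_add, Nat.mul_sub]
    have h3 : 2 ^ w * 1 ≤ 2 ^ w * 2 ^ (w * n) := Nat.mul_le_mul_left _ h2
    rw [Nat.mul_comm (2 ^ (w * n)) (2 ^ w)]
    omega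

theorem mkLay_H {v g e : ℕ} : (mkLay v g e).H = Hc v g e := by
  show 2 ^ v * ((2 ^ ((v + 1) * npos g e) - 1) / (2 ^ (v + 1) - 1)) = 2 ^ v * pk (v + 1) (npos g e) (fun _ => 1)
  rw [← pk_one, Nat.mul_div_cancel]
  have : 2 ^ 1 ≤ 2 ^ (v + 1) := Nat.pow_le_pow_right (by norm_num) (by omega)
  omega

/-- quadratic form -/
def quadL (L : Lay) (n : ℕ) : ℤ :=
  (fun x y => Int.sub
    (Int.ofNat (Nat.shiftRight (Nat.add (Nat.land x L.KA) (Nat.land y L.KB)) 240))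
    (Int.ofNat (Nat.shiftRight (Nat.add (Nat.land x L.SA) (Nat.land y L.SB)) 239)))
    (Nat.mul n L.MA) (Nat.mul n L.MB)

/-- affine form -/
def affL (L : Lay) (n : ℕ) : ℤ :=
  (fun x => Int.sub (Int.ofNat (Nat.land x L.KF)) (Int.ofNat (Nat.mul 2 (Nat.land x L.SF))))
    (Nat.mul n L.MF)

def M252 : ℕ := 7237005577332262213973186563042994240829374041602535252466099000494570602496
def M72 : ℕ := 4722366482869645213696

theorem M252_eq : M252 = 2 ^ 252 := by decide +kernel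
theorem M72_eq : M72 = 2 ^ 72 := by decide +kernel

/-- **a form** -/
noncomputable def frm (L : Lay) (n : ℕ) : ℤ :=
  Bool.rec (motive := fun _ => ℤ) (quadL L n) (affL L (Nat.mod n M72)) (Nat.ble M252 n)

noncomputable def frmR (n : ℕ) (y : Fin 5 → ℝ) : ℝ :=
  if M252 ≤ n then fV (n % M72) y gF else fV n y (gA ++ gB)

theorem quadL_eq {v g e n : ℕ} (hL : layOK v g e = true) (hn : n < M252) :
    quadL (mkLay v g e) n = fZ (v + 1) g e n (gA ++ gB) := by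
  simp only [layOK, Bool.and_eq_true] at hL
  obtain ⟨⟨h1, h2⟩, h3⟩ := hL
  rw [M252_eq] at hn
  have a1 := (sp_main (m := 4095) hn (by norm_num) _ h1).2.2
  have a2 := (sp_main (m := 2048) hn (by norm_num) _ h1).2.2
  have a3 := (sp_main (m := 4095) hn (by norm_num) _ h2).2.2
  have a4 := (sp_main (m := 2048) hn (by norm_num) _ h2).2.2
  rw [sV_ent] at a1 a2 a3 a4
  rw [fZ_append, fZ_eq, fZ_eq]
  show (((((n * sM (gA.map (ent (v + 1) g e 240))) &&& sK 4095 (gA.map (ent (v + 1) g e 240))) +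
      ((n * sM (gB.map (ent (v + 1) g e 240))) &&& sK 4095 (gB.map (ent (v + 1) g e 240)))) >>> 240
      : ℕ) : ℤ) -
    (((((n * sM (gA.map (ent (v + 1) g e 240))) &&& sK 2048 (gA.map (ent (v + 1) g e 240))) +
      ((n * sM (gB.map (ent (v + 1) g e 240))) &&& sK 2048 (gB.map (ent (v + 1) g e 240)))) >>> 239
      : ℕ) : ℤ) = _
  rw [a1, a2, a3, a4, ← Nat.mul_add, ← Nat.mul_add, Nat.shiftRight_eq_div_pow,
    Nat.shiftRight_eq_div_pow, Nat.mul_div_cancel_left _ (by positivity)]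
  have e1 : (2 : ℕ) ^ 240 = 2 ^ 239 * 2 := by norm_num
  rw [e1, Nat.mul_assoc, Nat.mul_div_cancel_left _ (by positivity)]
  push_cast
  ring

theorem affL_eq {v g e n : ℕ} (hL : layOK v g e = true) (hn : n < M72) :
    affL (mkLay v g e) n = fZ (v + 1) g e n gF := by
  simp only [layOK, Bool.and_eq_true] at hL
  obtain ⟨⟨h1, h2⟩, h3⟩ := hL
  rw [M72_eq] at hn
  have a1 := (sp_main (m := 4095) hn (by norm_num) _ h3).2.2
  have a2 := (sp_main (m := 2048) hn (by norm_num) _ h3).2.2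
  rw [sV_ent, pow_zero, one_mul] at a1 a2
  rw [fZ_eq]
  show (((n * sM (gF.map (ent (v + 1) g e 0))) &&& sK 4095 (gF.map (ent (v + 1) g e 0)) : ℕ) : ℤ) -
    ((2 * ((n * sM (gF.map (ent (v + 1) g e 0))) &&& sK 2048 (gF.map (ent (v + 1) g e 0))) : ℕ) : ℤ)
    = _
  rw [a1, a2]
  push_cast
  ring

theorem frm_rep {v g e : ℕ} {y : Fin 5 → ℝ} (hL : layOK v g e = true) (n : ℕ) :
    Rep (v + 1) g e y (dd 2 2) (frm (mkLay v g e) n) (frmR n y) 43008 := by
  unfold frm frmR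
  rcases hb : Nat.ble M252 n with _ | _
  · have h1 : ¬ M252 ≤ n := fun h => by
      rw [Nat.ble_eq_true_of_le h] at hb
      exact Bool.noConfusion hb
    rw [if_neg h1]
    show Rep (v + 1) g e y (dd 2 2) (quadL (mkLay v g e) n) _ _
    rw [quadL_eq hL (by omega)]
    exact (Rep.f2 n (gA ++ gB)).up le_rfl le_rfl (by decide)
  · have h1 : M252 ≤ n := Nat.le_of_ble_eq_true hb
    rw [if_pos h1]
    show Rep (v + 1) g e y (dd 2 2) (affL (mkLay v g e) (n % M72)) _ _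
    rw [affL_eq hL (Nat.mod_lt _ (by decide))]
    exact (Rep.f2 _ gF).up le_rfl le_rfl (by decide)

theorem aff_rep {v g e : ℕ} {y : Fin 5 → ℝ} (hL : layOK v g e = true) (n : ℕ) :
    Rep (v + 1) g e y (dd 1 1) (affL (mkLay v g e) (Nat.mod n M72)) (fV (n % M72) y gF) 12288 := by
  show Rep (v + 1) g e y (dd 1 1) (affL (mkLay v g e) (n % M72)) _ _
  rw [affL_eq hL (Nat.mod_lt _ (by decide))]
  refine (Rep.f1 _ gF ?_).up le_rfl le_rfl (by decide)
  decide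

end Pool.Agent.Helper45.TOP
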