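import Pool.Agent.Helper45.TOP.KrZ

/-!
# Project TOP: multipliers and states
-/

set_option autoImplicit false

namespace Pool.Agent.Helper45.TOP
open Helper10.PC Pool.Agent.Helper6.TOP

/-- fast `nthC` -/
noncomputable def nthF (j : ℕ) : List Cv → Cv :=
  Nat.rec (motive := fun _ => List Cv → Cv)
    (fun l => List.rec (motive := fun _ => Cv) Cv.zero (fun a _ _ => a) l)
    (fun _ ih l => List.rec (motive := fun _ => Cv) Cv.zero (fun _ t _ => ih t) l) j

theorem nthF_eq : ∀ (j : ℕ) (l : List Cv), nthF j l = nthC l j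
  | 0, [] => rfl
  | 0, _ :: _ => rfl
  | _ + 1, [] => rfl
  | j + 1, _ :: l => nthF_eq j l

/-- all constants of the rows are bounded -/
def cmOK (cm : ℕ) (row : List Cv) : Bool := row.all fun C => Nat.ble (cabs C) cm

theorem cm_nth {cm : ℕ} : ∀ (row : List Cv) (j : ℕ), cmOK cm row = true → cabs (nthC row j) ≤ cm
  | [], _, _ => Nat.zero_le _
  | C :: l, 0, h => by
    simp only [cmOK, List.all_cons, Bool.and_eq_true] at h
    exact Nat.le_of_ble_eq_true h.1
  | C :: l, j + 1, h => by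
    simp only [cmOK, List.all_cons, Bool.and_eq_true] at h
    exact cm_nth l j h.2

/-- equal quadratic parts -/
def eqR : List Cv → List Cv → Bool
  | [], [] => true
  | C :: l, D :: l' => decide (C.sa = D.sa) && decide (C.da = D.da) && eqR l l'
  | _, _ => false

theorem eqR_nth : ∀ (l l' : List Cv) (j : ℕ), eqR l l' = true →
    (nthC l j).sa = (nthC l' j).sa ∧ (nthC l j).da = (nthC l' j).da
  | [], [], _, _ => ⟨rfl, rfl⟩
  | C :: l, D :: l', 0, h => by
    simp only [eqR, Bool.and_eq_true, decide_eq_true_eq] at h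
    exact h.1
  | C :: l, D :: l', j + 1, h => by
    simp only [eqR, Bool.and_eq_true, decide_eq_true_eq] at h
    exact eqR_nth l l' j h.2
  | [], _ :: _, _, h => by simp [eqR] at h
  | _ :: _, [], _, h => by simp [eqR] at h

/-- difference of constraints -/
def conD (z : ZB) (v w : Cv) : ℤ :=
  Int.add (Int.mul (Int.sub v.sb0 w.sb0) z.sb0) (Int.add (Int.mul (Int.sub v.sb1 w.sb1) z.sb1)
    (Int.add (Int.mul (Int.sub v.sb2 w.sb2) z.sb2) (Int.add (Int.mul (Int.sub v.db0 w.db0) z.db0)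
    (Int.add (Int.mul (Int.sub v.db1 w.db1) z.db1) (Int.add (Int.mul (Int.sub v.db2 w.db2) z.db2)
    (Int.mul (Int.sub v.sc w.sc) z.sc))))))

theorem conD_eq (z : ZB) {v w : Cv} (h1 : v.sa = w.sa) (h2 : v.da = w.da) :
    conD z v w = conZ z v - conZ z w := by
  show (v.sb0 - w.sb0) * z.sb0 + ((v.sb1 - w.sb1) * z.sb1 + ((v.sb2 - w.sb2) * z.sb2 +
    ((v.db0 - w.db0) * z.db0 + ((v.db1 - w.db1) * z.db1 + ((v.db2 - w.db2) * z.db2 +
    (v.sc - w.sc) * z.sc))))) = (v.sa * z.sa + (v.da * z.da + (v.sb0 * z.sb0 + (v.sb1 * z.sb1 +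
    (v.sb2 * z.sb2 + (v.db0 * z.db0 + (v.db1 * z.db1 + (v.db2 * z.db2 + v.sc * z.sc)))))))) -
    (w.sa * z.sa + (w.da * z.da + (w.sb0 * z.sb0 + (w.sb1 * z.sb1 +
    (w.sb2 * z.sb2 + (w.db0 * z.db0 + (w.db1 * z.db1 + (w.db2 * z.db2 + w.sc * z.sc))))))))
  rw [h1, h2]
  ring

/-- `∑ λ_j C_j` at a state -/
noncomputable def tZ (L : Lay) (z : ZB) (row : List Cv) (ls : List (ℕ × ℕ)) : ℤ :=
  List.rec (motive := fun _ => ℤ) 0
    (fun x _ ih => Int.add (Int.mul (frm L x.2) (conZ z (nthF x.1 row))) ih) ls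

/-- the difference of two states -/
noncomputable def tD (L : Lay) (z : ZB) (row row0 : List Cv) (ls : List (ℕ × ℕ)) : ℤ :=
  List.rec (motive := fun _ => ℤ) 0
    (fun x _ ih => Int.add (Int.mul (frm L x.2) (conD z (nthF x.1 row) (nthF x.1 row0))) ih) ls

theorem tD_eq (L : Lay) (z : ZB) {row row0 : List Cv} (h : eqR row row0 = true) :
    ∀ ls : List (ℕ × ℕ), tD L z row row0 ls = tZ L z row ls - tZ L z row0 ls
  | [] => rfl
  | x :: l => by
    have h1 := eqR_nth row row0 x.1 h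
    show frm L x.2 * conD z (nthF x.1 row) (nthF x.1 row0) + tD L z row row0 l =
      (frm L x.2 * conZ z (nthF x.1 row) + tZ L z row l) -
      (frm L x.2 * conZ z (nthF x.1 row0) + tZ L z row0 l)
    rw [tD_eq L z h l, nthF_eq, nthF_eq, conD_eq z h1.1 h1.2]
    ring

section
variable {v g e : ℕ} {y : Fin 5 → ℝ} {F u0 u1 u2 p0 p1 p2 : ℝ} {b : ℕ} {z : ZB}

/-- the real value -/
noncomputable def tR (y : Fin 5 → ℝ) (F u0 u1 u2 p0 p1 p2 : ℝ) (row : List Cv) :
    List (ℕ × ℕ) → ℝ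
  | [] => 0
  | x :: l => frmR x.2 y * (F * (nthC row x.1).val u0 u1 u2 p0 p1 p2) +
      tR y F u0 u1 u2 p0 p1 p2 row l

theorem tZ_rep (hL : layOK v g e = true) (hz : ZRep (v + 1) g e y z F u0 u1 u2 p0 p1 p2 b)
    {cm : ℕ} {row : List Cv} (hc : cmOK cm row = true) : ∀ ls : List (ℕ × ℕ),
    Rep (v + 1) g e y (dd 4 4) (tZ (mkLay v g e) z row ls) (tR y F u0 u1 u2 p0 p1 p2 row ls)
      (ls.length * (43008 * (cm * b)))
  | [] => by
    have h : Rep (v + 1) g e y (dd 4 4) 0 0 0 := Rep.zero.mono (fun _ => le_rfl) le_rfl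
    exact h.up le_rfl le_rfl (Nat.zero_le _)
  | x :: l => by
    have h1 := (frm_rep (y := y) hL x.2).mulD (hz.con (nthC row x.1))
    have h2 := h1.up (c' := 4) (h' := 4) (by norm_num) (by norm_num)
      (Nat.mul_le_mul_left 43008 (Nat.mul_le_mul_right b (cm_nth row x.1 hc)))
    have h3 := h2.add (tZ_rep hL hz hc l)
    show Rep (v + 1) g e y (dd 4 4) (frm (mkLay v g e) x.2 * conZ z (nthF x.1 row) +
      tZ (mkLay v g e) z row l) (frmR x.2 y * (F * (nthC row x.1).val u0 u1 u2 p0 p1 p2) +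
      tR y F u0 u1 u2 p0 p1 p2 row l) _
    rw [nthF_eq]
    refine h3.up le_rfl le_rfl ?_
    rw [List.length_cons, Nat.add_mul, one_mul, add_comm]

/-- averages -/
theorem avg {ι : Type} {V : List ι} {θ G : ι → ℝ} (h0 : ∀ v ∈ V, 0 ≤ θ v) {r f0 : ℝ}
    (h : ∀ v ∈ V, r ≤ f0 + G v) :
    (V.map θ).sum * r ≤ (V.map θ).sum * f0 + (V.map fun v => θ v * G v).sum := by
  induction V with
  | nil => simp
  | cons a l ih =>
    have h1 := ih (fun v hv => h0 v (List.mem_cons_of_mem _ hv))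
      (fun v hv => h v (List.mem_cons_of_mem _ hv))
    have h2 := h a List.mem_cons_self
    have h3 := h0 a List.mem_cons_self
    simp only [List.map_cons, List.sum_cons]
    nlinarith [mul_le_mul_of_nonneg_left h2 h3]

theorem avg_zero {ι : Type} (V : List ι) (θ : ι → ℝ) : (V.map fun v => θ v * 0).sum = 0 := by
  induction V with
  | nil => simp
  | cons a l ih => simp [ih]

theorem avg_add {ι : Type} (V : List ι) (θ G H : ι → ℝ) :
    (V.map fun v => θ v * (G v + H v)).sum =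
      (V.map fun v => θ v * G v).sum + (V.map fun v => θ v * H v).sum := by
  induction V with
  | nil => simp
  | cons a l ih =>
    simp only [List.map_cons, List.sum_cons, ih]
    ring

theorem avg_mul {ι : Type} (V : List ι) (θ G : ι → ℝ) (c : ℝ) :
    (V.map fun v => θ v * (c * G v)).sum = c * (V.map fun v => θ v * G v).sum := by
  induction V with
  | nil => simp
  | cons a l ih =>
    simp only [List.map_cons, List.sum_cons, ih]
    ring

theorem tR_avg {ι : Type} {V : List ι} {θ : ι → ℝ} {row : ι → List Cv} (hF : 0 ≤ F)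
    (hC : ∀ j, (V.map fun v => θ v * (nthC (row v) j).val u0 u1 u2 p0 p1 p2).sum ≤ 0) :
    ∀ ls : List (ℕ × ℕ), (∀ x ∈ ls, 0 ≤ frmR x.2 y) →
    (V.map fun v => θ v * tR y F u0 u1 u2 p0 p1 p2 (row v) ls).sum ≤ 0
  | [], _ => by
    simp only [tR]
    rw [avg_zero]
  | x :: l, h => by
    have h1 := tR_avg hF hC l (fun z hz => h z (List.mem_cons_of_mem _ hz))
    have h2 := h x List.mem_cons_self
    simp only [tR]
    rw [avg_add]
    have e1 : (V.map fun v => θ v * (frmR x.2 y * (F * (nthC (row v) x.1).val u0 u1 u2 p0 p1 p2))).sum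
        = frmR x.2 y * F * (V.map fun v => θ v * (nthC (row v) x.1).val u0 u1 u2 p0 p1 p2).sum := by
      rw [← avg_mul]
      refine congrArg List.sum (List.map_congr_left fun v _ => by ring)
    rw [e1]
    have h3 := mul_nonpos_of_nonneg_of_nonpos (mul_nonneg h2 hF) (hC x.1)
    linarith

end

/-! ### digit tests -/

/-- lower bound if positive -/
def lowN (H v : ℕ) (N : ℤ) : ℕ := (fun A => Nat.sub (rdc v A) (rds v A N)) (apN v H N)

/-- norm -/
def nrmN (H v : ℕ) (N : ℤ) : ℕ := (fun A => rds v A N) (apN v H N)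

/-- a multiplier is nonnegative -/
noncomputable def lamOK4 (L : Lay) (v c : ℕ) : Bool :=
  (fun N => (fun A => Nat.ble (rds v A N) (rdc v A)) (apN v L.H N)) (frm L c)

section
variable {v g e : ℕ} {y : Fin 5 → ℝ}

theorem low_sound {c h : ℕ} {N : ℤ} {f : ℝ} {b : ℕ} (hr : Rep (v + 1) g e y (dd c h) N f b)
    (hc : c < g) (hh : h < e) (hb : b < 2 ^ v) (hy : ∀ j, |y j| ≤ 1)
    (h0 : 0 < lowN (mkLay v g e).H v N) : (lowN (mkLay v g e).H v N : ℝ) ≤ f := by
  have hd : ∀ j, dd c h j < rad g e j := by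
    intro j
    fin_cases j
    · exact hc
    · exact hc
    · exact hh
    · exact hh
    · exact hh
  have h1 := (hr.read hd hb hy).1
  rw [mkLay_H] at h0 ⊢
  have e1 : lowN (Hc v g e) v N = rdc v (apN v (Hc v g e) N) - rds v (apN v (Hc v g e) N) N := rfl
  rw [e1] at h0 ⊢
  have h2 : rds v (apN v (Hc v g e) N) N ≤ rdc v (apN v (Hc v g e) N) := by omega
  rw [Nat.cast_sub h2]
  exact h1

theorem nrm_sound {c h : ℕ} {N : ℤ} {f : ℝ} {b : ℕ} (hr : Rep (v + 1) g e y (dd c h) N f b)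
    (hc : c < g) (hh : h < e) (hb : b < 2 ^ v) (hy : ∀ j, |y j| ≤ 1) :
    |f| ≤ (nrmN (mkLay v g e).H v N : ℝ) := by
  have hd : ∀ j, dd c h j < rad g e j := by
    intro j
    fin_cases j
    · exact hc
    · exact hc
    · exact hh
    · exact hh
    · exact hh
  have h1 := (hr.read hd hb hy).2
  rw [mkLay_H]
  exact h1

theorem lamOK4_sound (hL : layOK v g e = true) (hg : 2 < g) (he : 2 < e) (hv : 43008 < 2 ^ v)
    (hy : ∀ j, |y j| ≤ 1) {c : ℕ} (h : lamOK4 (mkLay v g e) v c = true) : 0 ≤ frmR c y := by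
  have hr := frm_rep (y := y) hL c
  have hd : ∀ j, dd 2 2 j < rad g e j := by
    intro j
    fin_cases j
    · exact hg
    · exact hg
    · exact he
    · exact he
    · exact he
  have h1 := (hr.read hd hv hy).1
  have h2 : rds v (apN v (mkLay v g e).H (frm (mkLay v g e) c)) (frm (mkLay v g e) c) ≤
    rdc v (apN v (mkLay v g e).H (frm (mkLay v g e) c)) := Nat.le_of_ble_eq_true h
  rw [mkLay_H] at h2
  have h3 : (rds v (apN v (Hc v g e) (frm (mkLay v g e) c)) (frm (mkLay v g e) c) : ℝ) ≤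
    rdc v (apN v (Hc v g e) (frm (mkLay v g e) c)) := by exact_mod_cast h2
  linarith

/-- multipliers -/
noncomputable def lamL (L : Lay) (v : ℕ) (K : ℕ → List (ℕ × ℕ) → Bool) (cnt : ℕ) :
    ℕ → List (ℕ × ℕ) → Bool :=
  Nat.rec (motive := fun _ => ℕ → List (ℕ × ℕ) → Bool) K
    (fun _ ih n ls => rdForm (Nat.shiftRight n 12) fun c n2 =>
      Bool.rec (motive := fun _ => Bool) false (ih n2 ((Nat.mod n 4096, c) :: ls)) (lamOK4 L v c)) cnt

theorem lamL_sound (hL : layOK v g e = true) (hg : 2 < g) (he : 2 < e) (hv : 43008 < 2 ^ v)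
    (hy : ∀ j, |y j| ≤ 1) {K : ℕ → List (ℕ × ℕ) → Bool} : ∀ (cnt n : ℕ) (ls : List (ℕ × ℕ)),
    (∀ x ∈ ls, 0 ≤ frmR x.2 y) → lamL (mkLay v g e) v K cnt n ls = true →
    ∃ (n' : ℕ) (ls' : List (ℕ × ℕ)), (∀ x ∈ ls', 0 ≤ frmR x.2 y) ∧
      ls'.length = ls.length + cnt ∧ K n' ls' = true
  | 0, n, ls, h, hK => ⟨n, ls, h, rfl, hK⟩
  | cnt + 1, n, ls, h, hK => by
    obtain ⟨c, n2, h1⟩ := rdForm_eq (α := Bool) (Nat.shiftRight n 12)
    have h3 : rdForm (Nat.shiftRight n 12) (fun c n2 =>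
      Bool.rec (motive := fun _ => Bool) false (lamL (mkLay v g e) v K cnt n2
        ((Nat.mod n 4096, c) :: ls)) (lamOK4 (mkLay v g e) v c)) = true := hK
    rw [h1] at h3
    rcases h4 : lamOK4 (mkLay v g e) v c with _ | _
    · rw [h4] at h3
      exact Bool.noConfusion h3
    · rw [h4] at h3
      obtain ⟨n', ls', a1, a2, a3⟩ := lamL_sound hL hg he hv hy cnt n2 _ (fun x hx => by
        rcases List.mem_cons.1 hx with rfl | hx
        · exact lamOK4_sound hL hg he hv hy h4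
        · exact h x hx) h3
      refine ⟨n', ls', a1, ?_, a3⟩
      rw [a2, List.length_cons]
      omega

/-- minimum over the states -/
noncomputable def minS (L : Lay) (v : ℕ) (z : ZB) (row0 : List Cv) (ls : List (ℕ × ℕ)) (kc : ℕ)
    (N1 : ℤ) (rows : List (List Cv)) : ℕ :=
  List.rec (motive := fun _ => ℕ) (Nat.pow 2 v)
    (fun row _ ih => (fun r m => Nat.sub m (Nat.sub m r))
      (lowN L.H v (Int.add N1 (shI kc (tD L z row row0 ls)))) ih) rows

theorem minS_le (L : Lay) (v : ℕ) (z : ZB) (row0 : List Cv) (ls : List (ℕ × ℕ)) (kc : ℕ)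
    (N1 : ℤ) : ∀ (rows : List (List Cv)) (row : List Cv), row ∈ rows →
    minS L v z row0 ls kc N1 rows ≤ lowN L.H v (Int.add N1 (shI kc (tD L z row row0 ls)))
  | [], row, h => absurd h List.not_mem_nil
  | a :: l, row, h => by
    have e1 : minS L v z row0 ls kc N1 (a :: l) = minS L v z row0 ls kc N1 l -
      (minS L v z row0 ls kc N1 l - lowN L.H v (Int.add N1 (shI kc (tD L z a row0 ls)))) := rfl
    rcases List.mem_cons.1 h with rfl | h
    · rw [e1]
      omega
    · have := minS_le L v z row0 ls kc N1 l row h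
      rw [e1]
      omega

end

end Pool.Agent.Helper45.TOP
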