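import Pool.Agent.Helper45.TOP.KrRep
import Pool.Agent.Helper10.TOP.PD

/-!
# Project TOP: Kronecker evaluation of the tree of a cell

`kz t x`: the value of the tree at integers.  If the leaves are packed vectors (slot `i + g j` =
`t₀^i t₁^j`), then the value at the Kronecker point is a representation of the value of the tree.
-/

set_option autoImplicit false

namespace Pool.Agent.Helper45.TOP
open Helper10.PC MvPolynomial

/-- value of a tree at integers -/
def kz : T ℤ → (ℕ → ℤ) → ℤ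
  | T.c z, _ => z
  | T.h a b, x => kz a (fun i => x (i + 1)) + x 0 * kz b x

def ht {α : Type} : T α → ℕ
  | T.c _ => 0
  | T.h a b => max (ht a) (ht b + 1)

/-- monomials of the slots -/
noncomputable def mog (g : ℕ) (s t : ℝ) : ℕ → ℝ := fun k => s ^ (k % g) * t ^ (k / g)

/-- degrees: `c` in the first two variables, `h` in the others -/
def dd (c h : ℕ) : Fin 5 → ℕ := ![c, c, h, h, h]

theorem dd_le {c c' h h' : ℕ} (hc : c ≤ c') (hh : h ≤ h') : ∀ j, dd c h j ≤ dd c' h' j := by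
  intro j
  fin_cases j
  · exact hc
  · exact hc
  · exact hh
  · exact hh
  · exact hh

theorem Lp_sum (X : ℤ) : ∀ (m : ℕ) (v : ℕ → ℤ), Lp X m v = ∑ k ∈ Finset.range m, v k * X ^ k
  | 0, _ => rfl
  | m + 1, v => by
    show v 0 + X * Lp X m (fun i => v (i + 1)) = _
    rw [Lp_sum X m, Finset.sum_range_succ', Finset.mul_sum, pow_zero, mul_one, add_comm]
    congr 1
    exact Finset.sum_congr rfl fun k _ => by rw [pow_succ]; ring

theorem ph_sum : ∀ (m : ℕ) (e : ℕ → ℝ) (v : ℕ → ℤ),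
    ph m e v = ∑ k ∈ Finset.range m, (v k : ℝ) * e k
  | 0, _, _ => rfl
  | m + 1, e, v => by
    rw [ph, ph_sum m, Finset.sum_range_succ', add_comm]

theorem nmv_sum : ∀ (m : ℕ) (v : ℕ → ℤ), nmv m v = ∑ k ∈ Finset.range m, (v k).natAbs
  | 0, _ => rfl
  | m + 1, v => by
    rw [nmv, nmv_sum m, Finset.sum_range_succ', add_comm]

section
variable {w g e : ℕ} {y : Fin 5 → ℝ}

theorem Rep.mon (i j : ℕ) {c : ℕ} (hi : i ≤ c) (hj : j ≤ c) :
    Rep w g e y (dd c 0) (((2 : ℤ) ^ w) ^ (i + g * j)) (y 0 ^ i * y 1 ^ j) 1 := by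
  refine ⟨X 0 ^ i * X 1 ^ j, 0, ?_, ?_, ?_, ?_, ?_⟩
  · have h0 : str g e 0 = 1 := rfl
    have h1 : str g e 1 = g := rfl
    rw [map_zero]
    simp only [eval_mul, eval_pow, eval_X, h0, h1]
    push_cast
    rw [sub_zero, mul_one, ← pow_mul, ← pow_mul, ← pow_mul, ← pow_add]
    congr 1
    ring
  · simp
  · simp
  · intro k
    refine (degreeOf_mul_le k _ _).trans ?_
    have h0 := degreeOf_pow_le k (X 0 : MvPolynomial (Fin 5) ℕ) i
    have h1 := degreeOf_pow_le k (X 1 : MvPolynomial (Fin 5) ℕ) j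
    rw [degreeOf_X] at h0 h1
    fin_cases k
    · simp [dd] at h0 h1 ⊢; omega
    · simp [dd] at h0 h1 ⊢; omega
    · simp [dd] at h0 h1 ⊢; omega
    · simp [dd] at h0 h1 ⊢; omega
    · simp [dd] at h0 h1 ⊢; omega
  · intro k
    simp

theorem Rep.sum {d : Fin 5 → ℕ} {N : ℕ → ℤ} {f : ℕ → ℝ} {b : ℕ → ℕ} : ∀ m : ℕ,
    (∀ k < m, Rep w g e y d (N k) (f k) (b k)) → Rep w g e y d (∑ k ∈ Finset.range m, N k)
      (∑ k ∈ Finset.range m, f k) (∑ k ∈ Finset.range m, b k)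
  | 0, _ => by simpa using Rep.zero
  | m + 1, h => by
    rw [Finset.sum_range_succ, Finset.sum_range_succ, Finset.sum_range_succ]
    exact (Rep.sum m fun k hk => h k (by omega)).add (h m (by omega))

/-- a leaf -/
theorem Rep.leaf (hg : 0 < g) (v : ℕ → ℤ) : Rep w g e y (dd (g - 1) 0) (Lp (2 ^ w) (g * g) v)
    (ph (g * g) (mog g (y 0) (y 1)) v) (nmv (g * g) v) := by
  rw [Lp_sum, ph_sum, nmv_sum]
  refine Rep.sum (g * g) fun k hk => ?_
  have h1 : k % g ≤ g - 1 := by have := Nat.mod_lt k hg; omega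
  have h2 : k / g ≤ g - 1 := by
    have := (Nat.div_lt_iff_lt_mul hg).2 hk
    omega
  have h3 : k % g + g * (k / g) = k := Nat.mod_add_div k g
  have h4 := (Rep.mon (w := w) (g := g) (e := e) (y := y) (k % g) (k / g) h1 h2).smul (v k)
  rw [h3, mul_one] at h4
  exact h4

/-- **evaluation of the tree** -/
theorem Rep.tree (hg : 0 < g) : ∀ (q : T (ℕ → ℤ)) (X : ℕ → ℤ) (x : ℕ → ℝ) (R : ℕ → ℕ),
    (∀ k, Rep w g e y (dd 0 1) (X k) (x k) (R k)) →
    Rep w g e y (dd (g - 1) (ht q)) (kz (mapT (Lp (2 ^ w) (g * g)) q) X)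
      (evT (ph (g * g) (mog g (y 0) (y 1))) q x) (nrm (nmv (g * g)) q R)
  | T.c v, X, x, R, _ => Rep.leaf hg v
  | T.h a b, X, x, R, hX => by
    have ha := Rep.tree hg a (fun i => X (i + 1)) (fun i => x (i + 1)) (fun i => R (i + 1))
      (fun k => hX (k + 1))
    have hb := (hX 0).mul (Rep.tree hg b X x R hX)
    have ha' := ha.mono (dd_le le_rfl (le_max_left (ht a) (ht b + 1))) le_rfl
    have hb' := hb.mono (d' := dd (g - 1) (max (ht a) (ht b + 1))) (fun j => by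
      fin_cases j
      · simp [dd]
      · simp [dd]
      · simp [dd]; omega
      · simp [dd]; omega
      · simp [dd]; omega) le_rfl
    exact ha'.add hb'

end

/-! ### fast evaluation, three levels -/

/-- shift of an integer -/
def shI (s : ℕ) : ℤ → ℤ
  | Int.ofNat n => Int.ofNat (Nat.shiftLeft n s)
  | Int.negSucc n => Int.neg (Int.ofNat (Nat.shiftLeft (Nat.succ n) s))

theorem shI_eq (s : ℕ) (z : ℤ) : shI s z = 2 ^ s * z := by
  cases z with
  | ofNat n =>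
    show ((n <<< s : ℕ) : ℤ) = 2 ^ s * (n : ℤ)
    rw [Nat.shiftLeft_eq]
    push_cast
    ring
  | negSucc n =>
    show -(((n + 1) <<< s : ℕ) : ℤ) = 2 ^ s * Int.negSucc n
    rw [Nat.shiftLeft_eq, Int.negSucc_eq]
    push_cast
    ring

/-- the constant term -/
noncomputable def k3 (t : T ℤ) : ℤ := T.rec (motive := fun _ => ℤ) (fun z => z) (fun _ _ iha _ => iha) t

/-- last variable: `m` is the value of the variable -/
noncomputable def k2 (m : ℤ) (t : T ℤ) : ℤ :=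
  T.rec (motive := fun _ => ℤ) (fun z => z) (fun a _ _ ihb => Int.add (k3 a) (Int.mul m ihb)) t

/-- a level: the value of the variable is `A + B 2^s` -/
noncomputable def k1 (f : T ℤ → ℤ) (A B : ℤ) (s : ℕ) (t : T ℤ) : ℤ :=
  T.rec (motive := fun _ => ℤ) (fun z => z)
    (fun a _ _ ihb => Int.add (f a) (Int.add (Int.mul A ihb) (shI s (Int.mul B ihb)))) t

theorem k3_eq : ∀ t : T ℤ, k3 t = kz t (fun _ => 0)
  | T.c z => rfl
  | T.h a b => by
    show k3 a = kz a (fun _ => 0) + 0 * kz b (fun _ => 0)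
    rw [k3_eq a, zero_mul, add_zero]

theorem k2_eq (m : ℤ) : ∀ t : T ℤ, k2 m t = kz t (fun i => if i = 0 then m else 0)
  | T.c z => rfl
  | T.h a b => by
    show k3 a + m * k2 m b = kz a (fun i => if i + 1 = 0 then m else 0) +
      (if 0 = 0 then m else 0) * kz b (fun i => if i = 0 then m else 0)
    rw [k3_eq a, k2_eq m b]
    simp

theorem k1_eq {f : T ℤ → ℤ} {x : ℕ → ℤ} (hf : ∀ a, f a = kz a (fun i => x (i + 1))) {A B : ℤ}
    {s : ℕ} (hx : x 0 = A + B * 2 ^ s) : ∀ t : T ℤ, k1 f A B s t = kz t x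
  | T.c z => rfl
  | T.h a b => by
    show f a + (A * k1 f A B s b + shI s (B * k1 f A B s b)) = kz a (fun i => x (i + 1)) +
      x 0 * kz b x
    rw [hf a, k1_eq hf hx b, shI_eq, hx]
    ring

/-- the three Kronecker values -/
def kx (m0 m1 m2 : ℤ) : ℕ → ℤ
  | 0 => m0
  | 1 => m1
  | 2 => m2
  | _ + 3 => 0

/-- **fast evaluation** -/
noncomputable def kev (A0 B0 : ℤ) (s0 : ℕ) (A1 B1 : ℤ) (s1 : ℕ) (m2 : ℤ) (t : T ℤ) : ℤ :=
  k1 (k1 (k2 m2) A1 B1 s1) A0 B0 s0 t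

theorem kev_eq (A0 B0 : ℤ) (s0 : ℕ) (A1 B1 : ℤ) (s1 : ℕ) (m2 : ℤ) (t : T ℤ) :
    kev A0 B0 s0 A1 B1 s1 m2 t = kz t (kx (A0 + B0 * 2 ^ s0) (A1 + B1 * 2 ^ s1) m2) := by
  unfold kev
  refine k1_eq (x := kx (A0 + B0 * 2 ^ s0) (A1 + B1 * 2 ^ s1) m2) (fun a => ?_) rfl t
  refine k1_eq (x := fun i => kx (A0 + B0 * 2 ^ s0) (A1 + B1 * 2 ^ s1) m2 (i + 1)) (fun a => ?_) rfl a
  rw [k2_eq]
  congr 1
  funext i
  cases i with
  | zero => rfl
  | succ i => rfl

end Pool.Agent.Helper45.TOP
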