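import Pool.Agent.Helper45.TOP.KrSp

/-!
# Project TOP: the loops of the leaf checker
-/

set_option autoImplicit false

namespace Pool.Agent.Helper45.TOP
open Helper10.PC Pool.Agent.Helper6.TOP

section
variable {w g e : ℕ} {y : Fin 5 → ℝ}

/-! ### cursor -/

/-- a form at the cursor: code and rest -/
noncomputable def rdForm {α : Type} (n : ℕ) (K : ℕ → ℕ → α) : α :=
  (fun st n1 => Bool.rec (motive := fun _ => α)
    ((fun len => K (Nat.shiftLeft (Nat.mod n1 (Nat.pow 2 len)) (Nat.mul 12 st))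
      (Nat.shiftRight n1 len)) (Nat.mul 12 (Nat.sub 21 st)))
    (K (Nat.add M252 (Nat.mod n1 M72)) (Nat.shiftRight n1 72)) (Nat.beq st 31))
    (Nat.mod n 4096) (Nat.shiftRight n 12)

theorem rdForm_eq {α : Type} (n : ℕ) : ∃ c n' : ℕ, ∀ K : ℕ → ℕ → α, rdForm n K = K c n' := by
  rcases h : Nat.beq (Nat.mod n 4096) 31 with _ | _
  · refine ⟨Nat.shiftLeft (Nat.mod (Nat.shiftRight n 12) (Nat.pow 2 (Nat.mul 12 (Nat.sub 21
      (Nat.mod n 4096))))) (Nat.mul 12 (Nat.mod n 4096)), Nat.shiftRight (Nat.shiftRight n 12)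
      (Nat.mul 12 (Nat.sub 21 (Nat.mod n 4096))), fun K => ?_⟩
    unfold rdForm
    dsimp only
    rw [h]
  · refine ⟨Nat.add M252 (Nat.mod (Nat.shiftRight n 12) M72),
      Nat.shiftRight (Nat.shiftRight n 12) 72, fun K => ?_⟩
    unfold rdForm
    dsimp only
    rw [h]

/-- a positive semidefinite pair -/
structure QF (w g e : ℕ) (y : Fin 5 → ℝ) (A B D : ℤ) (b : ℕ) : Prop where
  ex : ∃ fA fB fD : ℝ, Rep w g e y (dd 4 4) A fA b ∧ Rep w g e y (dd 4 4) B fB b ∧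
    Rep w g e y (dd 4 4) D fD b ∧ ∀ w1 w2 : ℝ, 0 ≤ fA * w1 ^ 2 + 2 * fB * (w1 * w2) + fD * w2 ^ 2

theorem QF.zero : QF w g e y 0 0 0 0 := by
  have h : Rep w g e y (dd 4 4) 0 0 0 := Rep.zero.mono (fun _ => le_rfl) le_rfl
  exact ⟨0, 0, 0, h, h, h, fun w1 w2 => by simp⟩

/-- `2^24 · 43008²` -/
def WB : ℕ := 31032616182349824

theorem WB_eq : WB = 2 ^ 24 * (43008 * 43008) := by decide +kernel

theorem QF.step {A B D : ℤ} {b : ℕ} (h : QF w g e y A B D b) {a c : ℤ} {fa fc : ℝ} {n : ℕ}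
    (hn : n ≤ 2 ^ 24) (ha : Rep w g e y (dd 2 2) a fa 43008) (hc : Rep w g e y (dd 2 2) c fc 43008) :
    QF w g e y (A + n * a * a) (B + n * a * c) (D + n * c * c) (b + WB) := by
  obtain ⟨fA, fB, fD, h1, h2, h3, h4⟩ := h
  have hb : n * 43008 * 43008 ≤ WB := by
    rw [WB_eq, Nat.mul_assoc]
    exact Nat.mul_le_mul_right _ hn
  have r1 := (((Rep.nat (w := w) (g := g) (e := e) (y := y) n).mulD ha).mulD ha).up
    (c' := 4) (h' := 4) (by norm_num) (by norm_num) hb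
  have r2 := (((Rep.nat (w := w) (g := g) (e := e) (y := y) n).mulD ha).mulD hc).up
    (c' := 4) (h' := 4) (by norm_num) (by norm_num) hb
  have r3 := (((Rep.nat (w := w) (g := g) (e := e) (y := y) n).mulD hc).mulD hc).up
    (c' := 4) (h' := 4) (by norm_num) (by norm_num) hb
  refine ⟨_, _, _, h1.add r1, h2.add r2, h3.add r3, fun w1 w2 => ?_⟩
  have e1 : (fA + n * fa * fa) * w1 ^ 2 + 2 * (fB + n * fa * fc) * (w1 * w2) +
      (fD + n * fc * fc) * w2 ^ 2 =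
      (fA * w1 ^ 2 + 2 * fB * (w1 * w2) + fD * w2 ^ 2) + n * (fa * w1 + fc * w2) ^ 2 := by ring
  rw [e1]
  have : (0 : ℝ) ≤ n := Nat.cast_nonneg n
  have := h4 w1 w2
  positivity

/-- `2^24 · 12288² · 2 ≤ WB` -/
theorem QF.stepB {A B D : ℤ} {b : ℕ} (h : QF w g e y A B D b) {a c φ : ℤ} {fa fc fφ : ℝ} {n : ℕ}
    (hn : n ≤ 2 ^ 24) (ha : Rep w g e y (dd 1 1) a fa 12288) (hc : Rep w g e y (dd 1 1) c fc 12288)
    (hφ : Rep w g e y (dd 2 2) φ fφ 2) (hp : 0 ≤ fφ) :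
    QF w g e y (A + φ * (n * a * a)) (B + φ * (n * a * c)) (D + φ * (n * c * c)) (b + WB) := by
  obtain ⟨fA, fB, fD, h1, h2, h3, h4⟩ := h
  have hb : 2 * (n * 12288 * 12288) ≤ WB := by
    rw [WB_eq]
    calc 2 * (n * 12288 * 12288) = n * (2 * (12288 * 12288)) := by ring
      _ ≤ 2 ^ 24 * (43008 * 43008) := Nat.mul_le_mul hn (by norm_num)
  have r1 := (hφ.mulD (((Rep.nat (w := w) (g := g) (e := e) (y := y) n).mulD ha).mulD ha)).up
    (c' := 4) (h' := 4) (by norm_num) (by norm_num) hb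
  have r2 := (hφ.mulD (((Rep.nat (w := w) (g := g) (e := e) (y := y) n).mulD ha).mulD hc)).up
    (c' := 4) (h' := 4) (by norm_num) (by norm_num) hb
  have r3 := (hφ.mulD (((Rep.nat (w := w) (g := g) (e := e) (y := y) n).mulD hc).mulD hc)).up
    (c' := 4) (h' := 4) (by norm_num) (by norm_num) hb
  refine ⟨_, _, _, h1.add r1, h2.add r2, h3.add r3, fun w1 w2 => ?_⟩
  have e1 : (fA + fφ * (n * fa * fa)) * w1 ^ 2 + 2 * (fB + fφ * (n * fa * fc)) * (w1 * w2) +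
      (fD + fφ * (n * fc * fc)) * w2 ^ 2 =
      (fA * w1 ^ 2 + 2 * fB * (w1 * w2) + fD * w2 ^ 2) + fφ * (n * (fa * w1 + fc * w2) ^ 2) := by
    ring
  rw [e1]
  have : (0 : ℝ) ≤ n := Nat.cast_nonneg n
  have := h4 w1 w2
  positivity

/-- scalar version -/
structure QS (w g e : ℕ) (y : Fin 5 → ℝ) (A : ℤ) (b : ℕ) : Prop where
  ex : ∃ fA : ℝ, Rep w g e y (dd 4 4) A fA b ∧ 0 ≤ fA

theorem QS.zero : QS w g e y 0 0 := by
  have h : Rep w g e y (dd 4 4) 0 0 0 := Rep.zero.mono (fun _ => le_rfl) le_rfl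
  exact ⟨0, h, le_rfl⟩

theorem QS.step {A : ℤ} {b : ℕ} (h : QS w g e y A b) {a : ℤ} {fa : ℝ} {n : ℕ}
    (hn : n ≤ 2 ^ 24) (ha : Rep w g e y (dd 2 2) a fa 43008) :
    QS w g e y (A + n * a * a) (b + WB) := by
  obtain ⟨fA, h1, h4⟩ := h
  have hb : n * 43008 * 43008 ≤ WB := by
    rw [WB_eq, Nat.mul_assoc]
    exact Nat.mul_le_mul_right _ hn
  have r1 := (((Rep.nat (w := w) (g := g) (e := e) (y := y) n).mulD ha).mulD ha).up
    (c' := 4) (h' := 4) (by norm_num) (by norm_num) hb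
  refine ⟨_, h1.add r1, ?_⟩
  have : (0 : ℝ) ≤ n := Nat.cast_nonneg n
  have : (n : ℝ) * fa * fa = n * fa ^ 2 := by ring
  rw [this]
  positivity

theorem QS.stepB {A : ℤ} {b : ℕ} (h : QS w g e y A b) {a φ : ℤ} {fa fφ : ℝ} {n : ℕ}
    (hn : n ≤ 2 ^ 24) (ha : Rep w g e y (dd 1 1) a fa 12288)
    (hφ : Rep w g e y (dd 2 2) φ fφ 2) (hp : 0 ≤ fφ) :
    QS w g e y (A + φ * (n * a * a)) (b + WB) := by
  obtain ⟨fA, h1, h4⟩ := h
  have hb : 2 * (n * 12288 * 12288) ≤ WB := by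
    rw [WB_eq]
    calc 2 * (n * 12288 * 12288) = n * (2 * (12288 * 12288)) := by ring
      _ ≤ 2 ^ 24 * (43008 * 43008) := Nat.mul_le_mul hn (by norm_num)
  have r1 := (hφ.mulD (((Rep.nat (w := w) (g := g) (e := e) (y := y) n).mulD ha).mulD ha)).up
    (c' := 4) (h' := 4) (by norm_num) (by norm_num) hb
  refine ⟨_, h1.add r1, ?_⟩
  have : (0 : ℝ) ≤ n := Nat.cast_nonneg n
  have : fφ * ((n : ℝ) * fa * fa) = fφ * (n * fa ^ 2) := by ring
  rw [this]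
  positivity

/-! ### squares -/

/-- two digits: weight -/
def rdw (n : ℕ) : ℕ := Nat.mod n 16777216

theorem rdw_le (n : ℕ) : rdw n ≤ 2 ^ 24 := by
  show n % 16777216 ≤ 2 ^ 24
  have := Nat.mod_lt n (show 16777216 > 0 by norm_num)
  norm_num
  omega

/-- squares, matrix -/
noncomputable def sqA (L : Lay) (K : ℕ → ℤ → ℤ → ℤ → Bool) (cnt : ℕ) : ℕ → ℤ → ℤ → ℤ → Bool :=
  Nat.rec (motive := fun _ => ℕ → ℤ → ℤ → ℤ → Bool) K
    (fun _ ih n A B D => rdForm (Nat.shiftRight n 24) fun ca n2 => rdForm n2 fun cb n3 =>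
      (fun a c => (fun wa wc => ih n3 (Int.add A (Int.mul wa a)) (Int.add B (Int.mul wa c))
        (Int.add D (Int.mul wc c))) (Int.mul (Int.ofNat (rdw n)) a) (Int.mul (Int.ofNat (rdw n)) c))
        (frm L ca) (frm L cb)) cnt

theorem sqA_sound {v : ℕ} (hL : layOK v g e = true) {K : ℕ → ℤ → ℤ → ℤ → Bool} : ∀ (cnt n : ℕ)
    (A B D : ℤ) (b : ℕ), QF (v + 1) g e y A B D b → sqA (mkLay v g e) K cnt n A B D = true →
    ∃ (n' : ℕ) (A' B' D' : ℤ), QF (v + 1) g e y A' B' D' (b + cnt * WB) ∧ K n' A' B' D' = true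
  | 0, n, A, B, D, b, h, hK => ⟨n, A, B, D, by rw [Nat.zero_mul, add_zero]; exact h, hK⟩
  | cnt + 1, n, A, B, D, b, h, hK => by
    obtain ⟨ca, n2, h1⟩ := rdForm_eq (α := Bool) (Nat.shiftRight n 24)
    obtain ⟨cb, n3, h2⟩ := rdForm_eq (α := Bool) n2
    have h3 : rdForm (Nat.shiftRight n 24) (fun ca n2 => rdForm n2 fun cb n3 =>
      (fun a c => (fun wa wc => sqA (mkLay v g e) K cnt n3 (Int.add A (Int.mul wa a))
        (Int.add B (Int.mul wa c)) (Int.add D (Int.mul wc c)))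
        (Int.mul (Int.ofNat (rdw n)) a) (Int.mul (Int.ofNat (rdw n)) c))
        (frm (mkLay v g e) ca) (frm (mkLay v g e) cb)) = true := hK
    rw [h1, h2] at h3
    have h4 := h.step (rdw_le n) (frm_rep (y := y) hL ca) (frm_rep (y := y) hL cb)
    obtain ⟨n', A', B', D', h5, h6⟩ := sqA_sound hL cnt n3 _ _ _ _ h4 h3
    refine ⟨n', A', B', D', ?_, h6⟩
    have e1 : b + WB + cnt * WB = b + (cnt + 1) * WB := by ring
    rw [e1] at h5
    exact h5

/-- squares, scalar -/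
noncomputable def sqS (L : Lay) (K : ℕ → ℤ → Bool) (cnt : ℕ) : ℕ → ℤ → Bool :=
  Nat.rec (motive := fun _ => ℕ → ℤ → Bool) K
    (fun _ ih n A => rdForm (Nat.shiftRight n 24) fun ca n2 =>
      (fun a => ih n2 (Int.add A (Int.mul (Int.mul (Int.ofNat (rdw n)) a) a)))
        (frm L ca)) cnt

theorem sqS_sound {v : ℕ} (hL : layOK v g e = true) {K : ℕ → ℤ → Bool} : ∀ (cnt n : ℕ)
    (A : ℤ) (b : ℕ), QS (v + 1) g e y A b → sqS (mkLay v g e) K cnt n A = true →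
    ∃ (n' : ℕ) (A' : ℤ), QS (v + 1) g e y A' (b + cnt * WB) ∧ K n' A' = true
  | 0, n, A, b, h, hK => ⟨n, A, by rw [Nat.zero_mul, add_zero]; exact h, hK⟩
  | cnt + 1, n, A, b, h, hK => by
    obtain ⟨ca, n2, h1⟩ := rdForm_eq (α := Bool) (Nat.shiftRight n 24)
    have h3 : rdForm (Nat.shiftRight n 24) (fun ca n2 =>
      (fun a => sqS (mkLay v g e) K cnt n2 (Int.add A (Int.mul (Int.mul (Int.ofNat (rdw n)) a) a)))
        (frm (mkLay v g e) ca)) = true := hK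
    rw [h1] at h3
    have h4 := h.step (rdw_le n) (frm_rep (y := y) hL ca)
    obtain ⟨n', A', h5, h6⟩ := sqS_sound hL cnt n2 _ _ h4 h3
    refine ⟨n', A', ?_, h6⟩
    have e1 : b + WB + cnt * WB = b + (cnt + 1) * WB := by ring
    rw [e1] at h5
    exact h5

/-! ### box squares -/

/-- the position of the variable `i` (order `t₀, t₁, s₀, s₁, s₂`) -/
def bpos (g e i : ℕ) : ℕ :=
  Nat.rec (motive := fun _ => ℕ) 1 (fun i _ => Nat.rec (motive := fun _ => ℕ) g (fun i _ =>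
    Nat.rec (motive := fun _ => ℕ) (g * g * e * e) (fun i _ =>
      Nat.rec (motive := fun _ => ℕ) (g * g * e) (fun _ _ => g * g) i) i) i) i

/-- multiplication by `1 - x²` -/
def phI (s : ℕ) (z : ℤ) : ℤ := Int.sub z (shI s z)

theorem bpos_eq (g e i : ℕ) : ∃ j : Fin 5, bpos g e i = str g e j := by
  rcases i with _ | _ | _ | _ | i
  · exact ⟨0, rfl⟩
  · exact ⟨1, rfl⟩
  · exact ⟨4, rfl⟩
  · exact ⟨3, rfl⟩
  · exact ⟨2, rfl⟩

theorem phi_rep (hy : ∀ j, |y j| ≤ 1) (i : ℕ) : ∃ (φ : ℤ) (f : ℝ), Rep w g e y (dd 2 2) φ f 2 ∧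
    0 ≤ f ∧ ∀ z, phI (2 * w * bpos g e i) z = φ * z := by
  obtain ⟨j, hj⟩ := bpos_eq g e i
  have hv : Rep w g e y (dd 1 1) (2 ^ (w * str g e j)) (y j) 1 := by
    refine (Rep.var j).mono (fun i => ?_) le_rfl
    fin_cases i <;> (show (if _ then 1 else 0) ≤ 1) <;> split_ifs <;> norm_num
  have h1 := (Rep.nat (w := w) (g := g) (e := e) (y := y) 1).up (c' := 1 + 1) (h' := 1 + 1)
    (Nat.zero_le _) (Nat.zero_le _) le_rfl
  refine ⟨_, _, h1.sub (hv.mulD hv), ?_, fun z => ?_⟩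
  · have h2 := abs_le.1 (hy j)
    push_cast
    nlinarith
  · show z - shI _ z = _
    rw [shI_eq, hj]
    push_cast
    rw [← pow_add, show 2 * w * str g e j = w * str g e j + w * str g e j by ring]
    ring

noncomputable def sqB (L : Lay) (w g e : ℕ) (K : ℕ → ℤ → ℤ → ℤ → Bool) (cnt : ℕ) :
    ℕ → ℤ → ℤ → ℤ → Bool :=
  Nat.rec (motive := fun _ => ℕ → ℤ → ℤ → ℤ → Bool) K
    (fun _ ih n A B D => (fun s w0 n1 =>
      (fun a c => (fun wa wc => ih (Nat.shiftRight n1 168) (Int.add A (phI s (Int.mul wa a)))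
        (Int.add B (phI s (Int.mul wa c))) (Int.add D (phI s (Int.mul wc c))))
        (Int.mul (Int.ofNat w0) a) (Int.mul (Int.ofNat w0) c))
        (affL L (Nat.mod (Nat.shiftRight n1 24) M72)) (affL L (Nat.mod (Nat.shiftRight n1 96) M72)))
      (Nat.mul (Nat.mul 2 w) (bpos g e (Nat.mod n 4096))) (rdw (Nat.shiftRight n 12))
      (Nat.shiftRight n 12)) cnt

theorem sqB_sound {v : ℕ} (hL : layOK v g e = true) (hy : ∀ j, |y j| ≤ 1)
    {K : ℕ → ℤ → ℤ → ℤ → Bool} : ∀ (cnt n : ℕ)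
    (A B D : ℤ) (b : ℕ), QF (v + 1) g e y A B D b →
    sqB (mkLay v g e) (v + 1) g e K cnt n A B D = true →
    ∃ (n' : ℕ) (A' B' D' : ℤ), QF (v + 1) g e y A' B' D' (b + cnt * WB) ∧ K n' A' B' D' = true
  | 0, n, A, B, D, b, h, hK => ⟨n, A, B, D, by rw [Nat.zero_mul, add_zero]; exact h, hK⟩
  | cnt + 1, n, A, B, D, b, h, hK => by
    obtain ⟨φ, f, p1, p2, p3⟩ := phi_rep (w := v + 1) (g := g) (e := e) hy (Nat.mod n 4096)
    have h4 := h.stepB (rdw_le (Nat.shiftRight n 12))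
      (aff_rep (y := y) hL (Nat.shiftRight (Nat.shiftRight n 12) 24))
      (aff_rep (y := y) hL (Nat.shiftRight (Nat.shiftRight n 12) 96)) p1 p2
    rw [← p3, ← p3, ← p3] at h4
    obtain ⟨n', A', B', D', h5, h6⟩ := sqB_sound hL hy cnt _ _ _ _ _ h4 hK
    refine ⟨n', A', B', D', ?_, h6⟩
    have e1 : b + WB + cnt * WB = b + (cnt + 1) * WB := by ring
    rw [e1] at h5
    exact h5

noncomputable def sqT (L : Lay) (w g e : ℕ) (K : ℕ → ℤ → Bool) (cnt : ℕ) : ℕ → ℤ → Bool :=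
  Nat.rec (motive := fun _ => ℕ → ℤ → Bool) K
    (fun _ ih n A => (fun s w0 n1 =>
      (fun a => ih (Nat.shiftRight n1 96) (Int.add A (phI s (Int.mul (Int.mul (Int.ofNat w0) a) a))))
        (affL L (Nat.mod (Nat.shiftRight n1 24) M72)))
      (Nat.mul (Nat.mul 2 w) (bpos g e (Nat.mod n 4096))) (rdw (Nat.shiftRight n 12))
      (Nat.shiftRight n 12)) cnt

theorem sqT_sound {v : ℕ} (hL : layOK v g e = true) (hy : ∀ j, |y j| ≤ 1)
    {K : ℕ → ℤ → Bool} : ∀ (cnt n : ℕ)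
    (A : ℤ) (b : ℕ), QS (v + 1) g e y A b →
    sqT (mkLay v g e) (v + 1) g e K cnt n A = true →
    ∃ (n' : ℕ) (A' : ℤ), QS (v + 1) g e y A' (b + cnt * WB) ∧ K n' A' = true
  | 0, n, A, b, h, hK => ⟨n, A, by rw [Nat.zero_mul, add_zero]; exact h, hK⟩
  | cnt + 1, n, A, b, h, hK => by
    obtain ⟨φ, f, p1, p2, p3⟩ := phi_rep (w := v + 1) (g := g) (e := e) hy (Nat.mod n 4096)
    have h4 := h.stepB (rdw_le (Nat.shiftRight n 12))
      (aff_rep (y := y) hL (Nat.shiftRight (Nat.shiftRight n 12) 24)) p1 p2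
    rw [← p3] at h4
    obtain ⟨n', A', h5, h6⟩ := sqT_sound hL hy cnt _ _ _ h4 hK
    refine ⟨n', A', ?_, h6⟩
    have e1 : b + WB + cnt * WB = b + (cnt + 1) * WB := by ring
    rw [e1] at h5
    exact h5

end

end Pool.Agent.Helper45.TOP
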