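import Pool.Agent.Helper43.MEI.FBox

/-!
# Project TOP: the leaf test (Positivstellensatz form)

Polynomials are Horner forms `H` of helper43, variables in `[-1, 1]`.

`rowOK P err Cs κ ls sq = true` proves
`κ err + 1 ≤ κ P + ∑ λ_j C_j` on the whole box, with
`κ P + ∑ λ_j C_j - ∑ w ℓ²` having a constant term larger than the sum of the absolute values of
the other coefficients (even monomials: only the negative ones) plus `κ err`.

`leaf_sound`: if all the constraints `C_j ≤ 0` hold at a point of the box, then `err < P` there.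
`leaf6_sound`: the same for a convex combination of finitely many states with common multipliers.
-/

set_option autoImplicit false

namespace Pool.Agent.Helper45.TOP
open Helper43.FBox

/-- constant term -/
def cst : H → ℤ
  | H.c n => n
  | H.h a _ => cst a

/-- the harmful part of a coefficient; `e = true`: the monomial is nonnegative -/
def pn (e : Bool) : ℤ → ℕ
  | Int.ofNat m => cond e 0 m
  | Int.negSucc m => Nat.succ m

/-- sum of the harmful parts of all the coefficients -/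
def S : H → Bool → Bool → ℕ
  | H.c n, e, k => pn (and e k) n
  | H.h a b, e, k => Nat.add (S a (and e k) true) (S b e (not k))

/-- the same without the constant term -/
def S0 : H → ℕ
  | H.c _ => 0
  | H.h a b => Nat.add (S0 a) (S b true false)

theorem pn_le (e : Bool) (n : ℤ) (t : ℝ) (ht : |t| ≤ 1) (he : e = true → 0 ≤ t) :
    -(pn e n : ℝ) ≤ t * n := by
  rw [abs_le] at ht
  cases n with
  | ofNat m =>
    have hm : (0 : ℝ) ≤ m := Nat.cast_nonneg m
    have e1 : ((Int.ofNat m : ℤ) : ℝ) = (m : ℝ) := Int.cast_natCast m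
    rw [e1]
    cases e
    · show -((m : ℕ) : ℝ) ≤ t * m
      nlinarith [ht.1]
    · show -((0 : ℕ) : ℝ) ≤ t * m
      have := mul_nonneg (he rfl) hm
      simpa using this
  | negSucc m =>
    have hm : (0 : ℝ) ≤ m := Nat.cast_nonneg m
    rw [Int.cast_negSucc]
    show -((Nat.succ m : ℕ) : ℝ) ≤ t * -((m + 1 : ℕ) : ℝ)
    push_cast
    nlinarith [ht.2]

theorem abs_pow_le {y : ℝ} (h : |y| ≤ 1) (j : ℕ) : |y ^ j| ≤ 1 := by
  rw [abs_pow]
  exact pow_le_one₀ (abs_nonneg y) h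

theorem S_le : ∀ (p : H) (e k : Bool) (x : ℕ → ℝ) (s : ℝ) (j : ℕ), (∀ i, |x i| ≤ 1) → |s| ≤ 1 →
    (e = true → 0 ≤ s) → (k = true ↔ Even j) → -(S p e k : ℝ) ≤ s * x 0 ^ j * evH p x
  | H.c n, e, k, x, s, j, hx, hs, he, hk => by
    have h1 : |s * x 0 ^ j| ≤ 1 := by
      rw [abs_mul]
      exact mul_le_one₀ hs (abs_nonneg _) (abs_pow_le (hx 0) j)
    refine pn_le (and e k) n _ h1 fun h => ?_
    cases e
    · exact Bool.noConfusion h
    · cases k
      · exact Bool.noConfusion h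
      · exact mul_nonneg (he rfl) (Even.pow_nonneg (hk.1 rfl) _)
  | H.h a b, e, k, x, s, j, hx, hs, he, hk => by
    have h1 : |s * x 0 ^ j| ≤ 1 := by
      rw [abs_mul]
      exact mul_le_one₀ hs (abs_nonneg _) (abs_pow_le (hx 0) j)
    have iha := S_le a (and e k) true (fun i => x (i + 1)) (s * x 0 ^ j) 0 (fun i => hx (i + 1)) h1
      (fun h => by
        cases e
        · exact Bool.noConfusion h
        · cases k
          · exact Bool.noConfusion h
          · exact mul_nonneg (he rfl) (Even.pow_nonneg (hk.1 rfl) _))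
      (by simp)
    have ihb := S_le b e (not k) x s (j + 1) hx hs he (by
      rw [Nat.even_add_one, ← hk]
      cases k <;> simp)
    have e1 : ((S (H.h a b) e k : ℕ) : ℝ) = (S a (and e k) true : ℕ) + (S b e (not k) : ℕ) :=
      Nat.cast_add _ _
    rw [e1]
    simp only [evH, pow_zero, mul_one, pow_succ] at iha ihb ⊢
    linarith

/-- lower bound on the box -/
theorem low_le : ∀ (p : H) (x : ℕ → ℝ), (∀ i, |x i| ≤ 1) → (cst p : ℝ) - S0 p ≤ evH p x
  | H.c n, x, _ => by simp [cst, S0, evH]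
  | H.h a b, x, hx => by
    have iha := low_le a (fun i => x (i + 1)) fun i => hx (i + 1)
    have ihb := S_le b true false x 1 1 hx (by simp) (fun _ => zero_le_one) (by simp)
    have e1 : ((S0 (H.h a b) : ℕ) : ℝ) = (S0 a : ℕ) + (S b true false : ℕ) := Nat.cast_add _ _
    show ((cst a : ℤ) : ℝ) - _ ≤ evH a _ + x 0 * evH b x
    rw [e1]
    simp only [pow_one, one_mul] at ihb
    linarith

def nthH : List H → ℕ → H
  | [], _ => H.c 0
  | p :: _, 0 => p
  | _ :: l, i + 1 => nthH l i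

/-- `acc + ∑ n C_j` -/
def lamH (Cs : List H) : List (ℕ × ℕ) → H → H
  | [], acc => acc
  | e :: l, acc => lamH Cs l (add (sm e.2 (nthH Cs e.1)) acc)

noncomputable def lamv (Cs : List H) : List (ℕ × ℕ) → (ℕ → ℝ) → ℝ
  | [], _ => 0
  | e :: l, x => e.2 * evH (nthH Cs e.1) x + lamv Cs l x

theorem ev_lamH (Cs : List H) : ∀ (ls : List (ℕ × ℕ)) (acc : H) (x : ℕ → ℝ),
    evH (lamH Cs ls acc) x = lamv Cs ls x + evH acc x
  | [], acc, x => by simp [lamH, lamv]
  | e :: l, acc, x => by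
    rw [lamH, ev_lamH Cs l, lamv, ev_addH, ev_sm]
    ring

theorem nthH_nonpos {Cs : List H} {x : ℕ → ℝ} (h : ∀ C ∈ Cs, evH C x ≤ 0) :
    ∀ j : ℕ, evH (nthH Cs j) x ≤ 0 := by
  induction Cs with
  | nil =>
    intro j
    simp [nthH, evH]
  | cons C l ih =>
    intro j
    cases j with
    | zero => exact h C (by simp)
    | succ j => exact ih (fun D hD => h D (by simp [hD])) j

theorem lamv_nonpos {Cs : List H} {x : ℕ → ℝ} (h : ∀ C ∈ Cs, evH C x ≤ 0) :
    ∀ ls : List (ℕ × ℕ), lamv Cs ls x ≤ 0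
  | [] => by simp [lamv]
  | e :: l => by
    have h1 := nthH_nonpos h e.1
    have h2 := lamv_nonpos h l
    have h3 : (0 : ℝ) ≤ e.2 := Nat.cast_nonneg _
    rw [lamv]
    nlinarith

/-- affine form `l0 + l1 x₀ + l2 x₁ + ..` -/
def affH (l0 : ℤ) : List ℤ → H
  | [] => H.c l0
  | a :: l => H.h (affH l0 l) (H.c a)

/-- `acc - ∑ w ℓ²` -/
def sqH : List (ℕ × ℤ × List ℤ) → H → H
  | [], acc => acc
  | e :: l, acc => sqH l (add (smul (Int.neg (Int.ofNat e.1))
      (mul (affH e.2.1 e.2.2) (affH e.2.1 e.2.2))) acc)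

theorem sqH_le : ∀ (sq : List (ℕ × ℤ × List ℤ)) (acc : H) (x : ℕ → ℝ),
    evH (sqH sq acc) x ≤ evH acc x
  | [], acc, x => le_rfl
  | e :: l, acc, x => by
    have ih := sqH_le l (add (smul (Int.neg (Int.ofNat e.1))
      (mul (affH e.2.1 e.2.2) (affH e.2.1 e.2.2))) acc) x
    rw [ev_addH, ev_smul, ev_mulH] at ih
    have e1 : ((Int.neg (Int.ofNat e.1) : ℤ) : ℝ) = -(e.1 : ℝ) := by
      have : (Int.neg (Int.ofNat e.1)) = -((e.1 : ℕ) : ℤ) := rfl
      rw [this]
      push_cast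
      rfl
    rw [e1] at ih
    have h3 : (0 : ℝ) ≤ (e.1 : ℝ) * (evH (affH e.2.1 e.2.2) x * evH (affH e.2.1 e.2.2) x) :=
      mul_nonneg (Nat.cast_nonneg _) (mul_self_nonneg _)
    rw [sqH]
    linarith

/-- the constant term beats the rest by more than `t` -/
def big (t : ℕ) (R : H) : Bool := match cst R with
  | Int.ofNat c => Nat.ble (Nat.succ (Nat.add (S0 R) t)) c
  | Int.negSucc _ => false

theorem big_sound {t : ℕ} {R : H} (h : big t R = true) {x : ℕ → ℝ} (hx : ∀ i, |x i| ≤ 1) :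
    (t : ℝ) + 1 ≤ evH R x := by
  have h1 := low_le R x hx
  unfold big at h
  split at h
  · rename_i c hc
    have h2 := Nat.le_of_ble_eq_true h
    have h3 : S0 R + t + 1 ≤ c := h2
    have h4 : ((S0 R : ℕ) : ℝ) + t + 1 ≤ c := by exact_mod_cast h3
    rw [hc] at h1
    have e1 : ((Int.ofNat c : ℤ) : ℝ) = (c : ℝ) := Int.cast_natCast c
    rw [e1] at h1
    linarith
  · exact Bool.noConfusion h

/-- one row -/
def rowOK (P : H) (err : ℕ) (Cs : List H) (κ : ℕ) (ls : List (ℕ × ℕ))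
    (sq : List (ℕ × ℤ × List ℤ)) : Bool :=
  big (Nat.mul κ err) (sqH sq (lamH Cs ls (mulc (Int.ofNat κ) P)))

/-- **the row** -/
theorem row_sound {P : H} {err : ℕ} {Cs : List H} {κ : ℕ} {ls : List (ℕ × ℕ)}
    {sq : List (ℕ × ℤ × List ℤ)} (h : rowOK P err Cs κ ls sq = true) {x : ℕ → ℝ}
    (hx : ∀ i, |x i| ≤ 1) : (κ : ℝ) * err + 1 ≤ κ * evH P x + lamv Cs ls x := by
  have h1 := big_sound h hx
  have h2 := sqH_le sq (lamH Cs ls (mulc (Int.ofNat κ) P)) x
  rw [ev_lamH, ev_mulc] at h2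
  have e1 : ((Int.ofNat κ : ℤ) : ℝ) = (κ : ℝ) := Int.cast_natCast κ
  have e2 : ((Nat.mul κ err : ℕ) : ℝ) = (κ : ℝ) * err := Nat.cast_mul κ err
  rw [e1] at h2
  rw [e2] at h1
  linarith

/-- **the leaf**: the constraints `C ≤ 0` give `err < P` (`κ = 0`: the leaf is empty) -/
theorem leaf_sound {P : H} {err : ℕ} {Cs : List H} {κ : ℕ} {ls : List (ℕ × ℕ)}
    {sq : List (ℕ × ℤ × List ℤ)} (h : rowOK P err Cs κ ls sq = true) {x : ℕ → ℝ}
    (hx : ∀ i, |x i| ≤ 1) (hC : ∀ C ∈ Cs, evH C x ≤ 0) : (err : ℝ) < evH P x := by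
  have h1 := row_sound h hx
  have h2 := lamv_nonpos hC ls
  have h3 : (0 : ℝ) ≤ κ := Nat.cast_nonneg _
  by_contra hc
  have h4 : evH P x - err ≤ 0 := by linarith
  have h5 := mul_nonneg h3 (neg_nonneg.2 h4)
  nlinarith

theorem sum_lamv {ι : Type} [Fintype ι] {Cs : ι → List H} {θ : ι → ℝ} {x : ℕ → ℝ}
    (hC : ∀ j : ℕ, ∑ v, θ v * evH (nthH (Cs v) j) x ≤ 0) :
    ∀ ls : List (ℕ × ℕ), ∑ v, θ v * lamv (Cs v) ls x ≤ 0
  | [] => by simp [lamv]
  | e :: l => by
    have h2 := sum_lamv hC l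
    have h3 : (0 : ℝ) ≤ e.2 := Nat.cast_nonneg _
    have h1 := mul_nonneg h3 (neg_nonneg.2 (hC e.1))
    have e1 : ∑ v, θ v * lamv (Cs v) (e :: l) x =
        e.2 * ∑ v, θ v * evH (nthH (Cs v) e.1) x + ∑ v, θ v * lamv (Cs v) l x := by
      rw [Finset.mul_sum, ← Finset.sum_add_distrib]
      refine Finset.sum_congr rfl fun v _ => ?_
      rw [lamv]
      ring
    rw [e1]
    linarith

/-- **the leaf for a convex combination of states with common multipliers** -/
theorem leaf_conv {ι : Type} [Fintype ι] {P : ι → H} {err : ι → ℕ} {Cs : ι → List H} {κ : ℕ}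
    {ls : List (ℕ × ℕ)} {sq : ι → List (ℕ × ℤ × List ℤ)}
    (h : ∀ v, rowOK (P v) (err v) (Cs v) κ ls (sq v) = true) {x : ℕ → ℝ} (hx : ∀ i, |x i| ≤ 1)
    {θ : ι → ℝ} (h0 : ∀ v, 0 ≤ θ v) (h1 : ∑ v, θ v = 1)
    (hC : ∀ j : ℕ, ∑ v, θ v * evH (nthH (Cs v) j) x ≤ 0) :
    0 < ∑ v, θ v * (evH (P v) x - err v) := by
  have h2 : ∑ v, θ v * ((κ : ℝ) * err v + 1) ≤ ∑ v, θ v * (κ * evH (P v) x + lamv (Cs v) ls x) :=
    Finset.sum_le_sum fun v _ => mul_le_mul_of_nonneg_left (row_sound (h v) hx) (h0 v)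
  have h3 := sum_lamv hC ls
  have e1 : ∑ v, θ v * (κ * evH (P v) x + lamv (Cs v) ls x) =
      κ * ∑ v, θ v * evH (P v) x + ∑ v, θ v * lamv (Cs v) ls x := by
    rw [Finset.mul_sum, ← Finset.sum_add_distrib]
    exact Finset.sum_congr rfl fun v _ => by ring
  have e2 : ∑ v, θ v * ((κ : ℝ) * err v + 1) = κ * ∑ v, θ v * (err v : ℝ) + ∑ v, θ v := by
    rw [Finset.mul_sum, ← Finset.sum_add_distrib]
    exact Finset.sum_congr rfl fun v _ => by ring
  have e3 : ∑ v, θ v * (evH (P v) x - err v) =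
      ∑ v, θ v * evH (P v) x - ∑ v, θ v * (err v : ℝ) := by
    rw [← Finset.sum_sub_distrib]
    exact Finset.sum_congr rfl fun v _ => by ring
  rw [e1, e2, h1] at h2
  rw [e3]
  have h4 : (0 : ℝ) ≤ κ := Nat.cast_nonneg _
  by_contra hc
  have h5 := mul_nonneg h4 (neg_nonneg.2 (not_lt.1 hc))
  nlinarith

end Pool.Agent.Helper45.TOP
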